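import Mathlib

set_option autoImplicit false
open MeasureTheory ProbabilityTheory Real Set Filter Topology

namespace Pool.Agent.Lib.MP_cc278a_pr

/-- Gaussian weight. -/
noncomputable def gw (v u : ℝ) : ℝ := Real.exp (-(u ^ 2) / (2 * v))

lemma gw_pos (v u : ℝ) : 0 < gw v u := Real.exp_pos _

lemma gw_neg (v u : ℝ) : gw v (-u) = gw v u := by simp [gw]

lemma gw_le_one {v : ℝ} (hv : 0 < v) (u : ℝ) : gw v u ≤ 1 := by
  unfold gw
  rw [Real.exp_le_one_iff]
  apply div_nonpos_of_nonpos_of_nonneg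
  · nlinarith [sq_nonneg u]
  · positivity

@[fun_prop]
lemma continuous_gw (v : ℝ) : Continuous (gw v) := by
  unfold gw; fun_prop

lemma hasDerivAt_gw {v : ℝ} (hv : 0 < v) (u : ℝ) :
    HasDerivAt (gw v) (-(u / v) * gw v u) u := by
  unfold gw
  have h1 : HasDerivAt (fun u : ℝ => -(u ^ 2) / (2 * v)) (-(u / v)) u := by
    have := ((hasDerivAt_pow 2 u).neg).div_const (2 * v)
    refine this.congr_deriv ?_
    field_simp
    ring
  have := h1.exp
  refine this.congr_deriv ?_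
  ring

lemma pow_gw_bound {v : ℝ} (hv : 0 < v) (n : ℕ) :
    ∃ C : ℝ, 0 ≤ C ∧ ∀ u : ℝ, |u ^ n * gw v u| ≤ C := by
  refine ⟨1 + (2 * v) ^ n * n.factorial, by positivity, fun u => ?_⟩
  rw [abs_mul, abs_of_pos (gw_pos v u), abs_pow]
  have h1 : |u| ^ n ≤ 1 + (u ^ 2) ^ n := by
    rcases le_total |u| 1 with h | h
    · have := pow_le_one₀ (n := n) (abs_nonneg u) h
      have h2 : 0 ≤ (u ^ 2) ^ n := by positivity
      linarith
    · have h2 : |u| ≤ u ^ 2 := by rw [← sq_abs]; nlinarith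
      have := pow_le_pow_left₀ (abs_nonneg u) h2 n
      linarith
  have h2 : (u ^ 2 / (2 * v)) ^ n / n.factorial ≤ Real.exp (u ^ 2 / (2 * v)) :=
    Real.pow_div_factorial_le_exp _ (by positivity) n
  have h3 : gw v u * Real.exp (u ^ 2 / (2 * v)) = 1 := by
    unfold gw; rw [← Real.exp_add]; simp [neg_div]
  have h4 : (u ^ 2) ^ n * gw v u ≤ (2 * v) ^ n * n.factorial := by
    have hf : (0 : ℝ) < n.factorial := by positivity
    rw [div_le_iff₀ hf, div_pow, div_le_iff₀ (by positivity)] at h2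
    have := mul_le_mul_of_nonneg_right h2 (gw_pos v u).le
    calc (u ^ 2) ^ n * gw v u
        ≤ Real.exp (u ^ 2 / (2 * v)) * n.factorial * (2 * v) ^ n * gw v u := this
      _ = (gw v u * Real.exp (u ^ 2 / (2 * v))) * ((2 * v) ^ n * n.factorial) := by ring
      _ = _ := by rw [h3, one_mul]
  have h5 := gw_le_one hv u
  have h6 := mul_le_mul_of_nonneg_right h1 (gw_pos v u).le
  nlinarith [gw_pos v u]

/-- Gaussian-weighted moments about `y`. -/
noncomputable def bm (μ : Measure ℝ) (v : ℝ) (n : ℕ) (y : ℝ) : ℝ :=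
  ∫ x, (x - y) ^ n * gw v (x - y) ∂μ

section
variable (μ : Measure ℝ) [IsProbabilityMeasure μ] {v : ℝ}

lemma integrable_bm (hv : 0 < v) (n : ℕ) (y : ℝ) :
    Integrable (fun x => (x - y) ^ n * gw v (x - y)) μ := by
  obtain ⟨C, -, hC⟩ := pow_gw_bound hv n
  refine Integrable.of_bound (by fun_prop) C (Eventually.of_forall fun x => ?_)
  exact hC _

lemma hasDerivAt_bm (hv : 0 < v) (n : ℕ) (y : ℝ) :
    HasDerivAt (bm μ v n) (-(n : ℝ) * bm μ v (n - 1) y + bm μ v (n + 1) y / v) y := by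
  obtain ⟨C1, -, hC1⟩ := pow_gw_bound hv (n - 1)
  obtain ⟨C2, -, hC2⟩ := pow_gw_bound hv (n + 1)
  have key := hasDerivAt_integral_of_dominated_loc_of_deriv_le (μ := μ) (x₀ := y) (s := univ)
    (F := fun y x => (x - y) ^ n * gw v (x - y))
    (F' := fun y x => -(n : ℝ) * ((x - y) ^ (n - 1) * gw v (x - y))
      + (x - y) ^ (n + 1) * gw v (x - y) / v)
    (bound := fun _ => n * C1 + C2 / v) univ_mem
    (Eventually.of_forall fun y => by fun_prop) (integrable_bm μ hv n y) (by fun_prop)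
    (Eventually.of_forall fun x y _ => by
      refine (norm_add_le _ _).trans (add_le_add ?_ ?_)
      · rw [norm_mul, norm_neg, Real.norm_natCast]
        exact mul_le_mul_of_nonneg_left (hC1 _) (by positivity)
      · rw [norm_div, Real.norm_of_nonneg hv.le]
        exact div_le_div_of_nonneg_right (hC2 _) hv.le)
    (integrable_const _)
    (Eventually.of_forall fun x y _ => by
      have h0 : HasDerivAt (fun y : ℝ => x - y) (-1) y := by
        simpa using (hasDerivAt_id y).const_sub x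
      have h1 := h0.fun_pow n
      have h2 := (hasDerivAt_gw hv (x - y)).comp y h0
      have h3 := h1.mul h2
      refine h3.congr_deriv ?_
      simp only [Function.comp]
      ring)
  have := key.2
  refine this.congr_deriv ?_
  rw [integral_add ((integrable_bm μ hv _ y).const_mul _) ((integrable_bm μ hv _ y).div_const _),
    integral_const_mul, integral_div]
  rfl

variable {μ}

lemma integrable_sub_sq (h2 : MemLp id 2 μ) (y : ℝ) : Integrable (fun x => (x - y) ^ 2) μ := by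
  have : MemLp (fun x => x - y) 2 μ := h2.sub (memLp_const y)
  simpa using this.integrable_sq

lemma integral_sub_sq_le (h2 : MemLp id 2 μ) (y : ℝ) :
    ∫ x, (x - y) ^ 2 ∂μ ≤ 2 * (∫ x, x ^ 2 ∂μ) + 2 * y ^ 2 := by
  have hi : Integrable (fun x : ℝ => x ^ 2) μ := by simpa using h2.integrable_sq
  calc ∫ x, (x - y) ^ 2 ∂μ ≤ ∫ x, (2 * x ^ 2 + 2 * y ^ 2) ∂μ := by
        refine integral_mono (integrable_sub_sq h2 y) ((hi.const_mul 2).add (integrable_const _))
          fun x => ?_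
        simp only
        nlinarith [sq_nonneg (x + y)]
    _ = _ := by
        rw [integral_add (hi.const_mul 2) (integrable_const _), integral_const_mul]
        simp

lemma bm_zero_ge (hv : 0 < v) (h2 : MemLp id 2 μ) (y : ℝ) :
    Real.exp (-(∫ x, (x - y) ^ 2 ∂μ) / (2 * v)) ≤ bm μ v 0 y := by
  set K := ∫ x, (x - y) ^ 2 ∂μ with hK
  have hi := integrable_sub_sq h2 y
  have : ∫ x, Real.exp (-K / (2 * v)) * (1 + (K - (x - y) ^ 2) / (2 * v)) ∂μ
      = Real.exp (-K / (2 * v)) := by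
    have hi2 : Integrable (fun x => (K - (x - y) ^ 2) / (2 * v)) μ :=
      ((integrable_const _).sub hi).div_const _
    rw [integral_const_mul, integral_add (integrable_const _) hi2, integral_div,
      integral_sub (integrable_const _) hi]
    simp [hK]
  rw [← this]
  refine integral_mono (((integrable_const _).add
    (((integrable_const _).sub hi).div_const _)).const_mul _) (integrable_bm μ hv 0 y) fun x => ?_
  simp only [pow_zero, one_mul, gw]
  have h1 : -((x - y) ^ 2) / (2 * v) = -K / (2 * v) + (K - (x - y) ^ 2) / (2 * v) := by ring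
  rw [h1, Real.exp_add]
  refine mul_le_mul_of_nonneg_left ?_ (Real.exp_pos _).le
  have := Real.add_one_le_exp ((K - (x - y) ^ 2) / (2 * v))
  linarith

lemma bm_zero_pos (hv : 0 < v) (h2 : MemLp id 2 μ) (y : ℝ) : 0 < bm μ v 0 y :=
  (Real.exp_pos _).trans_le (bm_zero_ge hv h2 y)

lemma bm_zero_le_one (hv : 0 < v) (y : ℝ) : bm μ v 0 y ≤ 1 := by
  have : ∫ _ : ℝ, (1 : ℝ) ∂μ = 1 := by simp
  rw [← this]
  refine integral_mono (integrable_bm μ hv 0 y) (integrable_const _) fun x => ?_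
  simpa using gw_le_one hv (x - y)

lemma bm_two_le (hv : 0 < v) (h2 : MemLp id 2 μ) (y : ℝ) :
    bm μ v 2 y ≤ (∫ x, (x - y) ^ 2 ∂μ) * bm μ v 0 y := by
  set K := ∫ x, (x - y) ^ 2 ∂μ with hK
  have hi := integrable_sub_sq h2 y
  have h0 : ∫ x, Real.exp (-K / (2 * v)) * ((x - y) ^ 2 - K) ∂μ = 0 := by
    rw [integral_const_mul, integral_sub hi (integrable_const _)]
    simp [hK]
  have h1 : bm μ v 2 y - K * bm μ v 0 y
      = ∫ x, ((x - y) ^ 2 * gw v (x - y) - K * ((x - y) ^ 0 * gw v (x - y))) ∂μ := by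
    rw [integral_sub (integrable_bm μ hv 2 y) ((integrable_bm μ hv 0 y).const_mul _),
      integral_const_mul]
    rfl
  have h3 : bm μ v 2 y - K * bm μ v 0 y ≤ 0 := by
    rw [h1, ← h0]
    refine integral_mono ((integrable_bm μ hv 2 y).sub ((integrable_bm μ hv 0 y).const_mul _))
      ((hi.sub (integrable_const _)).const_mul _) fun x => ?_
    simp only [pow_zero, one_mul, gw]
    rcases le_total ((x - y) ^ 2) K with h | h
    · have : Real.exp (-K / (2 * v)) ≤ Real.exp (-((x - y) ^ 2) / (2 * v)) := by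
        apply Real.exp_le_exp.2
        apply div_le_div_of_nonneg_right (by linarith) (by positivity)
      nlinarith
    · have : Real.exp (-((x - y) ^ 2) / (2 * v)) ≤ Real.exp (-K / (2 * v)) := by
        apply Real.exp_le_exp.2
        apply div_le_div_of_nonneg_right (by linarith) (by positivity)
      nlinarith
  linarith

lemma integral_poly (hv : 0 < v) (y a0 a1 a2 a3 : ℝ) :
    ∫ x, (a0 + a1 * (x - y) + a2 * (x - y) ^ 2 + a3 * (x - y) ^ 3) * gw v (x - y) ∂μ
      = a0 * bm μ v 0 y + a1 * bm μ v 1 y + a2 * bm μ v 2 y + a3 * bm μ v 3 y := by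
  have h0 := (integrable_bm μ hv 0 y).const_mul a0
  have h1 := (integrable_bm μ hv 1 y).const_mul a1
  have h2 := (integrable_bm μ hv 2 y).const_mul a2
  have h3 := (integrable_bm μ hv 3 y).const_mul a3
  have h01 : Integrable (fun x => a0 * ((x - y) ^ 0 * gw v (x - y))
      + a1 * ((x - y) ^ 1 * gw v (x - y))) μ := h0.add h1
  have h012 : Integrable (fun x => a0 * ((x - y) ^ 0 * gw v (x - y))
      + a1 * ((x - y) ^ 1 * gw v (x - y)) + a2 * ((x - y) ^ 2 * gw v (x - y))) μ := h01.add h2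
  unfold bm
  rw [← integral_const_mul, ← integral_const_mul, ← integral_const_mul, ← integral_const_mul,
    ← integral_add h0 h1, ← integral_add h01 h2, ← integral_add h012 h3]
  congr 1
  ext x
  ring

lemma integrable_poly (hv : 0 < v) (y a0 a1 a2 a3 : ℝ) :
    Integrable (fun x =>
      (a0 + a1 * (x - y) + a2 * (x - y) ^ 2 + a3 * (x - y) ^ 3) * gw v (x - y)) μ := by
  have h0 := (integrable_bm μ hv 0 y).const_mul a0
  have h1 := (integrable_bm μ hv 1 y).const_mul a1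
  have h2 := (integrable_bm μ hv 2 y).const_mul a2
  have h3 := (integrable_bm μ hv 3 y).const_mul a3
  refine (((h0.add h1).add h2).add h3).congr (Eventually.of_forall fun x => ?_)
  simp only [Pi.add_apply]
  ring

/-- Cauchy-Schwarz in the weak form needed. -/
lemma bm_one_sq_le (hv : 0 < v) (h2 : MemLp id 2 μ) (y : ℝ) :
    (bm μ v 1 y / bm μ v 0 y) ^ 2 ≤ bm μ v 2 y / bm μ v 0 y := by
  have hp := bm_zero_pos hv h2 y
  set m := bm μ v 1 y / bm μ v 0 y with hm
  have h0 : 0 ≤ ∫ x, (m ^ 2 + (-2 * m) * (x - y) + 1 * (x - y) ^ 2 + 0 * (x - y) ^ 3)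
      * gw v (x - y) ∂μ := by
    refine integral_nonneg fun x => mul_nonneg ?_ (gw_pos _ _).le
    nlinarith [sq_nonneg (x - y - m)]
  rw [integral_poly hv] at h0
  have h1 : bm μ v 1 y = m * bm μ v 0 y := by rw [hm]; field_simp
  rw [le_div_iff₀ hp]
  rw [h1] at h0
  nlinarith

end

/-- Log of the unnormalised smoothed density and its derivatives. -/
noncomputable def L0 (μ : Measure ℝ) (v y : ℝ) : ℝ := Real.log (bm μ v 0 y)
noncomputable def L1 (μ : Measure ℝ) (v y : ℝ) : ℝ := bm μ v 1 y / bm μ v 0 y / v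
noncomputable def L2 (μ : Measure ℝ) (v y : ℝ) : ℝ :=
  (bm μ v 2 y / bm μ v 0 y - (bm μ v 1 y / bm μ v 0 y) ^ 2) / v ^ 2 - 1 / v
noncomputable def L3 (μ : Measure ℝ) (v y : ℝ) : ℝ :=
  (bm μ v 3 y / bm μ v 0 y - 3 * (bm μ v 1 y / bm μ v 0 y) * (bm μ v 2 y / bm μ v 0 y)
    + 2 * (bm μ v 1 y / bm μ v 0 y) ^ 3) / v ^ 3

section
variable {μ : Measure ℝ} [IsProbabilityMeasure μ] {v : ℝ}

lemma hasDerivAt_L0 (hv : 0 < v) (h2 : MemLp id 2 μ) (y : ℝ) :
    HasDerivAt (L0 μ v) (L1 μ v y) y := by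
  have hp := bm_zero_pos hv h2 y
  have := (hasDerivAt_bm μ hv 0 y).log hp.ne'
  refine this.congr_deriv ?_
  simp only [L1]
  field_simp
  simp

lemma hasDerivAt_L1 (hv : 0 < v) (h2 : MemLp id 2 μ) (y : ℝ) :
    HasDerivAt (L1 μ v) (L2 μ v y) y := by
  have hp := bm_zero_pos hv h2 y
  have := ((hasDerivAt_bm μ hv 1 y).div (hasDerivAt_bm μ hv 0 y) hp.ne').div_const v
  refine this.congr_deriv ?_
  simp only [L2]
  field_simp
  simp
  ring

lemma hasDerivAt_L2 (hv : 0 < v) (h2 : MemLp id 2 μ) (y : ℝ) :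
    HasDerivAt (L2 μ v) (L3 μ v y) y := by
  have hp := bm_zero_pos hv h2 y
  have h1 := (hasDerivAt_bm μ hv 1 y).div (hasDerivAt_bm μ hv 0 y) hp.ne'
  have h3 := (hasDerivAt_bm μ hv 2 y).div (hasDerivAt_bm μ hv 0 y) hp.ne'
  have := (((h3.sub (h1.pow 2)).div_const (v ^ 2))).sub_const (1 / v)
  refine this.congr_deriv ?_
  simp only [L3, Pi.div_apply]
  norm_num
  field_simp
  ring

/-- Quadratic growth. -/
def QG (f : ℝ → ℝ) : Prop := ∃ C : ℝ, 0 ≤ C ∧ ∀ y, |f y| ≤ C * (1 + y ^ 2)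

lemma ratio_le (hv : 0 < v) (h2 : MemLp id 2 μ) (y : ℝ) :
    bm μ v 2 y / bm μ v 0 y ≤ (2 * (∫ x, x ^ 2 ∂μ) + 2) * (1 + y ^ 2) := by
  have hp := bm_zero_pos hv h2 y
  rw [div_le_iff₀ hp]
  refine (bm_two_le hv h2 y).trans (mul_le_mul_of_nonneg_right ?_ hp.le)
  have h1 := integral_sub_sq_le h2 y
  have h3 : 0 ≤ ∫ x, x ^ 2 ∂μ := integral_nonneg fun x => sq_nonneg x
  nlinarith [sq_nonneg y]

lemma QG_L0 (hv : 0 < v) (h2 : MemLp id 2 μ) : QG (L0 μ v) := by
  have h3 : 0 ≤ ∫ x, x ^ 2 ∂μ := integral_nonneg fun x => sq_nonneg x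
  refine ⟨(2 * (∫ x, x ^ 2 ∂μ) + 2) / (2 * v), by positivity, fun y => ?_⟩
  have hp := bm_zero_pos hv h2 y
  have h4 : L0 μ v y ≤ 0 := Real.log_nonpos hp.le (bm_zero_le_one hv y)
  have h5 : -(∫ x, (x - y) ^ 2 ∂μ) / (2 * v) ≤ L0 μ v y := by
    unfold L0
    rw [Real.le_log_iff_exp_le hp]
    exact bm_zero_ge hv h2 y
  rw [abs_of_nonpos h4]
  have h1 := integral_sub_sq_le h2 y
  have h6 : (∫ x, (x - y) ^ 2 ∂μ) / (2 * v)
      ≤ (2 * (∫ x, x ^ 2 ∂μ) + 2) / (2 * v) * (1 + y ^ 2) := by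
    rw [div_mul_eq_mul_div]
    apply div_le_div_of_nonneg_right _ (by positivity)
    nlinarith [sq_nonneg y]
  rw [neg_div] at h5
  linarith

lemma QG_L1 (hv : 0 < v) (h2 : MemLp id 2 μ) : QG (L1 μ v) := by
  have h3 : 0 ≤ ∫ x, x ^ 2 ∂μ := integral_nonneg fun x => sq_nonneg x
  refine ⟨(2 * (∫ x, x ^ 2 ∂μ) + 3) / v, by positivity, fun y => ?_⟩
  have h4 := (bm_one_sq_le hv h2 y).trans (ratio_le hv h2 y)
  unfold L1
  rw [abs_div, abs_of_pos hv, div_mul_eq_mul_div]
  apply div_le_div_of_nonneg_right _ hv.le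
  set m := bm μ v 1 y / bm μ v 0 y
  have h5 : |m| ≤ 1 + m ^ 2 := by rw [← sq_abs m]; nlinarith [sq_nonneg (|m| - 1), abs_nonneg m]
  nlinarith [sq_nonneg y]

lemma QG_L2 (hv : 0 < v) (h2 : MemLp id 2 μ) : QG (L2 μ v) := by
  have h3 : 0 ≤ ∫ x, x ^ 2 ∂μ := integral_nonneg fun x => sq_nonneg x
  refine ⟨(2 * (∫ x, x ^ 2 ∂μ) + 2) / v ^ 2 + 1 / v, by positivity, fun y => ?_⟩
  have h4 := bm_one_sq_le hv h2 y
  have h5 := ratio_le hv h2 y
  unfold L2
  set m := bm μ v 1 y / bm μ v 0 y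
  set r := bm μ v 2 y / bm μ v 0 y
  refine (abs_sub _ _).trans ?_
  rw [abs_of_nonneg (by apply div_nonneg (by linarith) (by positivity)),
    abs_of_pos (by positivity : 0 < 1 / v), add_mul]
  apply add_le_add
  · rw [div_mul_eq_mul_div]
    apply div_le_div_of_nonneg_right _ (by positivity)
    nlinarith [sq_nonneg m]
  · have : 0 < 1 / v := by positivity
    nlinarith [sq_nonneg y]

end

end Pool.Agent.Lib.MP_cc278a_pr
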