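import Pool.Agent.Lib.MP_cc278a_pr.Star

set_option autoImplicit false
open MeasureTheory ProbabilityTheory Real Set Filter Topology
open scoped NNReal ENNReal

namespace Pool.Agent.Lib.MP_cc278a_pr

lemma hermite_hadamard {g : ℝ → ℝ} (hg : ConvexOn ℝ (Ioi 0) g)
    (i1 : Integrable fun x => x * hp g x) {a b : ℝ} (ha : 0 < a) (hab : a < b) :
    ∫ x in a..b, x * hp g x ≤ (b ^ 2 - a ^ 2) / 4 * (hp g a + hp g b) := by
  have hc : ConvexOn ℝ (Ioi 0) (fun s => Real.exp (g s)) :=
    ⟨hg.1, fun x hx y hy a b ha hb hab => (Real.exp_le_exp.2 (hg.2 hx hy ha hb hab)).trans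
      (convexOn_exp.2 (mem_univ _) (mem_univ _) ha hb hab)⟩
  have hD : 0 < b ^ 2 - a ^ 2 := by nlinarith
  have h1 : ∫ x in a..b, ((b ^ 2 * hp g a - a ^ 2 * hp g b) / (b ^ 2 - a ^ 2) * x
      + (hp g b - hp g a) / (b ^ 2 - a ^ 2) * x ^ 3)
      = (b ^ 2 - a ^ 2) / 4 * (hp g a + hp g b) := by
    rw [intervalIntegral.integral_add (by apply Continuous.intervalIntegrable; fun_prop)
      (by apply Continuous.intervalIntegrable; fun_prop), intervalIntegral.integral_const_mul,
      intervalIntegral.integral_const_mul, integral_id, integral_pow]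
    field_simp
    ring
  rw [← h1]
  refine intervalIntegral.integral_mono_on hab.le i1.intervalIntegrable
    (by apply Continuous.intervalIntegrable; fun_prop) fun x hx => ?_
  have hx0 : 0 < x := ha.trans_le hx.1
  have h2 := convex_chord hc (s1 := a ^ 2) (s2 := x ^ 2) (s3 := b ^ 2)
    (show 0 < a ^ 2 by positivity) (show 0 < b ^ 2 by nlinarith)
    (by nlinarith [hx.1]) (by nlinarith [hx.2])
  have e : (b ^ 2 * hp g a - a ^ 2 * hp g b) / (b ^ 2 - a ^ 2) * x
      + (hp g b - hp g a) / (b ^ 2 - a ^ 2) * x ^ 3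
      = x * (((b ^ 2 - x ^ 2) * hp g a + (x ^ 2 - a ^ 2) * hp g b) / (b ^ 2 - a ^ 2)) := by
    field_simp; ring
  rw [e]
  apply mul_le_mul_of_nonneg_left _ hx0.le
  rw [le_div_iff₀ hD]
  unfold hp
  linarith

lemma conv_star {g : ℝ → ℝ} (hg : ConvexOn ℝ (Ioi 0) g) [IsProbabilityMeasure (dm (hp g))]
    (h2 : MemLp id 2 (dm (hp g))) {f1 f2 : ℝ → ℝ} (hd : ∀ y, HasDerivAt f1 (f2 y) y)
    (hc2 : Continuous f2) (o1 : ∀ y, f1 (-y) = -f1 y) (e2 : ∀ y, f2 (-y) = f2 y)
    (q1 : QG f1) (q2 : QG f2) (hs : ∀ y, 0 < y → f1 y ≤ y * f2 y) {t : ℝ} (ht : 0 < t) :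
    T (dm (hp g)) f1 t ≤ t * T (dm (hp g)) f2 t := by
  have hm := hp_measurable hg
  have h0 : ∀ x, 0 ≤ hp g x := fun x => (hp_pos g x).le
  have hc1 : Continuous f1 := continuous_iff_continuousAt.2 fun y => (hd y).continuousAt
  have i1 : Integrable fun x => x * hp g x := by
    have := (integrable_dm hm h0).1 (h2.integrable (by simp))
    simpa [mul_comm] using this
  have i2 : Integrable fun x => x ^ 2 * hp g x := by
    have := (integrable_dm hm h0 (g := fun x => x ^ 2)).1 (by simpa using h2.integrable_sq)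
    simpa [mul_comm] using this
  have j1 := (integrable_dm hm h0).1 ((q1.shift t).integrable (by fun_prop) h2)
  have j2 := (integrable_dm hm h0).1 ((q2.shift t).integrable (by fun_prop) h2)
  set k : ℝ → ℝ := fun x => t * (hp g x * f2 (t + x)) - hp g x * f1 (t + x) with hk
  have ik : Integrable k := (j2.const_mul t).sub j1
  set h : ℝ → ℝ := fun y => k (y - t) with hh
  have ih : Integrable h := ik.comp_sub_right t
  have Ih : ∫ y, h y = t * T (dm (hp g)) f2 t - T (dm (hp g)) f1 t := by
    simp only [hh]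
    rw [integral_sub_right_eq_self k t, integral_sub (j2.const_mul t) j1, integral_const_mul]
    unfold T
    rw [integral_dm hm h0, integral_dm hm h0]
  set u : ℝ → ℝ := fun y => h y + h (-y) with hu
  have iu : Integrable u := ih.add ih.comp_neg
  have ue : ∀ y, u y = (t * f2 y - f1 y) * hp g (y - t) + (t * f2 y + f1 y) * hp g (y + t) := by
    intro y
    have a1 : t + (y - t) = y := by ring
    have a2 : t + (-y - t) = -y := by ring
    have a3 : -y - t = -(y + t) := by ring
    simp only [hu, hh, hk]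
    rw [a1, a2, a3, hp_neg, o1, e2]; ring
  have Iu : ∫ y in Ioi 0, u y = ∫ y, h y := by
    simp only [hu]
    rw [integral_add ih.integrableOn ih.comp_neg.integrableOn, integral_comp_neg_Ioi, neg_zero,
      add_comm, intervalIntegral.integral_Iic_add_Ioi ih.integrableOn ih.integrableOn]
  set K : ℝ → ℝ := fun x => ∫ ξ in (0 : ℝ)..x, ξ * hp g ξ with hK
  have Kc : Continuous K := intervalIntegral.continuous_primitive (fun _ _ => i1.intervalIntegrable) 0
  have Ke : ∀ x, K (-x) = K x := fun x => by
    simp only [hK]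
    have := intervalIntegral.integral_comp_neg (a := 0) (b := x) (fun ξ => ξ * hp g ξ)
    simp only [hp_neg, neg_zero, neg_mul, intervalIntegral.integral_neg] at this
    rw [intervalIntegral.integral_symm, ← this, neg_neg]
  have Kd : ∀ x, x ≠ 0 → HasDerivAt K (x * hp g x) x := fun x hx =>
    intervalIntegral.integral_hasDerivAt_right i1.intervalIntegrable
      (i1.aestronglyMeasurable.stronglyMeasurableAtFilter)
      (continuousAt_id.mul (hp_continuousAt hg hx))
  have Ksub : ∀ a b, K b - K a = ∫ ξ in a..b, ξ * hp g ξ := fun a b =>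
    intervalIntegral.integral_interval_sub_left i1.intervalIntegrable i1.intervalIntegrable
  set U : ℝ → ℝ := fun R => ∫ y in (0 : ℝ)..R, u y with hU
  have Uc : Continuous U := intervalIntegral.continuous_primitive (fun _ _ => iu.intervalIntegrable) 0
  set Φ : ℝ → ℝ := fun R => U R + f1 R / R * (K (R - t) - K (R + t)) with hΦ
  have Φc : ∀ R, 0 < R → ContinuousAt Φ R := fun R hR =>
    Uc.continuousAt.add ((hc1.continuousAt.div continuousAt_id hR.ne').mul (by fun_prop))
  have Φd : ∀ R, 0 < R → R ≠ t → ∃ D, HasDerivAt Φ D R ∧ 0 ≤ D := by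
    intro R hR hRt
    have n1 : R - t ≠ 0 := sub_ne_zero.2 hRt
    have n2 : R + t ≠ 0 := by positivity
    have uc : ContinuousAt u R := by
      have : u = fun y => (t * f2 y - f1 y) * hp g (y - t) + (t * f2 y + f1 y) * hp g (y + t) :=
        funext ue
      rw [this]
      have c1 : ContinuousAt (fun y => hp g (y - t)) R :=
        ContinuousAt.comp (f := fun y => y - t) (hp_continuousAt hg n1) (by fun_prop)
      have c2 : ContinuousAt (fun y => hp g (y + t)) R :=
        ContinuousAt.comp (f := fun y => y + t) (hp_continuousAt hg n2) (by fun_prop)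
      exact (ContinuousAt.mul (by fun_prop) c1).add (ContinuousAt.mul (by fun_prop) c2)
    have d1 : HasDerivAt U (u R) R :=
      intervalIntegral.integral_hasDerivAt_right iu.intervalIntegrable
        (iu.aestronglyMeasurable.stronglyMeasurableAtFilter) uc
    have d2 : HasDerivAt (fun R => f1 R / R) ((f2 R * R - f1 R * 1) / R ^ 2) R :=
      (hd R).div (hasDerivAt_id R) hR.ne'
    have d3 := (Kd _ n1).comp_sub_const R t
    have d4 := (Kd _ n2).comp_add_const R t
    refine ⟨_, d1.add (d2.mul (d3.sub d4)), ?_⟩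
    have key : K (R + t) - K (R - t) ≤ t * R * (hp g (R - t) + hp g (R + t)) := by
      have a1 : K (R - t) = K |R - t| := by
        rcases abs_cases (R - t) with h | h <;> rw [h.1]
        exact (Ke _).symm
      have a2 : hp g (R - t) = hp g |R - t| := by
        rcases abs_cases (R - t) with h | h <;> rw [h.1]
        exact (hp_neg _ _).symm
      rw [a1, a2, Ksub]
      have := hermite_hadamard hg i1 (abs_pos.2 n1) (b := R + t)
        (by rw [abs_lt]; constructor <;> linarith)
      rw [sq_abs] at this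
      have e : ((R + t) ^ 2 - (R - t) ^ 2) / 4 = t * R := by ring
      rwa [e] at this
    have hl : 0 ≤ (f2 R * R - f1 R * 1) / R ^ 2 :=
      div_nonneg (by linarith [hs R hR]) (sq_nonneg R)
    have e : u R + ((f2 R * R - f1 R * 1) / R ^ 2 * (K (R - t) - K (R + t))
        + f1 R / R * ((R - t) * hp g (R - t) - (R + t) * hp g (R + t)))
        = (f2 R * R - f1 R * 1) / R ^ 2
          * (t * R * (hp g (R - t) + hp g (R + t)) - (K (R + t) - K (R - t))) := by
      rw [ue]; field_simp; ring
    refine le_of_le_of_eq ?_ e.symm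
    exact mul_nonneg hl (by linarith)
  have m1 : MonotoneOn Φ (Ioc 0 t) := by
    refine monotoneOn_of_deriv_nonneg (convex_Ioc 0 t)
      (fun R hR => (Φc R hR.1).continuousWithinAt) (fun R hR => ?_) (fun R hR => ?_)
    · rw [interior_Ioc] at hR
      obtain ⟨D, hD, -⟩ := Φd R hR.1 hR.2.ne
      exact hD.differentiableAt.differentiableWithinAt
    · rw [interior_Ioc] at hR
      obtain ⟨D, hD, hD0⟩ := Φd R hR.1 hR.2.ne
      rwa [hD.deriv]
  have m2 : MonotoneOn Φ (Ici t) := by
    refine monotoneOn_of_deriv_nonneg (convex_Ici t)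
      (fun R hR => (Φc R (ht.trans_le hR)).continuousWithinAt) (fun R hR => ?_) (fun R hR => ?_)
    · rw [interior_Ici] at hR
      obtain ⟨D, hD, -⟩ := Φd R (ht.trans hR) (ne_of_gt hR)
      exact hD.differentiableAt.differentiableWithinAt
    · rw [interior_Ici] at hR
      obtain ⟨D, hD, hD0⟩ := Φd R (ht.trans hR) (ne_of_gt hR)
      rwa [hD.deriv]
  have f10 : f1 0 = 0 := by have := o1 0; rw [neg_zero] at this; linarith
  have l0 : Tendsto Φ (𝓝[>] 0) (𝓝 0) := by
    have a1 : Tendsto U (𝓝[>] 0) (𝓝 0) := by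
      have := Uc.tendsto 0
      simp only [hU, intervalIntegral.integral_same] at this
      exact this.mono_left nhdsWithin_le_nhds
    have a2 : Tendsto (fun R => f1 R / R) (𝓝[>] 0) (𝓝 (f2 0)) := by
      have := (hd 0).tendsto_slope_zero_right
      simp only [zero_add, f10, sub_zero, smul_eq_mul] at this
      simpa [div_eq_inv_mul] using this
    have a3 : Tendsto (fun R => K (R - t) - K (R + t)) (𝓝[>] 0) (𝓝 0) := by
      have c : Continuous fun R => K (R - t) - K (R + t) := by fun_prop
      have := c.tendsto 0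
      simp only [zero_sub, zero_add, Ke, sub_self] at this
      exact this.mono_left nhdsWithin_le_nhds
    simpa using a1.add (a2.mul a3)
  have hΦt : 0 ≤ Φ t := by
    refine le_of_tendsto l0 ?_
    filter_upwards [Ioc_mem_nhdsGT ht] with R hR
    exact m1 hR ⟨ht, le_rfl⟩ hR.2
  have l1 : Tendsto Φ atTop (𝓝 (∫ y, h y)) := by
    have a1 : Tendsto U atTop (𝓝 (∫ y, h y)) := by
      rw [← Iu]
      exact intervalIntegral_tendsto_integral_Ioi 0 iu.integrableOn tendsto_id
    obtain ⟨C, hC0, hC⟩ := q1
    set S : ℝ → ℝ := fun x => ∫ ξ in (0 : ℝ)..x, ξ ^ 2 * hp g ξ with hS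
    have s1 : Tendsto S atTop (𝓝 (∫ ξ in Ioi 0, ξ ^ 2 * hp g ξ)) :=
      intervalIntegral_tendsto_integral_Ioi 0 i2.integrableOn tendsto_id
    have s2 : Tendsto (fun R => 4 * C * (S (R + t) - S (R + -t))) atTop (𝓝 0) := by
      have := ((s1.comp (tendsto_atTop_add_const_right _ t tendsto_id)).sub
        (s1.comp (tendsto_atTop_add_const_right _ (-t) tendsto_id))).const_mul (4 * C)
      simpa using this
    have a2 : Tendsto (fun R => f1 R / R * (K (R - t) - K (R + t))) atTop (𝓝 0) := by
      refine squeeze_zero_norm' ?_ s2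
      filter_upwards [eventually_ge_atTop 1, eventually_ge_atTop (2 * t)] with R hR1 hR2
      have hR : 0 < R := by linarith
      have b1 : S (R + t) - S (R + -t) = ∫ ξ in (R - t)..(R + t), ξ ^ 2 * hp g ξ := by
        rw [← sub_eq_add_neg]
        exact intervalIntegral.integral_interval_sub_left i2.intervalIntegrable
          i2.intervalIntegrable
      have b2 : 0 ≤ K (R + t) - K (R - t) := by
        rw [Ksub]
        exact intervalIntegral.integral_nonneg (by linarith) fun x hx =>
          mul_nonneg (by linarith [hx.1]) (h0 x)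
      have b3 : R / 2 * (K (R + t) - K (R - t)) ≤ S (R + t) - S (R + -t) := by
        rw [Ksub, b1, ← intervalIntegral.integral_const_mul]
        refine intervalIntegral.integral_mono_on (by linarith)
          (i1.const_mul _).intervalIntegrable i2.intervalIntegrable fun x hx => ?_
        have x0 : 0 ≤ x := by linarith [hx.1]
        have := mul_nonneg x0 (h0 x)
        nlinarith [hx.1]
      have b4 : |f1 R / R| ≤ 2 * C * R := by
        rw [abs_div, abs_of_pos hR, div_le_iff₀ hR]
        refine (hC R).trans ?_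
        nlinarith [mul_nonneg hC0 (show 0 ≤ R ^ 2 - 1 by nlinarith)]
      rw [norm_mul, Real.norm_eq_abs, Real.norm_eq_abs, abs_sub_comm, abs_of_nonneg b2]
      calc |f1 R / R| * (K (R + t) - K (R - t)) ≤ 2 * C * R * (K (R + t) - K (R - t)) :=
            mul_le_mul_of_nonneg_right b4 b2
        _ = 4 * C * (R / 2 * (K (R + t) - K (R - t))) := by ring
        _ ≤ _ := mul_le_mul_of_nonneg_left b3 (by positivity)
    simpa using a1.add a2
  have : 0 ≤ ∫ y, h y := by
    refine ge_of_tendsto l1 ?_
    filter_upwards [eventually_ge_atTop t] with R hR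
    exact hΦt.trans (m2 self_mem_Ici hR hR)
  linarith

end Pool.Agent.Lib.MP_cc278a_pr
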