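import Pool.Agent.Lib.MP_cc278a_pr.Basic

set_option autoImplicit false
open MeasureTheory ProbabilityTheory Real Set Filter Topology
open scoped NNReal ENNReal

namespace Pool.Agent.Lib.MP_cc278a_pr

lemma QG.integrable {f : ℝ → ℝ} (hf : QG f) (hm : Measurable f) {ν : Measure ℝ}
    [IsFiniteMeasure ν] (h2 : MemLp id 2 ν) : Integrable f ν := by
  obtain ⟨C, -, hC⟩ := hf
  have hi : Integrable (fun x : ℝ => x ^ 2) ν := by simpa using h2.integrable_sq
  refine Integrable.mono' (((integrable_const (1 : ℝ)).add hi).const_mul C)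
    hm.aestronglyMeasurable (Eventually.of_forall fun x => hC x)

lemma QG.shift {f : ℝ → ℝ} (hf : QG f) (t : ℝ) : QG (fun y => f (t + y)) := by
  obtain ⟨C, hC0, hC⟩ := hf
  refine ⟨C * (2 + 2 * t ^ 2), by positivity, fun y => (hC _).trans ?_⟩
  rw [mul_assoc]
  apply mul_le_mul_of_nonneg_left _ hC0
  nlinarith [sq_nonneg (t - y), sq_nonneg t, sq_nonneg y, mul_nonneg (sq_nonneg t) (sq_nonneg y)]

lemma QG.const_add {f : ℝ → ℝ} (hf : QG f) (a : ℝ) : QG (fun y => a + f y) := by
  obtain ⟨C, hC0, hC⟩ := hf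
  refine ⟨|a| + C, by positivity, fun y => (abs_add_le _ _).trans ?_⟩
  have := hC y
  nlinarith [mul_nonneg (abs_nonneg a) (sq_nonneg y)]

lemma QG.neg {f : ℝ → ℝ} (hf : QG f) : QG (fun y => - f y) := by
  obtain ⟨C, hC0, hC⟩ := hf
  exact ⟨C, hC0, fun y => by simpa using hC y⟩

lemma memLp_conv {μ ν : Measure ℝ} [IsFiniteMeasure μ] [IsFiniteMeasure ν]
    (hμ : MemLp id 2 μ) (hν : MemLp id 2 ν) : MemLp id 2 (μ ∗ ν) := by
  unfold Measure.conv
  rw [memLp_map_measure_iff (by fun_prop) (by fun_prop)]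
  exact (hμ.comp_fst ν).add (hν.comp_snd μ)

/-- Normalising constant. -/
noncomputable def kap (v : ℝ) : ℝ := (√(2 * π * v))⁻¹

lemma kap_pos {v : ℝ} (hv : 0 < v) : 0 < kap v := by unfold kap; positivity

lemma gaussianPDFReal_eq (m : ℝ) (v : ℝ≥0) (x : ℝ) :
    gaussianPDFReal m v x = kap v * gw v (x - m) := rfl

section
variable {μ : Measure ℝ} [IsProbabilityMeasure μ]

lemma continuous_bm {v : ℝ} (hv : 0 < v) (n : ℕ) : Continuous (bm μ v n) :=
  continuous_iff_continuousAt.2 fun y => (hasDerivAt_bm μ hv n y).continuousAt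

lemma continuous_L0 {v : ℝ} (hv : 0 < v) (h2 : MemLp id 2 μ) : Continuous (L0 μ v) :=
  continuous_iff_continuousAt.2 fun y => (hasDerivAt_L0 hv h2 y).continuousAt

lemma continuous_L1 {v : ℝ} (hv : 0 < v) (h2 : MemLp id 2 μ) : Continuous (L1 μ v) :=
  continuous_iff_continuousAt.2 fun y => (hasDerivAt_L1 hv h2 y).continuousAt

lemma continuous_L2 {v : ℝ} (hv : 0 < v) (h2 : MemLp id 2 μ) : Continuous (L2 μ v) :=
  continuous_iff_continuousAt.2 fun y => (hasDerivAt_L2 hv h2 y).continuousAt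

lemma conv_gauss_eq {v : ℝ≥0} (hv : v ≠ 0) (m : ℝ) :
    μ ∗ gaussianReal m v
      = volume.withDensity (fun y => ENNReal.ofReal (kap v * bm μ v 0 (y - m))) := by
  have hv' : (0 : ℝ) < v := by positivity
  have hc := continuous_bm (μ := μ) hv' 0
  refine Measure.ext_of_lintegral _ fun f hf => ?_
  rw [Measure.lintegral_conv hf, lintegral_withDensity_eq_lintegral_mul _ (by fun_prop) hf]
  have h1 : ∀ x : ℝ, ∫⁻ t, f (x + t) ∂(gaussianReal m v)
      = ∫⁻ y, ENNReal.ofReal (kap v * gw v (x - (y - m))) * f y := by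
    intro x
    rw [gaussianReal_of_var_ne_zero _ hv,
      lintegral_withDensity_eq_lintegral_mul _ (by fun_prop) (by fun_prop),
      ← lintegral_add_left_eq_self
        (fun y => ENNReal.ofReal (kap v * gw v (x - (y - m))) * f y) x]
    congr 1
    ext t
    simp only [Pi.mul_apply, gaussianPDF, gaussianPDFReal_eq]
    rw [← gw_neg]
    congr 4
    ring
  simp_rw [h1]
  rw [lintegral_lintegral_swap (by fun_prop)]
  congr 1
  ext y
  simp only [Pi.mul_apply]
  rw [lintegral_mul_const _ (by fun_prop)]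
  congr 1
  have hi : Integrable (fun x => kap v * gw v (x - (y - m))) μ := by
    simpa using (integrable_bm μ hv' 0 (y - m)).const_mul (kap v)
  rw [← ofReal_integral_eq_lintegral_ofReal hi
    (Eventually.of_forall fun x => (mul_pos (kap_pos hv') (gw_pos _ _)).le), integral_const_mul]
  simp [bm]

lemma gibbs {v : ℝ≥0} (hv : v ≠ 0) (h2 : MemLp id 2 μ) (c : ℝ) (ν : Measure ℝ)
    [IsProbabilityMeasure ν] (hν : MemLp id 2 ν) (hac : ν ≪ volume)
    (hint : Integrable (fun x : ℝ => Real.negMulLog ((ν.rnDeriv volume x).toReal))) :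
    ∫ x : ℝ, Real.negMulLog ((ν.rnDeriv volume x).toReal)
      ≤ -Real.log (kap v) - ∫ y, L0 μ v (y - c) ∂ν := by
  have hv' : (0 : ℝ) < v := by positivity
  have hc := continuous_bm (μ := μ) hv' 0
  have hL := continuous_L0 (μ := μ) hv' h2
  have hqpos : ∀ y, 0 < kap v * bm μ v 0 (y - c) := fun y =>
    mul_pos (kap_pos hv') (bm_zero_pos hv' h2 _)
  have hq1 : ∫⁻ y, ENNReal.ofReal (kap v * bm μ v 0 (y - c)) = 1 := by
    have : (μ ∗ gaussianReal c v) univ = 1 := measure_univ
    rw [conv_gauss_eq hv c, withDensity_apply _ MeasurableSet.univ, Measure.restrict_univ] at this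
    exact this
  have hqi : Integrable (fun y => kap v * bm μ v 0 (y - c)) := by
    refine ⟨by fun_prop, ?_⟩
    rw [hasFiniteIntegral_iff_ofReal (Eventually.of_forall fun y => (hqpos y).le), hq1]
    simp
  have hqI : ∫ y, kap v * bm μ v 0 (y - c) = 1 := by
    rw [integral_eq_lintegral_of_nonneg_ae (Eventually.of_forall fun y => (hqpos y).le)
      (by fun_prop), hq1]
    simp
  have hQ : QG (fun y => -Real.log (kap v) + -L0 μ v (-c + y)) :=
    ((QG_L0 hv' h2).shift (-c)).neg.const_add _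
  have hLi : Integrable (fun y => L0 μ v (y - c)) ν := by
    have := ((QG_L0 hv' h2).shift (-c)).integrable (by fun_prop) hν
    simpa [sub_eq_neg_add] using this
  have hψ : Integrable (fun y => -Real.log (kap v) - L0 μ v (y - c)) ν :=
    (integrable_const _).sub hLi
  have hwψ := (integrable_toReal_rnDeriv_mul_iff hac).2 hψ
  have hw : Integrable (fun x => (ν.rnDeriv volume x).toReal) := Measure.integrable_toReal_rnDeriv
  have hw1 : ∫ x, (ν.rnDeriv volume x).toReal = 1 := by
    rw [Measure.integral_toReal_rnDeriv hac]; simp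
  have hsub : Integrable (fun y => kap v * bm μ v 0 (y - c) - (ν.rnDeriv volume y).toReal) :=
    hqi.sub hw
  calc ∫ x : ℝ, Real.negMulLog ((ν.rnDeriv volume x).toReal)
      ≤ ∫ y : ℝ, ((ν.rnDeriv volume y).toReal * (-Real.log (kap v) - L0 μ v (y - c))
          + (kap v * bm μ v 0 (y - c) - (ν.rnDeriv volume y).toReal)) := by
        refine integral_mono hint (hwψ.add hsub) fun y => ?_
        simp only
        have hlog : -Real.log (kap v) - L0 μ v (y - c) = -Real.log (kap v * bm μ v 0 (y - c)) := by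
          rw [Real.log_mul (kap_pos hv').ne' (bm_zero_pos hv' h2 _).ne']
          unfold L0; ring
        rw [hlog]
        have hq := hqpos y
        generalize kap v * bm μ v 0 (y - c) = q at hq
        have hw0 : 0 ≤ (ν.rnDeriv volume y).toReal := ENNReal.toReal_nonneg
        generalize (ν.rnDeriv volume y).toReal = w at hw0
        rcases hw0.eq_or_lt with h | h
        · subst h; simp [hq.le]
        · unfold Real.negMulLog
          have h3 := Real.log_le_sub_one_of_pos (div_pos hq h)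
          rw [Real.log_div hq.ne' h.ne'] at h3
          have h4 := mul_le_mul_of_nonneg_left h3 h.le
          have h5 : w * (q / w - 1) = q - w := by field_simp
          nlinarith
    _ = _ := by
        rw [integral_add hwψ hsub, integral_sub hqi hw, hqI, hw1,
          integral_toReal_rnDeriv_mul hac, integral_sub (integrable_const _) hLi]
        simp

lemma entropy_conv_gauss {v : ℝ≥0} (hv : v ≠ 0) (h2 : MemLp id 2 μ) (m : ℝ) :
    ∫ x : ℝ, Real.negMulLog (((μ ∗ gaussianReal m v).rnDeriv volume x).toReal)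
      = -Real.log (kap v) - ∫ t, ∫ x, L0 μ v (t + x) ∂μ ∂(gaussianReal 0 v) := by
  have hv' : (0 : ℝ) < v := by positivity
  have hc := continuous_bm (μ := μ) hv' 0
  have hL := continuous_L0 (μ := μ) hv' h2
  have hqpos : ∀ y, 0 < kap v * bm μ v 0 y := fun y =>
    mul_pos (kap_pos hv') (bm_zero_pos hv' h2 _)
  have h1 : (μ ∗ gaussianReal m v).rnDeriv volume
      =ᵐ[volume] fun y => ENNReal.ofReal (kap v * bm μ v 0 (y - m)) := by
    rw [conv_gauss_eq hv m]
    exact Measure.rnDeriv_withDensity _ (by fun_prop)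
  have h3 : ∫ x : ℝ, Real.negMulLog (((μ ∗ gaussianReal m v).rnDeriv volume x).toReal)
      = ∫ y, Real.negMulLog (kap v * bm μ v 0 (y - m)) := by
    refine integral_congr_ae (h1.mono fun y hy => ?_)
    simp only
    rw [hy, ENNReal.toReal_ofReal (hqpos _).le]
  rw [h3, integral_sub_right_eq_self (fun y => Real.negMulLog (kap v * bm μ v 0 y)) m]
  have hm2 : MemLp id 2 (μ ∗ gaussianReal 0 v) := memLp_conv h2 (memLp_id_gaussianReal 2)
  have hLi : Integrable (L0 μ v) (μ ∗ gaussianReal 0 v) :=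
    (QG_L0 hv' h2).integrable (by fun_prop) hm2
  have h4 : ∫ t, ∫ x, L0 μ v (t + x) ∂μ ∂(gaussianReal 0 v)
      = ∫ y, L0 μ v y ∂(μ ∗ gaussianReal 0 v) := by
    rw [Measure.conv_comm] at hLi ⊢
    rw [integral_conv hLi]
  have h5 : -Real.log (kap v) - ∫ y, L0 μ v y ∂(μ ∗ gaussianReal 0 v)
      = ∫ y, (-Real.log (kap v) - L0 μ v y) ∂(μ ∗ gaussianReal 0 v) := by
    rw [integral_sub (integrable_const _) hLi]
    simp
  rw [h4, h5, conv_gauss_eq hv 0,
    integral_withDensity_eq_integral_toReal_smul (by fun_prop) (by simp)]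
  congr 1
  ext y
  rw [sub_zero, ENNReal.toReal_ofReal (hqpos _).le, smul_eq_mul, Real.negMulLog,
    Real.log_mul (kap_pos hv').ne' (bm_zero_pos hv' h2 _).ne']
  unfold L0
  ring

/-- The cross-entropy reduction. -/
theorem cross {v : ℝ≥0} (hv : v ≠ 0) (h2 : MemLp id 2 μ) (c m : ℝ)
    (hac : μ ∗ μ ≪ volume)
    (hint : Integrable (fun x : ℝ => Real.negMulLog (((μ ∗ μ).rnDeriv volume x).toReal)))
    (hle : ∫ t, ∫ x, L0 μ v (t + x) ∂μ ∂(gaussianReal 0 v)
      ≤ ∫ t, ∫ x, L0 μ v ((t - c) + x) ∂μ ∂μ) :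
    ∫ x : ℝ, Real.negMulLog (((μ ∗ μ).rnDeriv volume x).toReal)
      ≤ ∫ x : ℝ, Real.negMulLog (((μ ∗ gaussianReal m v).rnDeriv volume x).toReal) := by
  have hv' : (0 : ℝ) < v := by positivity
  have hL := continuous_L0 (μ := μ) hv' h2
  have hm2 : MemLp id 2 (μ ∗ μ) := memLp_conv h2 h2
  rw [entropy_conv_gauss hv h2 m]
  refine (gibbs hv h2 c (μ ∗ μ) hm2 hac hint).trans ?_
  have hLi : Integrable (fun y => L0 μ v (y - c)) (μ ∗ μ) := by
    have := ((QG_L0 hv' h2).shift (-c)).integrable (by fun_prop) hm2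
    simpa [sub_eq_neg_add] using this
  rw [integral_conv hLi]
  have : ∀ t x : ℝ, t + x - c = t - c + x := fun t x => by ring
  simp_rw [this]
  linarith

end

/-- The smoothed functions. -/
noncomputable def T (μ : Measure ℝ) (f : ℝ → ℝ) (t : ℝ) : ℝ := ∫ x, f (t + x) ∂μ

lemma hasDerivAt_T {μ : Measure ℝ} [IsProbabilityMeasure μ] (h2 : MemLp id 2 μ)
    {f f' : ℝ → ℝ} (hf : QG f) (hf' : QG f') (hd : ∀ y, HasDerivAt f (f' y) y)
    (hm : Measurable f') (t : ℝ) : HasDerivAt (T μ f) (T μ f' t) t := by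
  have hcf : Continuous f := continuous_iff_continuousAt.2 fun y => (hd y).continuousAt
  obtain ⟨C, hC0, hC⟩ := hf'
  have hi : Integrable (fun x : ℝ => x ^ 2) μ := by simpa using h2.integrable_sq
  have key := hasDerivAt_integral_of_dominated_loc_of_deriv_le (μ := μ) (x₀ := t)
    (s := Metric.ball t 1) (F := fun t x => f (t + x)) (F' := fun t x => f' (t + x))
    (bound := fun x => C * (1 + (2 * (|t| + 1) ^ 2 + 2 * x ^ 2))) (Metric.ball_mem_nhds t one_pos)
    (Eventually.of_forall fun y => by fun_prop)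
    ((hf.shift t).integrable (by fun_prop) h2)
    (hm.comp (measurable_const_add t)).aestronglyMeasurable
    (Eventually.of_forall fun x s hs => by
      refine (hC _).trans (mul_le_mul_of_nonneg_left ?_ hC0)
      have h1 : |s| ≤ |t| + 1 := by
        rw [Metric.mem_ball, Real.dist_eq] at hs
        have := abs_sub_abs_le_abs_sub s t
        linarith
      have h3 : s ^ 2 ≤ (|t| + 1) ^ 2 := by
        rw [← sq_abs s]; exact pow_le_pow_left₀ (abs_nonneg s) h1 2
      nlinarith [sq_nonneg (s - x)])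
    (((integrable_const _).add ((integrable_const _).add (hi.const_mul 2))).const_mul C)
    (Eventually.of_forall fun x s _ => by
      exact (hd (s + x)).comp_add_const s x)
  exact key.2

lemma QG_T {μ : Measure ℝ} [IsProbabilityMeasure μ] (h2 : MemLp id 2 μ)
    {f : ℝ → ℝ} (hf : QG f) : QG (T μ f) := by
  obtain ⟨C, hC0, hC⟩ := hf
  have hi : Integrable (fun x : ℝ => x ^ 2) μ := by simpa using h2.integrable_sq
  have h3 : 0 ≤ ∫ x, x ^ 2 ∂μ := integral_nonneg fun x => sq_nonneg x
  refine ⟨C * (2 + 2 * ∫ x, x ^ 2 ∂μ), by positivity, fun t => ?_⟩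
  have hb : Integrable (fun x : ℝ => C * (1 + 2 * t ^ 2 + 2 * x ^ 2)) μ :=
    ((integrable_const _).add (hi.const_mul 2)).const_mul C
  have h1 : ‖T μ f t‖ ≤ ∫ x, C * (1 + 2 * t ^ 2 + 2 * x ^ 2) ∂μ := by
    refine norm_integral_le_of_norm_le hb (Eventually.of_forall fun x => (hC _).trans ?_)
    apply mul_le_mul_of_nonneg_left _ hC0
    nlinarith [sq_nonneg (t - x)]
  rw [integral_const_mul, integral_add (integrable_const _) (hi.const_mul 2),
    integral_const_mul] at h1
  simp only [integral_const, probReal_univ, smul_eq_mul, one_mul] at h1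
  refine h1.trans ?_
  rw [mul_assoc]
  apply mul_le_mul_of_nonneg_left _ hC0
  nlinarith [sq_nonneg t, mul_nonneg h3 (sq_nonneg t)]

end Pool.Agent.Lib.MP_cc278a_pr
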