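import Pool.Agent.Lib.MP_cc278a_pr.ConvStar

set_option autoImplicit false
open MeasureTheory ProbabilityTheory Real Set Filter Topology
open scoped NNReal ENNReal

namespace Pool.Agent.Lib.MP_cc278a_pr

theorem cross2 {μ ν : Measure ℝ} [IsProbabilityMeasure μ] [IsProbabilityMeasure ν] {v : ℝ≥0}
    (hv : v ≠ 0) (h2 : MemLp id 2 μ) (h2' : MemLp id 2 ν) (m : ℝ) (hac : μ ∗ ν ≪ volume)
    (hint : Integrable (fun x : ℝ => Real.negMulLog (((μ ∗ ν).rnDeriv volume x).toReal)))
    (hle : ∫ t, T μ (L0 μ v) t ∂(gaussianReal 0 v) ≤ ∫ t, T μ (L0 μ v) t ∂ν) :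
    ∫ x : ℝ, Real.negMulLog (((μ ∗ ν).rnDeriv volume x).toReal)
      ≤ ∫ x : ℝ, Real.negMulLog (((μ ∗ gaussianReal m v).rnDeriv volume x).toReal) := by
  have hv' : (0 : ℝ) < v := by positivity
  have hL := continuous_L0 (μ := μ) hv' h2
  have hm2 : MemLp id 2 (μ ∗ ν) := memLp_conv h2 h2'
  rw [entropy_conv_gauss hv h2 m]
  refine (gibbs hv h2 0 (μ ∗ ν) hm2 hac hint).trans ?_
  have hLi : Integrable (L0 μ v) (μ ∗ ν) := (QG_L0 hv' h2).integrable (by fun_prop) hm2
  simp only [sub_zero]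
  rw [Measure.conv_comm] at hLi ⊢
  rw [integral_conv hLi]
  unfold T at hle
  linarith

theorem heavy_main {g1 g2 : ℝ → ℝ} (hg1 : ConvexOn ℝ (Ioi 0) g1) (hg2 : ConvexOn ℝ (Ioi 0) g2)
    [IsProbabilityMeasure (dm (hp g1))] [IsProbabilityMeasure (dm (hp g2))]
    (h2 : MemLp id 2 (dm (hp g1))) (h2' : MemLp id 2 (dm (hp g2))) {v : ℝ≥0} (hv : v ≠ 0)
    (hvar : variance id (dm (hp g2)) = v) :
    ∫ t, T (dm (hp g1)) (L0 (dm (hp g1)) v) t ∂(gaussianReal 0 v)
      ≤ ∫ t, T (dm (hp g1)) (L0 (dm (hp g1)) v) t ∂(dm (hp g2)) := by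
  have hv' : (0 : ℝ) < v := by positivity
  have hm := hp_measurable hg1
  have h0 : ∀ x, 0 ≤ hp g1 x := fun x => (hp_pos g1 x).le
  have he := hp_neg g1
  have hm' := hp_measurable hg2
  have h0' : ∀ x, 0 ≤ hp g2 x := fun x => (hp_pos g2 x).le
  have hvar2 : ∫ x, x ^ 2 ∂(dm (hp g2)) = v := by
    have hmean : ∫ x, id x ∂(dm (hp g2)) = 0 := by
      have := integral_dm_neg hm' h0' (hp_neg g2) id
      simp only [id] at this
      rw [integral_neg] at this
      simp only [id]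
      linarith
    rw [variance_eq_integral aemeasurable_id, hmean] at hvar
    simpa using hvar
  set μ := dm (hp g1) with hμ
  have hL0 := continuous_L0 hv' h2
  have hL1 := continuous_L1 hv' h2
  have hL2 := continuous_L2 hv' h2
  have e0 : ∀ y, L0 μ v (-y) = L0 μ v y := fun y => by simp [L0, hμ, bm_neg hm h0 he]
  have e1 : ∀ y, L1 μ v (-y) = -L1 μ v y := fun y => by simp [L1, hμ, bm_neg hm h0 he, neg_div]
  have e2 : ∀ y, L2 μ v (-y) = L2 μ v y := fun y => by simp [L2, hμ, bm_neg hm h0 he, neg_div]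
  have hd0 := fun t => hasDerivAt_T h2 (QG_L0 hv' h2) (QG_L1 hv' h2) (hasDerivAt_L0 hv' h2)
    hL1.measurable t
  have hd1 := fun t => hasDerivAt_T h2 (QG_L1 hv' h2) (QG_L2 hv' h2) (hasDerivAt_L1 hv' h2)
    hL2.measurable t
  have hTe : ∀ t, T μ (L0 μ v) (-t) = T μ (L0 μ v) t := fun t => by
    unfold T
    rw [hμ, ← integral_dm_neg hm h0 he]
    congr 1; ext x
    rw [← hμ, ← e0]; congr 1; ring
  have hk := concave_sqrt' (f := fun t => -T μ (L0 μ v) t) (fun t => (hd0 t).neg)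
    (anti_ratio (fun t => (hd1 t).neg) fun t ht => by
      have := conv_star hg1 h2 (hasDerivAt_L1 hv' h2) hL2 e1 e2 (QG_L1 hv' h2) (QG_L2 hv' h2)
        (fun y hy => star hg1 hv' h2 hy) ht
      simp only [← hμ] at this
      linarith)
  have hTc : Continuous (T μ (L0 μ v)) :=
    continuous_iff_continuousAt.2 fun y => (hd0 y).continuousAt
  have hQ := QG_T h2 (QG_L0 hv' h2)
  have hg2' : MemLp id 2 (gaussianReal 0 v) := memLp_id_gaussianReal 2
  set p := hp g2 with hpdef
  have ip0 : Integrable p := by simpa using (integrable_dm hm' h0').1 (integrable_const (1 : ℝ))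
  have ip2 : Integrable fun t => p t * t ^ 2 :=
    (integrable_dm hm' h0').1 (by simpa using h2'.integrable_sq)
  have ipT := (integrable_dm hm' h0').1 (hQ.integrable hTc.measurable h2')
  have ig0 := integrable_gaussianPDFReal 0 v
  have ig2 : Integrable fun t => gaussianPDFReal 0 v t * t ^ 2 :=
    (integrable_gauss_iff hv).1 (by simpa using hg2'.integrable_sq)
  have igT := (integrable_gauss_iff hv).1 (hQ.integrable hTc.measurable hg2')
  have Ip0 : ∫ t, p t = 1 := by
    have := integral_dm hm' h0' (fun _ => 1)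
    simpa using this.symm
  have Ip2 : ∫ t, p t * t ^ 2 = v := by rw [← integral_dm hm' h0', hvar2]
  have habs : ∀ t, T μ (L0 μ v) √(t ^ 2) = T μ (L0 μ v) t := fun t => by
    rw [Real.sqrt_sq_eq_abs]
    rcases abs_cases t with h | h <;> rw [h.1]
    exact hTe t
  have f2 : (fun t => t ^ 2 * (gaussianPDFReal 0 v t - p t))
      = fun t => gaussianPDFReal 0 v t * t ^ 2 - p t * t ^ 2 := by ext t; ring
  have fT : (fun t => (-T μ (L0 μ v) √(t ^ 2)) * (gaussianPDFReal 0 v t - p t))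
      = fun t => p t * T μ (L0 μ v) t - gaussianPDFReal 0 v t * T μ (L0 μ v) t := by
    ext t; rw [habs]; ring
  have key := two_cross_gen (d := fun t => gaussianPDFReal 0 v t - p t) (A := fun s => s)
    (B := fun s => -T μ (L0 μ v) √s) (ig0.sub ip0)
    (by rw [f2]; exact ig2.sub ip2) (by rw [fT]; exact ipT.sub igT)
    (by rw [integral_sub ig0 ip0, Ip0, integral_gaussianPDFReal_eq_one 0 hv]; simp)
    (by rw [f2, integral_sub ig2 ip2, Ip2, (gauss_moments hv).2]; simp)
    (fun x _ y _ h => h)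
    (by
      intro a b ha hab
      set k : ℝ → ℝ := fun s => -T μ (L0 μ v) √s
      refine ⟨k a - (k b - k a) / (b - a) * a, (k b - k a) / (b - a), fun s hs => ?_⟩
      have e : k a - (k b - k a) / (b - a) * a + (k b - k a) / (b - a) * s
          = k a + (k b - k a) / (b - a) * (s - a) := by ring
      rw [e]
      exact concave_secant hk ha hab hs)
    (by
      have hG : ∀ t, gaussianPDFReal 0 v t
          = Real.exp (Real.log (kap v) + (-1 / (2 * v)) * t ^ 2) := fun t => by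
        rw [gaussianPDFReal_eq, sub_zero, Real.exp_add, Real.exp_log (kap_pos hv'), gw]
        congr 2; ring
      intro t1 t2 t3 ht1 h12 h23 p1 p3
      simp only [hG, hpdef, hp, sub_pos, sub_nonneg, Real.exp_lt_exp, Real.exp_le_exp] at p1 p3 ⊢
      exact convex_pattern hg2 _ _ (by positivity) h12 h23 p1 p3)
  rw [fT, integral_sub ipT igT, ← integral_dm hm' h0'] at key
  rw [integral_gaussianReal_eq_integral_smul hv]
  simp only [smul_eq_mul]
  linarith

theorem heavy (Ω : Type) [MeasurableSpace Ω] (P : Measure Ω) [IsProbabilityMeasure P]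
    (X₁ X₂ G : Ω → ℝ) (h1 : Measurable X₁) (h2 : Measurable X₂) (hG : Measurable G)
    (hL : MemLp X₁ 2 P) (hL2 : MemLp X₂ 2 P) (hi12 : IndepFun X₁ X₂ P)
    (hi1G : IndepFun X₁ G P)
    (hg : ∃ m : ℝ, P.map G = gaussianReal m (variance X₂ P).toNNReal)
    (g1 g2 : ℝ → ℝ) (hg1 : ConvexOn ℝ (Ioi 0) g1) (hg2 : ConvexOn ℝ (Ioi 0) g2)
    (hp1 : P.map X₁ = dm (hp g1)) (hp2 : P.map X₂ = dm (hp g2))
    (hint : Integrable (fun x : ℝ => Real.negMulLog (((P.map (X₁ + X₂)).rnDeriv volume x).toReal))) :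
    ∫ x : ℝ, Real.negMulLog (((P.map (X₁ + X₂)).rnDeriv volume x).toReal)
      ≤ ∫ x : ℝ, Real.negMulLog (((P.map (X₁ + G)).rnDeriv volume x).toReal) := by
  obtain ⟨m, hm⟩ := hg
  have : IsProbabilityMeasure (dm (hp g1)) := hp1 ▸ Measure.isProbabilityMeasure_map h1.aemeasurable
  have : IsProbabilityMeasure (dm (hp g2)) := hp2 ▸ Measure.isProbabilityMeasure_map h2.aemeasurable
  have hL' : MemLp id 2 (dm (hp g1)) := by
    rw [← hp1, memLp_map_measure_iff (by fun_prop) h1.aemeasurable]; exact hL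
  have hL2' : MemLp id 2 (dm (hp g2)) := by
    rw [← hp2, memLp_map_measure_iff (by fun_prop) h2.aemeasurable]; exact hL2
  have hvar : variance id (dm (hp g2)) = variance X₂ P := by
    rw [← hp2, variance_map (by fun_prop) h2.aemeasurable]; rfl
  have hac : dm (hp g2) ≪ volume := withDensity_absolutelyContinuous _ _
  have hv : (variance X₂ P).toNNReal ≠ 0 := by
    intro h
    have h0 : variance id (dm (hp g2)) = 0 := by
      rw [hvar]; exact le_antisymm (Real.toNNReal_eq_zero.1 h) (variance_nonneg _ _)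
    have h3 := ae_eq_integral_of_variance_eq_zero hL2' h0
    have h4 : ∀ᵐ x ∂(dm (hp g2)), x ≠ ∫ x, id x ∂(dm (hp g2)) :=
      hac.ae_le (by simp [ae_iff, measure_singleton] : ∀ᵐ x : ℝ, x ≠ ∫ x, id x ∂(dm (hp g2)))
    obtain ⟨x, hx1, hx2⟩ := (h3.and h4).exists
    exact hx2 hx1
  rw [hi12.map_add_eq_map_conv_map h1 h2, hp1, hp2] at hint ⊢
  rw [hi1G.map_add_eq_map_conv_map h1 hG, hm, hp1]
  exact cross2 hv hL' hL2' m (Measure.conv_absolutelyContinuous hac) hint
    (heavy_main hg1 hg2 hL' hL2' hv (by rw [hvar, Real.coe_toNNReal _ (variance_nonneg _ _)]))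

end Pool.Agent.Lib.MP_cc278a_pr
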