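import Pool.Agent.Lib.MP_cc278a_pr.Sym

set_option autoImplicit false
open MeasureTheory ProbabilityTheory Real Set Filter Topology
open scoped NNReal ENNReal

namespace Pool.Agent.Lib.MP_cc278a_pr

lemma convex_maj {g : ℝ → ℝ} {s : Set ℝ} (hg : ConvexOn ℝ s g) {a d x y : ℝ} (ha : a ∈ s)
    (hd : d ∈ s) (hax : a ≤ x) (hxd : x ≤ d) (hs : x + y = a + d) : g x + g y ≤ g a + g d := by
  rcases (hax.trans hxd).eq_or_lt with h | h
  · subst h
    have hx : x = a := le_antisymm hxd hax
    have hy : y = a := by linarith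
    rw [hx, hy]
  have hda : 0 < d - a := sub_pos.2 h
  have l0 : 0 ≤ (d - x) / (d - a) := div_nonneg (by linarith) hda.le
  have l1 : 0 ≤ (x - a) / (d - a) := div_nonneg (by linarith) hda.le
  have hsum : (d - x) / (d - a) + (x - a) / (d - a) = 1 := by field_simp; ring
  have h1 := hg.2 ha hd l0 l1 hsum
  have h2 := hg.2 ha hd l1 l0 (by linarith)
  simp only [smul_eq_mul] at h1 h2
  have e1 : (d - x) / (d - a) * a + (x - a) / (d - a) * d = x := by field_simp; ring
  have e2 : (x - a) / (d - a) * a + (d - x) / (d - a) * d = y := by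
    have : y = a + d - x := by linarith
    rw [this]; field_simp; ring
  rw [e1] at h1; rw [e2] at h2
  have e3 : (d - x) / (d - a) * g a + (x - a) / (d - a) * g d
      + ((x - a) / (d - a) * g a + (d - x) / (d - a) * g d) = g a + g d := by
    linear_combination (g a + g d) * hsum
  linarith

lemma odd_convex_mono {g : ℝ → ℝ} {R c : ℝ} (hodd : ∀ x, g (-x) = -g x)
    (hg : ConvexOn ℝ (Icc 0 R) g) (hc : 0 ≤ c) {z1 z2 : ℝ} (h1 : 0 ≤ z1) (h12 : z1 ≤ z2)
    (hR : c + z2 ≤ R) : g (c + z1) + g (c - z1) ≤ g (c + z2) + g (c - z2) := by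
  have A : ∀ z1 z2 : ℝ, 0 ≤ z1 → z1 ≤ z2 → z2 ≤ c → c + z2 ≤ R →
      g (c + z1) + g (c - z1) ≤ g (c + z2) + g (c - z2) := fun z1 z2 h1 h12 h2 hR => by
    have := convex_maj hg (a := c - z2) (d := c + z2) (x := c + z1) (y := c - z1)
      ⟨by linarith, by linarith⟩ ⟨by linarith, by linarith⟩ (by linarith) (by linarith) (by ring)
    linarith
  have B : ∀ z1 z2 : ℝ, c ≤ z1 → z1 ≤ z2 → c + z2 ≤ R →
      g (c + z1) + g (c - z1) ≤ g (c + z2) + g (c - z2) := fun z1 z2 h1 h12 hR => by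
    have := convex_maj hg (a := z1 - c) (d := c + z2) (x := c + z1) (y := z2 - c)
      ⟨by linarith, by linarith⟩ ⟨by linarith, by linarith⟩ (by linarith) (by linarith) (by ring)
    have e1 := hodd (z1 - c)
    have e2 := hodd (z2 - c)
    rw [neg_sub] at e1 e2
    linarith
  rcases le_total z2 c with h | h
  · exact A z1 z2 h1 h12 h hR
  rcases le_total c z1 with h' | h'
  · exact B z1 z2 h' h12 hR
  · exact (A z1 c h1 h' le_rfl (by linarith)).trans (B c z2 le_rfl h hR)

lemma concave_zero_ratio {D : ℝ → ℝ} {R : ℝ} (hD : ConcaveOn ℝ (Icc 0 R) D) (h0 : D 0 = 0)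
    {z1 z2 : ℝ} (h1 : 0 ≤ z1) (h12 : z1 ≤ z2) (hR : z2 ≤ R) : z1 * D z2 ≤ z2 * D z1 := by
  rcases (h1.trans h12).eq_or_lt with h | h
  · have : z1 = 0 := by linarith
    subst h; simp [this]
  have := hD.2 (show (0 : ℝ) ∈ Icc 0 R from ⟨le_rfl, by linarith⟩)
    (show z2 ∈ Icc 0 R from ⟨h.le, hR⟩) (show 0 ≤ (z2 - z1) / z2 from div_nonneg (by linarith) h.le)
    (show 0 ≤ z1 / z2 from div_nonneg h1 h.le) (by field_simp; ring)
  simp only [smul_eq_mul, h0, mul_zero, zero_add] at this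
  rw [div_mul_cancel₀ _ h.ne', div_mul_eq_mul_div, div_le_iff₀ h] at this
  linarith

lemma ghs_cross {W g : ℝ → ℝ} {c l z1 z2 : ℝ} (hodd : ∀ x, g (-x) = -g x)
    (hW : ∀ x, |x| ≤ c + z2 → HasDerivAt W (g x) x)
    (hg : ConvexOn ℝ (Icc 0 (c + z2)) g) (hc : 0 ≤ c) (h1 : 0 ≤ z1) (h12 : z1 ≤ z2)
    (hneg : W (c - z1) - W (c + z1) + l * z1 < 0) : W (c - z2) - W (c + z2) + l * z2 ≤ 0 := by
  have hd : ∀ z ∈ Icc 0 z2, HasDerivAt (fun z => W (c - z) - W (c + z) + l * z)
      (-g (c - z) - g (c + z) + l) z := fun z hz => by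
    have a1 : HasDerivAt (fun z => W (c - z)) (-g (c - z)) z :=
      (hW (c - z) (by rw [abs_le]; constructor <;> linarith [hz.1, hz.2])).comp_const_sub c z
    have a2 : HasDerivAt (fun z => W (c + z)) (g (c + z)) z :=
      (hW (c + z) (by rw [abs_le]; constructor <;> linarith [hz.1, hz.2])).comp_const_add c z
    have a3 : HasDerivAt (fun z => l * z) l z := by simpa using (hasDerivAt_id z).const_mul l
    exact (a1.sub a2).add a3
  have hconc : ConcaveOn ℝ (Icc 0 z2) (fun z => W (c - z) - W (c + z) + l * z) := by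
    refine AntitoneOn.concaveOn_of_deriv (convex_Icc 0 z2)
      (fun z hz => (hd z hz).continuousAt.continuousWithinAt)
      (fun z hz => (hd z (interior_subset hz)).differentiableAt.differentiableWithinAt) ?_
    intro x hx y hy hxy
    have hx' := interior_subset hx
    have hy' := interior_subset hy
    rw [(hd x hx').deriv, (hd y hy').deriv]
    have := odd_convex_mono hodd hg hc hx'.1 hxy (by linarith [hy'.2])
    linarith
  have := concave_zero_ratio hconc (by simp) h1 h12 le_rfl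
  rcases h1.eq_or_lt with h | h
  · subst h; simp at hneg
  · by_contra hcon
    have a := mul_pos h (not_le.1 hcon)
    have b := mul_nonpos_of_nonneg_of_nonpos (h1.trans h12) hneg.le
    linarith

lemma quasi_concave {W g : ℝ → ℝ} {l t1 t2 t3 : ℝ} (hg0 : g 0 = 0)
    (hW : ∀ x, |x| ≤ t3 → HasDerivAt W (g x) x)
    (hg : ConvexOn ℝ (Icc 0 t3) g) (h1 : 0 ≤ t1) (h12 : t1 ≤ t2) (h23 : t2 ≤ t3) :
    min (-W t1 + l * t1 ^ 2) (-W t3 + l * t3 ^ 2) ≤ -W t2 + l * t2 ^ 2 := by
  by_contra hcon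
  rw [not_le, lt_min_iff] at hcon
  have h12' : t1 < t2 := lt_of_le_of_ne h12 (by rintro rfl; exact lt_irrefl _ hcon.1)
  have h23' : t2 < t3 := lt_of_le_of_ne h23 (by rintro rfl; exact lt_irrefl _ hcon.2)
  have hd : ∀ x ∈ Icc 0 t3, HasDerivAt (fun x => -W x + l * x ^ 2) (-g x + l * (2 * x)) x :=
    fun x hx => by
      have a1 := (hW x (by rw [abs_of_nonneg hx.1]; exact hx.2)).neg
      have a2 : HasDerivAt (fun x : ℝ => l * x ^ 2) (l * (2 * x)) x := by
        simpa using (hasDerivAt_pow 2 x).const_mul l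
      exact a1.add a2
  obtain ⟨x1, hx1, e1⟩ := exists_hasDerivAt_eq_slope (fun x => -W x + l * x ^ 2)
    (fun x => -g x + l * (2 * x)) h12'
    (fun x hx => (hd x ⟨by linarith [hx.1], by linarith [hx.2]⟩).continuousAt.continuousWithinAt)
    (fun x hx => hd x ⟨by linarith [hx.1], by linarith [hx.2]⟩)
  obtain ⟨x2, hx2, e2⟩ := exists_hasDerivAt_eq_slope (fun x => -W x + l * x ^ 2)
    (fun x => -g x + l * (2 * x)) h23'
    (fun x hx => (hd x ⟨by linarith [hx.1], by linarith [hx.2]⟩).continuousAt.continuousWithinAt)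
    (fun x hx => hd x ⟨by linarith [hx.1], by linarith [hx.2]⟩)
  have n1 : -g x1 + l * (2 * x1) < 0 := by
    rw [e1]; exact div_neg_of_neg_of_pos (by linarith [hcon.1]) (by linarith)
  have n2 : 0 < -g x2 + l * (2 * x2) := by
    rw [e2]; exact div_pos (by linarith [hcon.2]) (by linarith)
  have hx10 : 0 < x1 := by linarith [hx1.1]
  have hx12 : x1 ≤ x2 := by linarith [hx1.2, hx2.1]
  have := concave_zero_ratio hg.neg (by simp [hg0]) hx10.le hx12 hx2.2.le
  simp only [Pi.neg_apply] at this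
  have a := mul_pos hx10 n2
  have b := mul_neg_of_pos_of_neg (hx10.trans_le hx12) n1
  nlinarith

lemma exp_sign {e : ℝ} (he : e = 1 ∨ e = -1) (A B : ℝ) :
    (e * (Real.exp A - Real.exp B) < 0 ↔ e * (A - B) < 0) ∧
    (0 < e * (Real.exp A - Real.exp B) ↔ 0 < e * (A - B)) := by
  rcases he with rfl | rfl
  · simp
  · simp

/-- The density of the potential `V` on `I`. -/
noncomputable def pd (I : Set ℝ) (V : ℝ → ℝ) : ℝ → ℝ := I.indicator fun x => Real.exp (-V x)

lemma pd_nonneg (I : Set ℝ) (V : ℝ → ℝ) (x : ℝ) : 0 ≤ pd I V x :=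
  indicator_nonneg (fun _ _ => (Real.exp_pos _).le) x

lemma pd_measurable {I : Set ℝ} {V : ℝ → ℝ} (hI : IsOpen I) (hV : ContinuousOn V I) :
    Measurable (pd I V) := by
  classical
  have : pd I V = I.piecewise (fun x => Real.exp (-V x)) (fun _ => 0) := by
    ext x; simp [pd, indicator, piecewise]
  rw [this]
  exact ContinuousOn.measurable_piecewise (by fun_prop) continuousOn_const hI.measurableSet

lemma dm_pd {I : Set ℝ} (V : ℝ → ℝ) (hI : IsOpen I) :
    (volume.restrict I).withDensity (fun x => ENNReal.ofReal (Real.exp (-V x))) = dm (pd I V) := by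
  unfold dm
  rw [← withDensity_indicator hI.measurableSet]
  congr 1; ext x
  by_cases hx : x ∈ I <;> simp [pd, hx]

/-- Passing from random variables to the law. -/
theorem of_law (Ω : Type) [MeasurableSpace Ω] (P : Measure Ω) [IsProbabilityMeasure P]
    (X₁ X₂ G : Ω → ℝ) (h1 : Measurable X₁) (h2 : Measurable X₂) (hG : Measurable G)
    (hL : MemLp X₁ 2 P) (hid : IdentDistrib X₁ X₂ P P) (hi12 : IndepFun X₁ X₂ P)
    (hi1G : IndepFun X₁ G P)
    (hg : ∃ m : ℝ, P.map G = gaussianReal m (variance X₁ P).toNNReal)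
    (hint : Integrable (fun x : ℝ => Real.negMulLog (((P.map (X₁ + X₂)).rnDeriv volume x).toReal)))
    (p : ℝ → ℝ) (hp : P.map X₁ = dm p)
    (H : ∀ [IsProbabilityMeasure (dm p)], MemLp id 2 (dm p) → ∀ v : ℝ≥0, v ≠ 0 →
      variance id (dm p) = v → ∃ c : ℝ,
      ∫ t, ∫ x, L0 (dm p) v (t + x) ∂(dm p) ∂(gaussianReal 0 v)
        ≤ ∫ t, ∫ x, L0 (dm p) v ((t - c) + x) ∂(dm p) ∂(dm p)) :
    ∫ x : ℝ, Real.negMulLog (((P.map (X₁ + X₂)).rnDeriv volume x).toReal)
      ≤ ∫ x : ℝ, Real.negMulLog (((P.map (X₁ + G)).rnDeriv volume x).toReal) := by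
  obtain ⟨m, hm⟩ := hg
  have : IsProbabilityMeasure (dm p) := hp ▸ Measure.isProbabilityMeasure_map h1.aemeasurable
  have hL' : MemLp id 2 (dm p) := by
    rw [← hp, memLp_map_measure_iff (by fun_prop) h1.aemeasurable]; exact hL
  have hvar : variance id (dm p) = variance X₁ P := by
    rw [← hp, variance_map (by fun_prop) h1.aemeasurable]; rfl
  have hac : dm p ≪ volume := withDensity_absolutelyContinuous _ _
  have hv : (variance X₁ P).toNNReal ≠ 0 := by
    intro h
    have h0 : variance id (dm p) = 0 := by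
      rw [hvar]; exact le_antisymm (Real.toNNReal_eq_zero.1 h) (variance_nonneg _ _)
    have h3 := ae_eq_integral_of_variance_eq_zero hL' h0
    have h4 : ∀ᵐ x ∂(dm p), x ≠ ∫ x, id x ∂(dm p) :=
      hac.ae_le (by simp [ae_iff, measure_singleton] : ∀ᵐ x : ℝ, x ≠ ∫ x, id x ∂(dm p))
    obtain ⟨x, hx1, hx2⟩ := (h3.and h4).exists
    exact hx2 hx1
  rw [hi12.map_add_eq_map_conv_map h1 h2, ← hid.map_eq, hp] at hint ⊢
  rw [hi1G.map_add_eq_map_conv_map h1 hG, hm, hp]
  obtain ⟨c, hc⟩ := H hL' _ hv (by rw [hvar, Real.coe_toNNReal _ (variance_nonneg _ _)])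
  exact cross hv hL' c m (Measure.conv_absolutelyContinuous hac) hint hc

theorem sym_pot {I : Set ℝ} {V : ℝ → ℝ} (hI : IsOpen I) (hsym : ∀ x ∈ I, -x ∈ I)
    (hVe : ∀ x, V (-x) = V x) (hVd : DifferentiableOn ℝ V I) (hVc : ConvexOn ℝ I V)
    (e : ℝ) (he : e = 1 ∨ (e = -1 ∧ I = univ))
    (hg : ConvexOn ℝ (I ∩ Ici 0) (fun x => e * deriv V x))
    [IsProbabilityMeasure (dm (pd I V))] (h2 : MemLp id 2 (dm (pd I V))) (v : ℝ≥0) (hv : v ≠ 0)
    (hvar : variance id (dm (pd I V)) = v) :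
    ∫ t, ∫ x, L0 (dm (pd I V)) v (t + x) ∂(dm (pd I V)) ∂(gaussianReal 0 v)
      ≤ ∫ t, ∫ x, L0 (dm (pd I V)) v ((t - 0) + x) ∂(dm (pd I V)) ∂(dm (pd I V)) := by
  have hv' : (0 : ℝ) < v := by positivity
  have he' : e = 1 ∨ e = -1 := he.imp id And.left
  have hm := pd_measurable hI hVd.continuousOn
  have h0 := pd_nonneg I V
  have hin : ∀ x ∈ I, pd I V x = Real.exp (-V x) := fun x hx => indicator_of_mem hx _
  have hout : ∀ x ∉ I, pd I V x = 0 := fun x hx => indicator_of_notMem hx _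
  have habs : ∀ R ∈ I, ∀ x, |x| ≤ R → x ∈ I := fun R hR x hx =>
    hVc.1.ordConnected.out (hsym R hR) hR (abs_le.1 hx)
  have hpe : ∀ x, pd I V (-x) = pd I V x := fun x => by
    by_cases hx : x ∈ I
    · rw [hin x hx, hin _ (hsym x hx), hVe]
    · rw [hout x hx, hout _ (fun h => hx (by simpa using hsym _ h))]
  have hodd : ∀ x, e * deriv V (-x) = -(e * deriv V x) := fun x => by
    have h1 : deriv (fun x => V (-x)) x = -deriv V (-x) := deriv_comp_neg V x
    simp only [hVe] at h1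
    have h3 : deriv V x = -deriv V (-x) := h1
    rw [h3]; ring
  have hW : ∀ R ∈ I, ∀ x, |x| ≤ R → HasDerivAt (fun x => e * V x) (e * deriv V x) x :=
    fun R hR x hx =>
      ((hVd.differentiableAt (hI.mem_nhds (habs R hR x hx))).hasDerivAt).const_mul e
  have hgc : ∀ R ∈ I, ConvexOn ℝ (Icc 0 R) (fun x => e * deriv V x) := fun R hR =>
    hg.subset (fun x hx => ⟨habs R hR x (by rw [abs_of_nonneg hx.1]; exact hx.2), hx.1⟩)
      (convex_Icc 0 R)
  refine sym_main hm h0 hpe ?_ h2 hv ?_ e (by rcases he' with rfl | rfl <;> simp) ?_ ?_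
  · intro x hx y hy hxy
    by_cases hyI : y ∈ I
    · have hxI := habs y hyI x (by rw [abs_of_nonneg hx]; exact hxy)
      rw [hin x hxI, hin y hyI]
      apply Real.exp_le_exp.2
      have := convex_maj hVc (a := -y) (d := y) (x := x) (y := -x) (hsym y hyI) hyI
        (by linarith [mem_Ici.1 hx, mem_Ici.1 hy]) hxy (by ring)
      rw [hVe, hVe] at this
      linarith
    · rw [hout y hyI]; exact h0 x
  · have hmean : ∫ x, id x ∂(dm (pd I V)) = 0 := by
      have := integral_dm_neg hm h0 hpe id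
      simp only [id] at this
      rw [integral_neg] at this
      simp only [id]
      linarith
    rw [variance_eq_integral aemeasurable_id, hmean] at hvar
    simpa using hvar
  · intro y c z1 z2 hc hz1 hz12 hneg
    by_cases hR : c + z2 ∈ I
    · have key : ∀ z, 0 ≤ z → z ≤ z2 →
          ∃ A B, pd I V (c + z) * gw v (c + z - y) - pd I V (c - z) * gw v (c - z - y)
            = Real.exp A - Real.exp B ∧
            e * (A - B) = e * V (c - z) - e * V (c + z) + (-(e * 2 * (c - y) / v)) * z := by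
        intro z hz hz2
        refine ⟨-V (c + z) + -((c + z - y) ^ 2) / (2 * v),
          -V (c - z) + -((c - z - y) ^ 2) / (2 * v), ?_, ?_⟩
        · rw [hin _ (habs _ hR _ (by rw [abs_le]; constructor <;> linarith)),
            hin _ (habs _ hR _ (by rw [abs_le]; constructor <;> linarith)),
            Real.exp_add, Real.exp_add]
          rfl
        · field_simp; ring
      obtain ⟨A1, B1, a1, b1⟩ := key z1 hz1 hz12
      obtain ⟨A2, B2, a2, b2⟩ := key z2 (hz1.trans hz12) le_rfl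
      rw [a1, (exp_sign he' A1 B1).1, b1] at hneg
      rw [a2, ← not_lt, (exp_sign he' A2 B2).2, b2, not_lt]
      exact ghs_cross (W := fun x => e * V x) hodd (hW _ hR) (hgc _ hR) hc hz1 hz12 hneg
    · rcases he with rfl | ⟨-, rfl⟩
      · rw [hout _ hR]
        have := mul_nonneg (h0 (c - z2)) (gw_pos v (c - z2 - y)).le
        linarith
      · exact absurd (mem_univ _) hR
  · intro t1 t2 t3 h1 h12 h23 p1 p3
    have hR : t3 ∈ I := by
      by_contra hR
      rcases he with rfl | ⟨-, rfl⟩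
      · rw [hout _ hR] at p3
        have := mul_pos (kap_pos hv') (gw_pos v t3)
        linarith
      · exact hR (mem_univ _)
    have key : ∀ t, 0 ≤ t → t ≤ t3 → ∃ A B, pd I V t - kap v * gw v t = Real.exp A - Real.exp B ∧
        e * (A - B) = (-(e * V t) + e / (2 * v) * t ^ 2) - e * Real.log (kap v) := by
      intro t ht ht3
      refine ⟨-V t, Real.log (kap v) + -(t ^ 2) / (2 * v), ?_, ?_⟩
      · rw [hin _ (habs _ hR _ (by rw [abs_of_nonneg ht]; exact ht3)), Real.exp_add,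
          Real.exp_log (kap_pos hv')]
        rfl
      · field_simp; ring
    obtain ⟨A1, B1, a1, b1⟩ := key t1 h1 (h12.trans h23)
    obtain ⟨A2, B2, a2, b2⟩ := key t2 (h1.trans h12) h23
    obtain ⟨A3, B3, a3, b3⟩ := key t3 (h1.trans (h12.trans h23)) le_rfl
    rw [a1, (exp_sign he' A1 B1).2, b1] at p1
    rw [a3, (exp_sign he' A3 B3).2, b3] at p3
    rw [a2, ← not_lt, (exp_sign he' A2 B2).1, b2, not_lt]
    have hg0 : e * deriv V 0 = 0 := by have := hodd 0; simp only [neg_zero] at this; linarith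
    have := quasi_concave (W := fun x => e * V x) (l := e / (2 * v)) hg0 (hW _ hR) (hgc _ hR)
      h1 h12 h23
    rcases min_le_iff.1 this with h | h <;> linarith

end Pool.Agent.Lib.MP_cc278a_pr
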