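import Pool.Agent.Lib.MP_cc278a_pr.Cross

set_option autoImplicit false
open MeasureTheory ProbabilityTheory Real Set Filter Topology
open scoped NNReal ENNReal

namespace Pool.Agent.Lib.MP_cc278a_pr

lemma int_sq {μ : Measure ℝ} (h : MemLp id 2 μ) : Integrable (fun x : ℝ => x ^ 2) μ := by
  simpa using h.integrable_sq

lemma int_id {μ : Measure ℝ} [IsFiniteMeasure μ] (h : MemLp id 2 μ) :
    Integrable (fun x : ℝ => x) μ := h.integrable (by norm_num)

lemma memLp_of_sq {μ : Measure ℝ} (h : Integrable (fun x : ℝ => x ^ 2) μ) : MemLp id 2 μ :=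
  (memLp_two_iff_integrable_sq (by fun_prop)).2 h

lemma memLp_right_of_conv {a b : Measure ℝ} [IsProbabilityMeasure a] [IsProbabilityMeasure b]
    (h : MemLp id 2 (a ∗ b)) : MemLp id 2 b := by
  have h1 := int_sq h
  rw [integrable_conv_iff (by fun_prop)] at h1
  obtain ⟨x, hx⟩ := h1.1.exists
  have h2 : MemLp (fun y : ℝ => x + y) 2 b := (memLp_two_iff_integrable_sq (by fun_prop)).2 hx
  have h3 := h2.sub (memLp_const x)
  refine h3.ae_eq (Eventually.of_forall fun y => ?_)
  simp

lemma memLp_left_of_conv {a b : Measure ℝ} [IsProbabilityMeasure a] [IsProbabilityMeasure b]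
    (h : MemLp id 2 (a ∗ b)) : MemLp id 2 a := by
  rw [Measure.conv_comm] at h
  exact memLp_right_of_conv h

lemma integral_add_sq {b : Measure ℝ} [IsProbabilityMeasure b] (hb : MemLp id 2 b) (x : ℝ) :
    ∫ y, (x + y) ^ 2 ∂b = x ^ 2 + 2 * x * (∫ y, y ∂b) + ∫ y, y ^ 2 ∂b := by
  have h1 : Integrable (fun y : ℝ => 2 * x * y) b := (int_id hb).const_mul _
  have h2 : Integrable (fun y : ℝ => x ^ 2 + 2 * x * y) b := (integrable_const _).add h1
  have : ∀ y : ℝ, (x + y) ^ 2 = x ^ 2 + 2 * x * y + y ^ 2 := fun y => by ring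
  simp_rw [this]
  rw [integral_add h2 (int_sq hb), integral_add (integrable_const _) h1, integral_const_mul]
  simp

lemma sq_conv {a b : Measure ℝ} [IsProbabilityMeasure a] [IsProbabilityMeasure b]
    (ha : MemLp id 2 a) (hb : MemLp id 2 b) (h0 : ∫ x, x ∂a = 0) :
    ∫ x, x ^ 2 ∂(a ∗ b) = (∫ x, x ^ 2 ∂a) + ∫ y, y ^ 2 ∂b := by
  rw [integral_conv (int_sq (memLp_conv ha hb))]
  simp_rw [integral_add_sq hb]
  have h1 : Integrable (fun x : ℝ => 2 * x * ∫ y, y ∂b) a :=
    ((int_id ha).const_mul _).mul_const _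
  have h2 : Integrable (fun x : ℝ => x ^ 2 + 2 * x * ∫ y, y ∂b) a := (int_sq ha).add h1
  rw [integral_add h2 (integrable_const _), integral_add (int_sq ha) h1, integral_mul_const,
    integral_const_mul, h0]
  simp

lemma memLp_map_mul {a : Measure ℝ} (ha : MemLp id 2 a) (c : ℝ) :
    MemLp id 2 (a.map (fun x => c * x)) := by
  rw [memLp_map_measure_iff (by fun_prop) (by fun_prop)]
  exact ha.const_mul c

lemma norm_one_sub_charFun_le {ρ : Measure ℝ} [IsProbabilityMeasure ρ] (h : MemLp id 2 ρ)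
    (w : ℝ) : ‖1 - charFun ρ w‖ ≤ 1 / 4 + w ^ 2 * ∫ y, y ^ 2 ∂ρ := by
  have hi : Integrable (fun x : ℝ => Complex.exp (w * x * Complex.I)) ρ := by
    refine Integrable.of_bound (by fun_prop) 1 (Eventually.of_forall fun x => ?_)
    rw [← Complex.ofReal_mul, Complex.norm_exp_ofReal_mul_I]
  have h1 : 1 - charFun ρ w = ∫ x : ℝ, (1 - Complex.exp (w * x * Complex.I)) ∂ρ := by
    rw [integral_sub (integrable_const _) hi, charFun_apply_real]
    simp
  have hb : Integrable (fun x : ℝ => 1 / 4 + w ^ 2 * x ^ 2) ρ :=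
    (integrable_const _).add ((int_sq h).const_mul _)
  rw [h1]
  refine (norm_integral_le_of_norm_le hb (Eventually.of_forall fun x => ?_)).trans ?_
  · rw [norm_sub_rev, ← Complex.ofReal_mul, mul_comm]
    refine (Real.norm_exp_I_mul_ofReal_sub_one_le).trans ?_
    rw [Real.norm_eq_abs, ← mul_pow, ← sq_abs]
    nlinarith [sq_nonneg (|w * x| - 1 / 2)]
  · rw [integral_add (integrable_const _) ((int_sq h).const_mul _), integral_const_mul]
    simp

/-- Self-decomposability. -/
def SD (μ : Measure ℝ) : Prop :=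
  ∀ c : ℝ, 0 < c → c < 1 → ∃ ρ : Measure ℝ, IsProbabilityMeasure ρ ∧
    μ = (μ.map (fun x => c * x)) ∗ ρ

lemma SD.charFun_ne {μ : Measure ℝ} [IsProbabilityMeasure μ] (hs : SD μ) (h2 : MemLp id 2 μ)
    (h0 : ∫ x, x ∂μ = 0) (w : ℝ) : charFun μ w ≠ 0 := by
  intro hw
  set v := ∫ x, x ^ 2 ∂μ with hv
  have hv0 : 0 ≤ v := integral_nonneg fun x => sq_nonneg x
  have hK : 0 < 1 + w ^ 2 * v := by positivity
  set d := 1 / (4 * (1 + w ^ 2 * v)) with hd
  have hd0 : 0 < d := by positivity
  have hd1 : d ≤ 1 / 4 := by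
    rw [hd]
    apply one_div_le_one_div_of_le (by norm_num)
    nlinarith [mul_nonneg (sq_nonneg w) hv0]
  obtain ⟨ρ, hρ, he⟩ := hs (1 - d) (by linarith) (by linarith)
  have hp : IsProbabilityMeasure (μ.map (fun x => (1 - d) * x)) :=
    Measure.isProbabilityMeasure_map (by fun_prop)
  have hρ2 : MemLp id 2 ρ := memLp_right_of_conv (a := μ.map (fun x => (1 - d) * x)) (he ▸ h2)
  have hsq : ∫ y, y ^ 2 ∂ρ = (1 - (1 - d) ^ 2) * v := by
    have h3 := sq_conv (memLp_map_mul h2 (1 - d)) hρ2 (by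
      rw [integral_map (by fun_prop) (by fun_prop), integral_const_mul, h0, mul_zero])
    rw [← he, integral_map (by fun_prop) (by fun_prop)] at h3
    simp_rw [mul_pow] at h3
    rw [integral_const_mul, ← hv] at h3
    linarith
  have hall : ∀ j : ℕ, charFun μ ((1 - d) ^ j * w) = 0 := by
    intro j
    induction j with
    | zero => simpa using hw
    | succ j ih =>
      have h3 : charFun μ ((1 - d) ^ j * w)
          = charFun μ ((1 - d) ^ (j + 1) * w) * charFun ρ ((1 - d) ^ j * w) := by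
        conv_lhs => rw [he, charFun_conv, charFun_map_mul]
        congr 2
        ring
      rw [ih] at h3
      rcases mul_eq_zero.1 h3.symm with h | h
      · exact h
      · exfalso
        have h4 := norm_one_sub_charFun_le hρ2 ((1 - d) ^ j * w)
        rw [h, hsq, sub_zero, norm_one] at h4
        have h5 : ((1 - d) ^ j) ^ 2 ≤ 1 :=
          pow_le_one₀ (pow_nonneg (by linarith) _) (pow_le_one₀ (by linarith) (by linarith))
        have h6 : ((1 - d) ^ j * w) ^ 2 * ((1 - (1 - d) ^ 2) * v) ≤ 2 * d * (w ^ 2 * v) := by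
          have h7 : (1 - (1 - d) ^ 2) ≤ 2 * d := by nlinarith
          have h8 : 0 ≤ (1 - (1 - d) ^ 2) := by nlinarith
          calc ((1 - d) ^ j * w) ^ 2 * ((1 - (1 - d) ^ 2) * v)
              = ((1 - d) ^ j) ^ 2 * (1 - (1 - d) ^ 2) * (w ^ 2 * v) := by ring
            _ ≤ 1 * (2 * d) * (w ^ 2 * v) := by gcongr
            _ = _ := by ring
        have h9 : d * (1 + w ^ 2 * v) = 1 / 4 := by rw [hd]; field_simp
        nlinarith
  have hlim : Tendsto (fun j : ℕ => (1 - d) ^ j * w) atTop (𝓝 0) := by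
    have := (tendsto_pow_atTop_nhds_zero_of_lt_one (r := 1 - d) (by linarith)
      (by linarith)).mul_const w
    simpa using this
  have h3 := ((continuous_charFun (μ := μ)).tendsto 0).comp hlim
  have h4 : (charFun μ ∘ fun j : ℕ => (1 - d) ^ j * w) = fun _ => 0 := funext hall
  rw [h4] at h3
  have h5 := tendsto_nhds_unique h3 tendsto_const_nhds
  simp at h5

lemma hasDerivAt_charFun {μ : Measure ℝ} [IsProbabilityMeasure μ] (h2 : MemLp id 2 μ) (w : ℝ) :
    HasDerivAt (charFun μ)
      (Complex.I * ∫ x : ℝ, (x : ℂ) * Complex.exp (w * x * Complex.I) ∂μ) w := by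
  have h1 : MemLp id (1 : ℕ) μ := h2.mono_exponent (by norm_num)
  have h3 := (contDiff_charFun h1).differentiable (by norm_num) w
  have h4 := iteratedDeriv_charFun (t := w) h1
  rw [iteratedDeriv_one] at h4
  have := h3.hasDerivAt
  rw [h4] at this
  simpa using this

lemma hasDerivAt_deriv_charFun {μ : Measure ℝ} [IsProbabilityMeasure μ] (h2 : MemLp id 2 μ) :
    HasDerivAt (deriv (charFun μ)) (-((∫ x, x ^ 2 ∂μ : ℝ) : ℂ)) 0 := by
  have h1 : MemLp id (2 : ℕ) μ := by simpa using h2
  have h3 : ContDiff ℝ (1 + 1 : ℕ) (charFun μ) := contDiff_charFun h1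
  have h4 := iteratedDeriv_charFun_zero h1
  have h5 : Differentiable ℝ (deriv (charFun μ)) := by
    have : ContDiff ℝ ((1 : WithTop ℕ∞) + 1) (charFun μ) := by exact_mod_cast h3
    exact (contDiff_succ_iff_deriv.1 this).2.2.differentiable (by norm_num)
  have h6 := (h5 0).hasDerivAt
  rw [show (2 : ℕ) = 1 + 1 from rfl, iteratedDeriv_succ, iteratedDeriv_one] at h4
  rw [h4] at h6
  refine h6.congr_deriv ?_
  have : Complex.I ^ (1 + 1) = -1 := by rw [pow_succ, pow_one, Complex.I_mul_I]
  rw [this]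
  simp

lemma continuous_deriv_charFun {μ : Measure ℝ} [IsProbabilityMeasure μ] (h2 : MemLp id 2 μ) :
    Continuous (deriv (charFun μ)) := by
  have h1 : MemLp id (1 : ℕ) μ := h2.mono_exponent (by norm_num)
  exact (contDiff_charFun h1).continuous_deriv (by norm_num)

/-- Moments from the exponent. -/
lemma moments_of_exp {m : Measure ℝ} [IsProbabilityMeasure m] (h2 : MemLp id 2 m)
    {F F' : ℝ → ℂ} {s : ℝ} (hF : ∀ w, HasDerivAt F (F' w) w) (hF0 : F 0 = 0) (hF1 : F' 0 = 0)
    (hF2 : HasDerivAt F' (-(s : ℂ)) 0) (he : ∀ w, charFun m w = Complex.exp (F w)) :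
    ∫ x, x ∂m = 0 ∧ ∫ x, x ^ 2 ∂m = s := by
  have hf : charFun m = fun w => Complex.exp (F w) := funext he
  have hd : ∀ w, HasDerivAt (charFun m) (Complex.exp (F w) * F' w) w := fun w => by
    rw [hf]; exact (hF w).cexp
  constructor
  · have h1 := (hasDerivAt_charFun h2 0).unique (hd 0)
    simp only [hF1, mul_zero, mul_eq_zero, Complex.I_ne_zero, false_or] at h1
    simp only [Complex.ofReal_zero, zero_mul, Complex.exp_zero, mul_one] at h1
    rw [integral_complex_ofReal] at h1
    exact_mod_cast h1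
  · have h1 : deriv (charFun m) = fun w => Complex.exp (F w) * F' w :=
      funext fun w => (hd w).deriv
    have h3 := hasDerivAt_deriv_charFun h2
    rw [h1] at h3
    have h4 := h3.unique ((hF 0).cexp.mul hF2)
    simp only [hF0, hF1, Complex.exp_zero, mul_zero, one_mul, zero_add, neg_inj] at h4
    exact_mod_cast h4

/-- The exponent. -/
lemma exists_exponent {μ : Measure ℝ} [IsProbabilityMeasure μ] (h2 : MemLp id 2 μ)
    (h0 : ∫ x, x ∂μ = 0) (hne : ∀ w, charFun μ w ≠ 0) :
    ∃ P L : ℝ → ℂ, Continuous L ∧ (∀ w, HasDerivAt P (L w) w) ∧ P 0 = 0 ∧ L 0 = 0 ∧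
      HasDerivAt L (-((∫ x, x ^ 2 ∂μ : ℝ) : ℂ)) 0 ∧ ∀ w, charFun μ w = Complex.exp (P w) := by
  set L : ℝ → ℂ := fun w => deriv (charFun μ) w / charFun μ w with hL
  have hc : Continuous L := (continuous_deriv_charFun h2).div continuous_charFun hne
  have hd : ∀ w, HasDerivAt (charFun μ) (deriv (charFun μ) w) w := fun w =>
    (hasDerivAt_charFun h2 w).differentiableAt.hasDerivAt
  have hd0 : deriv (charFun μ) 0 = 0 := by
    rw [(hasDerivAt_charFun h2 0).deriv]
    simp only [Complex.ofReal_zero, zero_mul, Complex.exp_zero, mul_one]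
    rw [integral_complex_ofReal, h0]
    simp
  have hP : ∀ w, HasDerivAt (fun w => ∫ t in (0 : ℝ)..w, L t) (L w) w := fun w =>
    intervalIntegral.integral_hasDerivAt_right (hc.intervalIntegrable _ _)
      (hc.stronglyMeasurableAtFilter _ _) hc.continuousAt
  refine ⟨fun w => ∫ t in (0 : ℝ)..w, L t, L, hc, hP, by simp, by simp [hL, hd0], ?_, ?_⟩
  · have := (hasDerivAt_deriv_charFun h2).div (hd 0) (hne 0)
    refine HasDerivAt.congr_deriv this ?_
    simp [hd0]
  · have h3 : ∀ w, HasDerivAt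
        (fun w => charFun μ w * Complex.exp (-(∫ t in (0 : ℝ)..w, L t))) 0 w := fun w => by
      have := (hd w).mul (hP w).neg.cexp
      refine HasDerivAt.congr_deriv this ?_
      simp only [hL, Pi.neg_apply]
      field_simp [hne w]
      ring
    intro w
    have h4 := is_const_of_deriv_eq_zero (fun w => (h3 w).differentiableAt)
      (fun w => (h3 w).deriv) w 0
    simp only [charFun_zero, probReal_univ, Complex.ofReal_one, intervalIntegral.integral_same,
      neg_zero, Complex.exp_zero, mul_one] at h4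
    rw [Complex.exp_neg] at h4
    have h5 := Complex.exp_ne_zero (∫ t in (0 : ℝ)..w, L t)
    field_simp at h4
    exact h4

end Pool.Agent.Lib.MP_cc278a_pr
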