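import Pool.Agent.Lib.MP_cc278a_pr.SD1

set_option autoImplicit false
open MeasureTheory ProbabilityTheory Real Set Filter Topology
open scoped NNReal ENNReal

namespace Pool.Agent.Lib.MP_cc278a_pr

/-- Being a characteristic function. -/
def IsCF (f : ℝ → ℂ) : Prop :=
  ∃ m : Measure ℝ, IsProbabilityMeasure m ∧ ∀ w, charFun m w = f w

lemma IsCF.one : IsCF (fun _ => 1) :=
  ⟨Measure.dirac 0, inferInstance, fun w => by simp [charFun_dirac]⟩

lemma IsCF.mul {f g : ℝ → ℂ} (hf : IsCF f) (hg : IsCF g) : IsCF (fun w => f w * g w) := by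
  obtain ⟨a, ha, h1⟩ := hf
  obtain ⟨b, hb, h2⟩ := hg
  exact ⟨a ∗ b, inferInstance, fun w => by rw [charFun_conv, h1, h2]⟩

lemma IsCF.scale {f : ℝ → ℂ} (hf : IsCF f) (c : ℝ) : IsCF (fun w => f (c * w)) := by
  obtain ⟨a, ha, h1⟩ := hf
  exact ⟨a.map (fun x => c * x), Measure.isProbabilityMeasure_map (by fun_prop),
    fun w => by rw [charFun_map_mul, h1]⟩

lemma IsCF.norm_le {f : ℝ → ℂ} (hf : IsCF f) (w : ℝ) : ‖f w‖ ≤ 1 := by
  obtain ⟨a, ha, h1⟩ := hf
  rw [← h1]
  exact norm_charFun_le_one w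

lemma integrable_cexp (m : Measure ℝ) [IsFiniteMeasure m] (w : ℝ) :
    Integrable (fun x : ℝ => Complex.exp (w * x * Complex.I)) m := by
  refine Integrable.of_bound (by fun_prop) 1 (Eventually.of_forall fun x => ?_)
  rw [← Complex.ofReal_mul, Complex.norm_exp_ofReal_mul_I]

lemma IsCF.mix {f : ℝ → ℂ} (hf : IsCF f) {s : ℝ} (h0 : 0 ≤ s) (h1 : s ≤ 1) :
    IsCF (fun w => s * f w + (1 - s)) := by
  obtain ⟨a, ha, h2⟩ := hf
  refine ⟨ENNReal.ofReal s • a + ENNReal.ofReal (1 - s) • Measure.dirac 0, ⟨?_⟩, fun w => ?_⟩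
  · simp only [Measure.coe_add, Measure.coe_smul, Pi.add_apply, Pi.smul_apply, measure_univ,
      smul_eq_mul, mul_one]
    rw [← ENNReal.ofReal_add h0 (by linarith)]
    simp
  · simp only
    rw [← h2, charFun_apply_real, charFun_apply_real,
      integral_add_measure ((integrable_cexp a w).smul_measure (by simp))
        ((integrable_cexp _ w).smul_measure (by simp)),
      integral_smul_measure, integral_smul_measure, integral_dirac,
      ENNReal.toReal_ofReal h0, ENNReal.toReal_ofReal (by linarith)]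
    simp

lemma IsCF.lim {F : ℕ → ℝ → ℂ} {f : ℝ → ℂ} (hF : ∀ n, IsCF (F n)) (hf : ContinuousAt f 0)
    (h : ∀ w, Tendsto (fun n => F n w) atTop (𝓝 (f w))) : IsCF f := by
  choose m hm h1 using hF
  have ht : IsTightMeasureSet (Set.range m) :=
    isTightMeasureSet_of_tendsto_charFun hf fun w => by simpa [h1] using h w
  let M : ℕ → ProbabilityMeasure ℝ := fun n => ⟨m n, hm n⟩
  have hc : IsCompact (closure (Set.range M)) := by
    refine isCompact_closure_of_isTightMeasureSet ?_
    convert ht using 1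
    ext x
    constructor
    · rintro ⟨_, ⟨n, rfl⟩, rfl⟩
      exact ⟨n, rfl⟩
    · rintro ⟨n, rfl⟩
      exact ⟨M n, ⟨n, rfl⟩, rfl⟩
  obtain ⟨a, -, φ, hφ, ha⟩ := hc.tendsto_subseq (x := M) fun n => subset_closure ⟨n, rfl⟩
  refine ⟨a, inferInstance, fun w => ?_⟩
  have h3 := ProbabilityMeasure.tendsto_iff_tendsto_charFun.1 ha w
  have h4 := (h w).comp hφ.tendsto_atTop
  refine tendsto_nhds_unique h3 ?_
  refine h4.congr fun n => ?_
  exact (h1 (φ n) w).symm

lemma norm_prod_sub_prod (a b : ℕ → ℂ) (n : ℕ) (ha : ∀ j < n, ‖a j‖ ≤ 1)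
    (hb : ∀ j < n, ‖b j‖ ≤ 1) :
    ‖∏ j ∈ Finset.range n, a j - ∏ j ∈ Finset.range n, b j‖
      ≤ ∑ j ∈ Finset.range n, ‖a j - b j‖ := by
  induction n with
  | zero => simp
  | succ n ih =>
    have ih' := ih (fun j hj => ha j (by omega)) (fun j hj => hb j (by omega))
    rw [Finset.prod_range_succ, Finset.prod_range_succ, Finset.sum_range_succ]
    have h1 : ‖∏ j ∈ Finset.range n, b j‖ ≤ 1 := by
      rw [norm_prod]
      exact Finset.prod_le_one (fun _ _ => norm_nonneg _)
        fun j hj => hb j (by have := Finset.mem_range.1 hj; omega)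
    set A := ∏ j ∈ Finset.range n, a j
    set B := ∏ j ∈ Finset.range n, b j
    have h2 : A * a n - B * b n = (A - B) * a n + B * (a n - b n) := by ring
    rw [h2]
    refine (norm_add_le _ _).trans ?_
    rw [norm_mul, norm_mul]
    have h3 := ha n (by omega)
    have h4 : ‖A - B‖ * ‖a n‖ ≤ ‖A - B‖ := mul_le_of_le_one_right (norm_nonneg _) h3
    have h5 : ‖B‖ * ‖a n - b n‖ ≤ ‖a n - b n‖ := mul_le_of_le_one_left (norm_nonneg _) h1
    linarith

lemma mix_err {d : ℂ} (hd : ‖d‖ ≤ 1) {s : ℝ} (h0 : 0 ≤ s) (h1 : s ≤ 1) :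
    ‖(s * Complex.exp d + (1 - s)) - Complex.exp (s * d)‖ ≤ 2 * ‖d‖ ^ 2 := by
  have h2 : ‖(s : ℂ) * d‖ ≤ ‖d‖ := by
    rw [norm_mul, Complex.norm_real, Real.norm_of_nonneg h0]
    exact mul_le_of_le_one_left (norm_nonneg _) h1
  have h3 := Complex.norm_exp_sub_one_sub_id_le hd
  have h4 := Complex.norm_exp_sub_one_sub_id_le (h2.trans hd)
  have h5 : (s * Complex.exp d + (1 - s)) - Complex.exp (s * d)
      = s * (Complex.exp d - 1 - d) - (Complex.exp (s * d) - 1 - s * d) := by ring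
  rw [h5]
  refine (norm_sub_le _ _).trans ?_
  rw [norm_mul, Complex.norm_real, Real.norm_of_nonneg h0]
  have h6 : s * ‖Complex.exp d - 1 - d‖ ≤ ‖Complex.exp d - 1 - d‖ :=
    mul_le_of_le_one_left (norm_nonneg _) h1
  have h7 : ‖(s : ℂ) * d‖ ^ 2 ≤ ‖d‖ ^ 2 := pow_le_pow_left₀ (norm_nonneg _) h2 2
  linarith

lemma SD.piece {μ : Measure ℝ} [IsProbabilityMeasure μ] (hs : SD μ) {P : ℝ → ℂ} (hP0 : P 0 = 0)
    (he : ∀ w, charFun μ w = Complex.exp (P w)) {r r' : ℝ} (h0 : 0 ≤ r') (h1 : r' < r) :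
    IsCF (fun w => Complex.exp (P (r * w) - P (r' * w))) := by
  have hμ : IsCF (fun w => Complex.exp (P w)) := ⟨μ, inferInstance, he⟩
  rcases h0.eq_or_lt with h | h
  · subst h
    simpa [hP0] using hμ.scale r
  · have hr : 0 < r := h.trans h1
    obtain ⟨ρ, hρ, h2⟩ := hs (r' / r) (by positivity) ((div_lt_one hr).2 h1)
    have hp : IsProbabilityMeasure (μ.map (fun x => r' / r * x)) :=
      Measure.isProbabilityMeasure_map (by fun_prop)
    have h3 : IsCF (fun w => Complex.exp (P w - P (r' / r * w))) := by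
      refine ⟨ρ, hρ, fun w => ?_⟩
      have h4 : charFun μ w = charFun μ (r' / r * w) * charFun ρ w := by
        conv_lhs => rw [h2, charFun_conv, charFun_map_mul]
      rw [he, he] at h4
      simp only
      rw [Complex.exp_sub, h4]
      field_simp
    have h5 := h3.scale r
    convert h5 using 5 with w
    field_simp

lemma SD.frac {μ : Measure ℝ} [IsProbabilityMeasure μ] (hs : SD μ) {P L : ℝ → ℂ}
    (hL : Continuous L) (hd : ∀ w, HasDerivAt P (L w) w) (hP0 : P 0 = 0)
    (he : ∀ w, charFun μ w = Complex.exp (P w)) {s q : ℝ} (s0 : 0 ≤ s) (s1 : s ≤ 1)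
    (q0 : 0 ≤ q) (q1 : q < 1) :
    IsCF (fun w => Complex.exp (s * (P w - P (q * w)))) := by
  have hPc : Continuous P := continuous_iff_continuousAt.2 fun w => (hd w).continuousAt
  let r : ℕ → ℕ → ℝ := fun n j => 1 - j * ((1 - q) / (n + 1))
  have hr0 : ∀ n j, j ≤ n + 1 → 0 ≤ r n j := fun n j hj => by
    have h1 : (j : ℝ) ≤ n + 1 := by exact_mod_cast hj
    have h2 : (j : ℝ) * ((1 - q) / (n + 1)) ≤ (n + 1) * ((1 - q) / (n + 1)) :=
      mul_le_mul_of_nonneg_right h1 (div_nonneg (by linarith) (by positivity))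
    have h3 : ((n : ℝ) + 1) * ((1 - q) / (n + 1)) = 1 - q := by field_simp
    simp only [r]
    linarith
  have hr1 : ∀ n j, r n j ≤ 1 := fun n j => by
    have : 0 ≤ (j : ℝ) * ((1 - q) / (n + 1)) :=
      mul_nonneg (by positivity) (div_nonneg (by linarith) (by positivity))
    simp only [r]
    linarith
  have hstep : ∀ n j, r n j - r n (j + 1) = (1 - q) / (n + 1) := fun n j => by
    simp only [r]
    push_cast
    ring
  have hpos : ∀ n : ℕ, 0 < (1 - q) / ((n : ℝ) + 1) := fun n =>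
    div_pos (by linarith) (by positivity)
  have hpiece : ∀ n j, j < n + 1 →
      IsCF (fun w => Complex.exp (P (r n j * w) - P (r n (j + 1) * w))) := fun n j hj =>
    hs.piece hP0 he (hr0 n (j + 1) hj) (by linarith [hstep n j, hpos n])
  let F : ℕ → ℕ → ℝ → ℂ := fun n k w => ∏ j ∈ Finset.range k,
    (s * Complex.exp (P (r n j * w) - P (r n (j + 1) * w)) + (1 - s))
  have hF : ∀ n k, k ≤ n + 1 → IsCF (F n k) := fun n k => by
    induction k with
    | zero => intro _; simpa [F] using IsCF.one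
    | succ k ih =>
      intro hk
      have := (ih (by omega)).mul ((hpiece n k hk).mix s0 s1)
      simpa only [F, Finset.prod_range_succ] using this
  refine IsCF.lim (F := fun n => F n (n + 1)) (fun n => hF n _ le_rfl)
    (Continuous.continuousAt (by fun_prop)) fun w => ?_
  obtain ⟨K, hK⟩ := (isCompact_Icc (a := -|w|) (b := |w|)).exists_bound_of_continuousOn
    hL.continuousOn
  have hmem : ∀ n j, j ≤ n + 1 → r n j * w ∈ Icc (-|w|) |w| := fun n j hj => by
    rw [mem_Icc, ← abs_le, abs_mul, abs_of_nonneg (hr0 n j hj)]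
    exact mul_le_of_le_one_left (abs_nonneg _) (hr1 n j)
  have hK0 : 0 ≤ K := (norm_nonneg _).trans (hK 0 ⟨by simp, by simp⟩)
  have hdj : ∀ n j, j < n + 1 →
      ‖P (r n j * w) - P (r n (j + 1) * w)‖ ≤ K * |w| / (n + 1) := fun n j hj => by
    have h1 := (convex_Icc (-|w|) |w|).norm_image_sub_le_of_norm_hasDerivWithin_le
      (fun x _ => (hd x).hasDerivWithinAt) hK (hmem n (j + 1) hj) (hmem n j hj.le)
    refine h1.trans ?_
    rw [← sub_mul, hstep, norm_mul, Real.norm_of_nonneg (hpos n).le, Real.norm_eq_abs]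
    have h2 : (1 - q) / ((n : ℝ) + 1) ≤ 1 / (n + 1) :=
      div_le_div_of_nonneg_right (by linarith) (by positivity)
    calc K * ((1 - q) / (n + 1) * |w|) ≤ K * (1 / (n + 1) * |w|) := by gcongr
      _ = _ := by ring
  have hlim : Tendsto (fun n : ℕ => 2 * (K * |w|) ^ 2 * (1 / ((n : ℝ) + 1))) atTop (𝓝 0) := by
    have := (tendsto_one_div_add_atTop_nhds_zero_nat (𝕜 := ℝ)).const_mul (2 * (K * |w|) ^ 2)
    rwa [mul_zero] at this
  rw [tendsto_iff_norm_sub_tendsto_zero]
  refine squeeze_zero' (Eventually.of_forall fun _ => norm_nonneg _) ?_ hlim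
  filter_upwards [eventually_ge_atTop ⌈K * |w|⌉₊] with n hn
  have hn' : K * |w| / (n + 1) ≤ 1 := by
    rw [div_le_one (by positivity)]
    have := Nat.ceil_le.1 hn
    linarith
  have htel : Complex.exp (s * (P w - P (q * w)))
      = ∏ j ∈ Finset.range (n + 1),
        Complex.exp (s * (P (r n j * w) - P (r n (j + 1) * w))) := by
    rw [← Complex.exp_sum, ← Finset.mul_sum, Finset.sum_range_sub' (fun j => P (r n j * w))]
    have h1 : r n 0 = 1 := by simp [r]
    have h2 : r n (n + 1) = q := by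
      simp only [r]
      push_cast
      field_simp
      ring
    rw [h1, h2, one_mul]
  rw [htel]
  refine (norm_prod_sub_prod _ _ _ (fun j hj => ((hpiece n j hj).mix s0 s1).norm_le w)
    fun j hj => ?_).trans ?_
  · have h1 := (hpiece n j hj).norm_le w
    rw [Complex.norm_exp, Real.exp_le_one_iff] at h1 ⊢
    rw [Complex.re_ofReal_mul]
    exact mul_nonpos_of_nonneg_of_nonpos s0 h1
  · calc _ ≤ ∑ j ∈ Finset.range (n + 1), 2 * (K * |w| / (n + 1)) ^ 2 := by
          refine Finset.sum_le_sum fun j hj => ?_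
          have h1 := hdj n j (Finset.mem_range.1 hj)
          refine (mix_err (h1.trans hn') s0 s1).trans ?_
          gcongr
      _ = _ := by
          rw [Finset.sum_const, Finset.card_range, nsmul_eq_mul]
          push_cast
          field_simp

end Pool.Agent.Lib.MP_cc278a_pr
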