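import Pool.Agent.Lib.MP_cc278a_pr.SD2

set_option autoImplicit false
open MeasureTheory ProbabilityTheory Real Set Filter Topology
open scoped NNReal ENNReal InnerProductSpace ComplexConjugate

namespace Pool.Agent.Lib.MP_cc278a_pr

section abstract
variable {M E : Type*} [AddCommGroup M] [Module ℂ M] [NormedAddCommGroup E]
  [InnerProductSpace ℂ E] (T : M →ₗ[ℂ] E) (V : Module.End ℂ M) {q : ℝ}

lemma pow_contr (q0 : 0 ≤ q) (hV : ∀ g, ‖T (V g)‖ ≤ q * ‖T g‖) (j : ℕ) (g : M) :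
    ‖T ((V ^ j) g)‖ ≤ q ^ j * ‖T g‖ := by
  induction j with
  | zero => simp
  | succ j ih =>
    rw [pow_succ', Module.End.mul_apply, pow_succ', mul_assoc]
    exact (hV _).trans (mul_le_mul_of_nonneg_left ih q0)

lemma sum_contr (q0 : 0 ≤ q) (q1 : q < 1) (hV : ∀ g, ‖T (V g)‖ ≤ q * ‖T g‖) (N : ℕ) (g : M) :
    (1 - q) * ‖T ((∑ j ∈ Finset.range N, V ^ j) g)‖ ≤ ‖T g‖ := by
  have h1 : ‖T ((∑ j ∈ Finset.range N, V ^ j) g)‖ ≤ (∑ j ∈ Finset.range N, q ^ j) * ‖T g‖ := by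
    rw [LinearMap.sum_apply, map_sum, Finset.sum_mul]
    exact norm_sum_le_of_le _ fun j _ => pow_contr T V q0 hV j g
  have h2 := mul_neg_geom_sum q N
  have h3 : 0 ≤ q ^ N := pow_nonneg q0 N
  calc _ ≤ (1 - q) * ((∑ j ∈ Finset.range N, q ^ j) * ‖T g‖) :=
        mul_le_mul_of_nonneg_left h1 (by linarith)
    _ = (1 - q ^ N) * ‖T g‖ := by rw [← mul_assoc, h2]
    _ ≤ _ := by nlinarith [norm_nonneg (T g)]

lemma sum_accr (q0 : 0 ≤ q) (q1 : q < 1) (hV : ∀ g, ‖T (V g)‖ ≤ q * ‖T g‖) (N : ℕ) (a : M) :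
    -(q ^ N * ‖T a‖ ^ 2)
      ≤ (1 - q) * (⟪T a, T ((∑ j ∈ Finset.range N, V ^ j) a)⟫_ℂ).re := by
  have h0 := sum_contr T V q0 q1 hV N a
  set b := (∑ j ∈ Finset.range N, V ^ j) a with hb
  have h1 : a = b - V b + (V ^ N) a := by
    have := congrArg (fun X : Module.End ℂ M => X a) (mul_neg_geom_sum V N)
    simp only [Module.End.mul_apply, LinearMap.sub_apply, Module.End.one_apply] at this
    rw [← hb] at this
    rw [this]
    abel
  have h2 : (⟪T a, T b⟫_ℂ).re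
      = ‖T b‖ ^ 2 - (⟪T (V b), T b⟫_ℂ).re + (⟪T ((V ^ N) a), T b⟫_ℂ).re := by
    conv_lhs => rw [h1]
    rw [map_add, map_sub, inner_add_left, inner_sub_left, Complex.add_re, Complex.sub_re,
      ← inner_self_eq_norm_sq (𝕜 := ℂ)]
    rfl
  have h3 : (⟪T (V b), T b⟫_ℂ).re ≤ ‖T b‖ ^ 2 := by
    refine (Complex.re_le_norm _).trans ((norm_inner_le_norm _ _).trans ?_)
    have := hV b
    nlinarith [norm_nonneg (T b), mul_nonneg (norm_nonneg (T b)) (norm_nonneg (T b))]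
  have h4 : -(q ^ N * ‖T a‖ * ‖T b‖) ≤ (⟪T ((V ^ N) a), T b⟫_ℂ).re := by
    have h5 := (Complex.abs_re_le_norm (⟪T ((V ^ N) a), T b⟫_ℂ)).trans (norm_inner_le_norm _ _)
    have h6 := mul_le_mul_of_nonneg_right (pow_contr T V q0 hV N a) (norm_nonneg (T b))
    linarith [neg_abs_le (⟪T ((V ^ N) a), T b⟫_ℂ).re]
  have h7 : -(q ^ N * ‖T a‖ * ‖T b‖) ≤ (⟪T a, T b⟫_ℂ).re := by linarith
  have h8 := mul_le_mul_of_nonneg_left h7 (by linarith : 0 ≤ 1 - q)
  have h9 := mul_le_mul_of_nonneg_left h0 (mul_nonneg (pow_nonneg q0 N) (norm_nonneg (T a)))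
  nlinarith

end abstract

/-- Measurable functions of linear growth. -/
def LG : Submodule ℂ (ℝ → ℂ) where
  carrier := {g | Measurable g ∧ ∃ C : ℝ, 0 ≤ C ∧ ∀ y, ‖g y‖ ≤ C * (1 + |y|)}
  add_mem' := by
    rintro f g ⟨hf, C, hC0, hC⟩ ⟨hg, D, hD0, hD⟩
    refine ⟨hf.add hg, C + D, by positivity, fun y => (norm_add_le _ _).trans ?_⟩
    have := hC y
    have := hD y
    linarith
  zero_mem' := ⟨measurable_const, 0, le_rfl, fun y => by simp⟩
  smul_mem' := by
    rintro c g ⟨hg, C, hC0, hC⟩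
    refine ⟨hg.const_smul c, ‖c‖ * C, by positivity, fun y => ?_⟩
    rw [Pi.smul_apply, norm_smul, mul_assoc]
    exact mul_le_mul_of_nonneg_left (hC y) (norm_nonneg _)

lemma LG.memLp {g : ℝ → ℂ} (hg : g ∈ LG) {ν : Measure ℝ} [IsFiniteMeasure ν]
    (h2 : MemLp id 2 ν) : MemLp g 2 ν := by
  obtain ⟨hm, C, hC0, hC⟩ := hg
  have h0 : MemLp (fun y : ℝ => |y|) 2 ν := h2.norm
  have h1 : MemLp (fun y : ℝ => C * (1 + |y|)) 2 ν :=
    ((memLp_const (1 : ℝ)).add h0).const_mul C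
  refine h1.of_le hm.aestronglyMeasurable (Eventually.of_forall fun y => (hC y).trans ?_)
  exact le_abs_self _

lemma LG.integrable {g : ℝ → ℂ} (hg : g ∈ LG) {ν : Measure ℝ} [IsFiniteMeasure ν]
    (h2 : MemLp id 2 ν) : Integrable g ν := (LG.memLp hg h2).integrable (by norm_num)

lemma LG.shift {g : ℝ → ℂ} (hg : g ∈ LG) (t : ℝ) : (fun x => g (t + x)) ∈ LG := by
  obtain ⟨hm, C, hC0, hC⟩ := hg
  refine ⟨hm.comp (measurable_const_add t), C * (1 + |t|), by positivity,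
    fun y => (hC _).trans ?_⟩
  rw [mul_assoc]
  refine mul_le_mul_of_nonneg_left ?_ hC0
  nlinarith [abs_add_le t y, mul_nonneg (abs_nonneg t) (abs_nonneg y)]

lemma LG.int_sq {g : ℝ → ℂ} (hg : g ∈ LG) {ν : Measure ℝ} [IsFiniteMeasure ν]
    (h2 : MemLp id 2 ν) : Integrable (fun y => ‖g y‖ ^ 2) ν :=
  (memLp_two_iff_integrable_sq_norm hg.1.aestronglyMeasurable).1 (LG.memLp hg h2)

/-- The embedding in `L²`. -/
noncomputable def toL2 (ν : Measure ℝ) [IsFiniteMeasure ν] (h2 : MemLp id 2 ν) :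
    LG →ₗ[ℂ] Lp ℂ 2 ν where
  toFun g := (LG.memLp g.2 h2).toLp g
  map_add' _ _ := MemLp.toLp_add _ _
  map_smul' c _ := MemLp.toLp_const_smul c _

/-- The `L²` seminorm. -/
noncomputable def nrm (ν : Measure ℝ) (g : ℝ → ℂ) : ℝ := √(∫ y, ‖g y‖ ^ 2 ∂ν)

lemma nrm_nonneg (ν : Measure ℝ) (g : ℝ → ℂ) : 0 ≤ nrm ν g := Real.sqrt_nonneg _

lemma inner_toL2 (ν : Measure ℝ) [IsFiniteMeasure ν] (h2 : MemLp id 2 ν) (f g : LG) :
    ⟪toL2 ν h2 f, toL2 ν h2 g⟫_ℂ = ∫ y, conj (f.1 y) * g.1 y ∂ν := by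
  rw [L2.inner_def]
  refine integral_congr_ae ?_
  filter_upwards [(LG.memLp f.2 h2).coeFn_toLp, (LG.memLp g.2 h2).coeFn_toLp] with y h3 h4
  simp only [toL2, LinearMap.coe_mk, AddHom.coe_mk]
  rw [h3, h4, RCLike.inner_apply, mul_comm]

lemma norm_toL2 (ν : Measure ℝ) [IsFiniteMeasure ν] (h2 : MemLp id 2 ν) (g : LG) :
    ‖toL2 ν h2 g‖ = nrm ν g := by
  unfold nrm
  rw [norm_eq_sqrt_re_inner (𝕜 := ℂ), inner_toL2]
  congr 1
  simp_rw [Complex.conj_mul']
  have : ∀ y, ((‖g.1 y‖ : ℂ)) ^ 2 = ((‖g.1 y‖ ^ 2 : ℝ) : ℂ) := fun y => by push_cast; rfl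
  simp_rw [this]
  rw [integral_complex_ofReal]
  simp

/-- The Markov operator. -/
noncomputable def Uop (κ : Measure ℝ) [IsProbabilityMeasure κ] (h2 : MemLp id 2 κ) (q : ℝ) :
    Module.End ℂ LG where
  toFun g := ⟨fun s => ∫ x, g.1 (q * s + x) ∂κ, by
    obtain ⟨hm, C, hC0, hC⟩ := g.2
    have hk := (int_id h2).abs
    have hk0 : 0 ≤ ∫ x, |x| ∂κ := integral_nonneg fun x => abs_nonneg x
    refine ⟨?_, C * (1 + |q| + ∫ x, |x| ∂κ), by positivity, fun s => ?_⟩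
    · have : StronglyMeasurable (fun p : ℝ × ℝ => g.1 (q * p.1 + p.2)) :=
        (hm.comp (by fun_prop)).stronglyMeasurable
      exact (StronglyMeasurable.integral_prod_right' this).measurable
    · have hb : Integrable (fun x : ℝ => C * (1 + |q * s| + |x|)) κ :=
        ((integrable_const _).add hk).const_mul C
      refine (norm_integral_le_of_norm_le hb (Eventually.of_forall fun x => (hC _).trans ?_)).trans ?_
      · refine mul_le_mul_of_nonneg_left ?_ hC0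
        linarith [abs_add_le (q * s) x]
      · rw [integral_const_mul, integral_add (integrable_const _) hk, mul_assoc]
        refine mul_le_mul_of_nonneg_left ?_ hC0
        simp only [integral_const, probReal_univ, smul_eq_mul, one_mul, abs_mul]
        nlinarith [abs_nonneg s, abs_nonneg q, mul_nonneg hk0 (abs_nonneg s)]⟩
  map_add' f g := by
    ext s
    exact integral_add (LG.integrable (LG.shift f.2 _) h2) (LG.integrable (LG.shift g.2 _) h2)
  map_smul' c g := by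
    ext s
    exact integral_smul c _

lemma sq_norm_integral_le {κ : Measure ℝ} [IsProbabilityMeasure κ] {f : ℝ → ℂ}
    (hf : MemLp f 2 κ) : ‖∫ x, f x ∂κ‖ ^ 2 ≤ ∫ x, ‖f x‖ ^ 2 ∂κ := by
  have h1 := variance_nonneg (fun x => ‖f x‖) κ
  rw [variance_eq_sub hf.norm] at h1
  have h2 := pow_le_pow_left₀ (norm_nonneg _) (norm_integral_le_integral_norm (μ := κ) f) 2
  simp only [Pi.pow_apply] at h1
  linarith

lemma nrm_Uop {ν κ : Measure ℝ} [IsProbabilityMeasure ν] [IsProbabilityMeasure κ]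
    (hν : MemLp id 2 ν) (h2 : MemLp id 2 κ) {q : ℝ} (he : ν = ν.map (fun x => q * x) ∗ κ)
    (g : LG) : nrm ν (Uop κ h2 q g) ≤ nrm ν g := by
  have hp : IsProbabilityMeasure (ν.map (fun x => q * x)) :=
    Measure.isProbabilityMeasure_map (by fun_prop)
  refine Real.sqrt_le_sqrt ?_
  have h1 : Integrable (fun y => ‖g.1 y‖ ^ 2) (ν.map (fun x => q * x) ∗ κ) :=
    he ▸ LG.int_sq g.2 hν
  have hm : Measurable (fun y => ‖g.1 y‖ ^ 2) := g.2.1.norm.pow_const 2
  have hsm : StronglyMeasurable (fun s : ℝ => ∫ x, ‖g.1 (s + x)‖ ^ 2 ∂κ) :=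
    StronglyMeasurable.integral_prod_right' (f := fun p : ℝ × ℝ => ‖g.1 (p.1 + p.2)‖ ^ 2)
      (hm.comp (by fun_prop)).stronglyMeasurable
  have h3 : Integrable (fun s : ℝ => ∫ x, ‖g.1 (s + x)‖ ^ 2 ∂κ) (ν.map (fun x => q * x)) := by
    have := ((integrable_conv_iff hm.aestronglyMeasurable).1 h1).2
    simpa using this
  conv_rhs => rw [he, integral_conv h1, integral_map (by fun_prop) hsm.aestronglyMeasurable]
  rw [integrable_map_measure hsm.aestronglyMeasurable (by fun_prop)] at h3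
  refine integral_mono (LG.int_sq (Uop κ h2 q g).2 hν) h3 fun s => ?_
  exact sq_norm_integral_le (LG.memLp (LG.shift g.2 _) h2)

/-- The characters. -/
noncomputable def ech (w : ℝ) : LG :=
  ⟨fun y => Complex.exp (w * y * Complex.I), by fun_prop, 1, zero_le_one, fun y => by
    simp only
    rw [← Complex.ofReal_mul, Complex.norm_exp_ofReal_mul_I]
    linarith [abs_nonneg y]⟩

lemma Uop_ech {κ : Measure ℝ} [IsProbabilityMeasure κ] (h2 : MemLp id 2 κ) (q w : ℝ) :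
    Uop κ h2 q (ech w) = charFun κ w • ech (q * w) := by
  ext s
  change ∫ x, Complex.exp (w * ((q * s + x : ℝ) : ℂ) * Complex.I) ∂κ
    = charFun κ w * Complex.exp (((q * w : ℝ) : ℂ) * s * Complex.I)
  rw [charFun_apply_real, ← integral_mul_const]
  congr 1
  ext x
  rw [← Complex.exp_add]
  congr 1
  push_cast
  ring

lemma exists_functional {ν κ : Measure ℝ} [IsProbabilityMeasure ν] [IsProbabilityMeasure κ]
    (hν : MemLp id 2 ν) {q : ℝ} (q0 : 0 ≤ q) (q1 : q < 1) (he : ν = ν.map (fun x => q * x) ∗ κ)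
    (hne : ∀ w, charFun ν w ≠ 0) (a : LG) (N : ℕ) :
    ∃ Λ : LG →ₗ[ℂ] ℂ, (∀ g, ‖Λ g‖ ≤ nrm ν a * nrm ν g) ∧ -(q ^ N * nrm ν a ^ 2) ≤ (Λ a).re ∧
      ∀ w, Λ (ech w) = ∑ j ∈ Finset.range N, (1 - q) * q ^ j
        * (charFun ν w / charFun ν (q ^ j * w)) * ∫ y, conj (a.1 y) * (ech (q ^ j * w)).1 y ∂ν := by
  have hp : IsProbabilityMeasure (ν.map (fun x => q * x)) :=
    Measure.isProbabilityMeasure_map (by fun_prop)
  have h2 : MemLp id 2 κ := memLp_right_of_conv (a := ν.map (fun x => q * x)) (he ▸ hν)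
  set V : Module.End ℂ LG := (q : ℂ) • Uop κ h2 q with hVdef
  set T := toL2 ν hν with hT
  have hV : ∀ g, ‖T (V g)‖ ≤ q * ‖T g‖ := fun g => by
    rw [hVdef, LinearMap.smul_apply, map_smul, norm_smul, Complex.norm_real,
      Real.norm_of_nonneg q0, norm_toL2, norm_toL2]
    exact mul_le_mul_of_nonneg_left (nrm_Uop hν h2 he g) q0
  have hk : ∀ w, charFun κ w = charFun ν w / charFun ν (q * w) := fun w => by
    rw [eq_div_iff (hne _), mul_comm]
    conv_rhs => rw [he, charFun_conv, charFun_map_mul]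
  have hpow : ∀ (j : ℕ) (w : ℝ), (V ^ j) (ech w)
      = ((q : ℂ) ^ j * (charFun ν w / charFun ν (q ^ j * w))) • ech (q ^ j * w) := by
    intro j w
    induction j with
    | zero => simp [hne w]
    | succ j ih =>
      rw [pow_succ', Module.End.mul_apply, ih, map_smul, hVdef, LinearMap.smul_apply, Uop_ech,
        smul_smul, smul_smul, hk, ← mul_assoc q, ← pow_succ']
      congr 1
      field_simp [hne]
      ring
  refine ⟨((1 - q : ℝ) : ℂ) • ((innerₛₗ ℂ (T a)) ∘ₗ T ∘ₗ (∑ j ∈ Finset.range N, V ^ j)),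
    fun g => ?_, ?_, fun w => ?_⟩
  · simp only [LinearMap.smul_apply, LinearMap.comp_apply, innerₛₗ_apply_apply, norm_smul]
    rw [Complex.norm_real, Real.norm_of_nonneg (by linarith), ← norm_toL2 ν hν,
      ← norm_toL2 ν hν]
    have h3 := sum_contr T V q0 q1 hV N g
    have h4 := norm_inner_le_norm (𝕜 := ℂ) (T a) (T ((∑ j ∈ Finset.range N, V ^ j) g))
    have h5 := mul_le_mul_of_nonneg_left h4 (by linarith : 0 ≤ 1 - q)
    have h6 := mul_le_mul_of_nonneg_left h3 (norm_nonneg (T a))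
    linarith
  · simp only [LinearMap.smul_apply, LinearMap.comp_apply, innerₛₗ_apply_apply, smul_eq_mul]
    rw [Complex.re_ofReal_mul, ← norm_toL2 ν hν]
    exact sum_accr T V q0 q1 hV N a
  · simp only [LinearMap.smul_apply, LinearMap.comp_apply, innerₛₗ_apply_apply, smul_eq_mul]
    rw [LinearMap.sum_apply, map_sum, inner_sum, Finset.mul_sum]
    refine Finset.sum_congr rfl fun j _ => ?_
    rw [hpow, map_smul, inner_smul_right, inner_toL2]
    push_cast
    ring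

end Pool.Agent.Lib.MP_cc278a_pr
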