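import Pool.Agent.Lib.MP_cc278a_pr.SD3

set_option autoImplicit false
open MeasureTheory ProbabilityTheory Real Set Filter Topology
open scoped NNReal ENNReal InnerProductSpace ComplexConjugate

namespace Pool.Agent.Lib.MP_cc278a_pr

lemma abs_L1_le {B : Measure ℝ} [IsProbabilityMeasure B] {v : ℝ} (hv : 0 < v)
    (h2 : MemLp id 2 B) (y : ℝ) :
    |L1 B v y| ≤ (2 * (∫ x, x ^ 2 ∂B) + 2) / v * (1 + |y|) := by
  have h3 : 0 ≤ ∫ x, x ^ 2 ∂B := integral_nonneg fun x => sq_nonneg x
  have h4 := (bm_one_sq_le hv h2 y).trans (ratio_le hv h2 y)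
  unfold L1
  rw [abs_div, abs_of_pos hv, div_mul_eq_mul_div]
  apply div_le_div_of_nonneg_right _ hv.le
  set m := bm B v 1 y / bm B v 0 y
  set K := 2 * (∫ x, x ^ 2 ∂B) + 2 with hK
  refine abs_le_of_sq_le_sq' ?_ (by positivity) |> fun h => abs_le.2 h
  have h5 : 1 + y ^ 2 ≤ (1 + |y|) ^ 2 := by
    rw [← sq_abs y]; nlinarith [abs_nonneg y]
  have h6 : K ≤ K ^ 2 := by nlinarith
  calc m ^ 2 ≤ K * (1 + y ^ 2) := h4
    _ ≤ K ^ 2 * (1 + |y|) ^ 2 := by gcongr
    _ = _ := by ring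

/-- The centred score. -/
noncomputable def scr (B : Measure ℝ) (v t y : ℝ) : ℝ := -t * L1 B v y - y

lemma abs_scr_le {B : Measure ℝ} [IsProbabilityMeasure B] {v : ℝ} (hv : 0 < v)
    (h2 : MemLp id 2 B) (t y : ℝ) :
    |scr B v t y| ≤ (|t| * ((2 * (∫ x, x ^ 2 ∂B) + 2) / v) + 1) * (1 + |y|) := by
  unfold scr
  refine (abs_sub _ _).trans ?_
  rw [abs_mul, abs_neg]
  have := mul_le_mul_of_nonneg_left (abs_L1_le hv h2 y) (abs_nonneg t)
  nlinarith

lemma continuous_scr {B : Measure ℝ} [IsProbabilityMeasure B] {v : ℝ} (hv : 0 < v)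
    (h2 : MemLp id 2 B) (t : ℝ) : Continuous (scr B v t) := by
  have := continuous_L1 hv h2
  unfold scr
  fun_prop

lemma ofReal_mem_LG {a : ℝ → ℝ} (ha : Measurable a) {C : ℝ} (hC0 : 0 ≤ C)
    (hC : ∀ y, |a y| ≤ C * (1 + |y|)) : (fun y => (a y : ℂ)) ∈ LG :=
  ⟨by fun_prop, C, hC0, fun y => by simpa using hC y⟩

lemma scr_mem {B : Measure ℝ} [IsProbabilityMeasure B] {v : ℝ} (hv : 0 < v)
    (h2 : MemLp id 2 B) (t : ℝ) : (fun y => (scr B v t y : ℂ)) ∈ LG := by
  have h3 : 0 ≤ ∫ x, x ^ 2 ∂B := integral_nonneg fun x => sq_nonneg x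
  exact ofReal_mem_LG (continuous_scr hv h2 t).measurable (by positivity) (abs_scr_le hv h2 t)

lemma LG.mul_ech {g : ℝ → ℂ} (hg : g ∈ LG) (w : ℝ) :
    (fun y : ℝ => g y * Complex.exp (w * y * Complex.I)) ∈ LG := by
  obtain ⟨hm, C, hC0, hC⟩ := hg
  refine ⟨by fun_prop, C, hC0, fun y => ?_⟩
  rw [norm_mul, ← Complex.ofReal_mul, Complex.norm_exp_ofReal_mul_I, mul_one]
  exact hC y

lemma score_id {B : Measure ℝ} [IsProbabilityMeasure B] {v : ℝ≥0} (hv : v ≠ 0)
    (h2 : MemLp id 2 B) (w : ℝ) :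
    ∫ y : ℝ, (L1 B v y : ℂ) * Complex.exp (w * y * Complex.I) ∂(B ∗ gaussianReal 0 v)
      = -(w * Complex.I) * charFun (B ∗ gaussianReal 0 v) w := by
  have hv' : (0 : ℝ) < v := by positivity
  have hc := continuous_bm (μ := B) hv' 0
  have hm2 : MemLp id 2 (B ∗ gaussianReal 0 v) := memLp_conv h2 (memLp_id_gaussianReal 2)
  have h3 : 0 ≤ ∫ x, x ^ 2 ∂B := integral_nonneg fun x => sq_nonneg x
  have hL : (fun y => (L1 B v y : ℂ)) ∈ LG :=
    ofReal_mem_LG (continuous_L1 hv' h2).measurable (by positivity) (abs_L1_le hv' h2)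
  have i1 := LG.integrable (LG.mul_ech hL w) hm2
  have i2 := integrable_cexp (B ∗ gaussianReal 0 v) w
  have hq : ∀ y, 0 < kap v * bm B v 0 y := fun y => mul_pos (kap_pos hv') (bm_zero_pos hv' h2 _)
  rw [charFun_apply_real]
  rw [conv_gauss_eq hv 0] at i1 i2 ⊢
  rw [integrable_withDensity_iff_integrable_smul' (by fun_prop) (by simp)] at i1 i2
  rw [integral_withDensity_eq_integral_toReal_smul (by fun_prop) (by simp),
    integral_withDensity_eq_integral_toReal_smul (by fun_prop) (by simp)]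
  simp only [sub_zero, ENNReal.toReal_ofReal (hq _).le, Complex.real_smul] at i1 i2 ⊢
  have hd1 : ∀ y, HasDerivAt (fun y => ((kap v * bm B v 0 y : ℝ) : ℂ))
      (((kap v * bm B v 0 y : ℝ) : ℂ) * (L1 B v y : ℂ)) y := fun y => by
    have := ((hasDerivAt_bm B hv' 0 y).const_mul (kap v)).ofReal_comp
    refine this.congr_deriv ?_
    rw [← Complex.ofReal_mul]
    congr 1
    have := (bm_zero_pos hv' h2 y).ne'
    unfold L1
    field_simp
    simp
  have hd2 : ∀ y : ℝ, HasDerivAt (fun y : ℝ => Complex.exp (w * y * Complex.I))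
      (Complex.exp (w * y * Complex.I) * (w * Complex.I)) y := fun y => by
    have := (((hasDerivAt_id y).ofReal_comp.const_mul (w : ℂ)).mul_const Complex.I).cexp
    simpa using this
  have key := integral_mul_deriv_eq_deriv_mul_of_integrable
    (u := fun y : ℝ => Complex.exp (w * y * Complex.I))
    (v := fun y => ((kap v * bm B v 0 y : ℝ) : ℂ)) (fun y _ => hd2 y) (fun y _ => hd1 y)
    (i1.congr (Eventually.of_forall fun y => by simp only [Pi.mul_apply]; ring))
    ((i2.const_mul (w * Complex.I)).congr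
      (Eventually.of_forall fun y => by simp only [Pi.mul_apply]; ring))
    (i2.congr (Eventually.of_forall fun y => by simp only [Pi.mul_apply]; ring))
  rw [neg_mul, ← integral_const_mul]
  refine Eq.trans ?_ (key.trans ?_)
  · congr 1; ext y; ring
  · congr 2; ext y; ring

lemma scr_id {B : Measure ℝ} [IsProbabilityMeasure B] {v : ℝ≥0} (hv : v ≠ 0)
    (h2 : MemLp id 2 B) (t w : ℝ) {D : ℂ} (hD : HasDerivAt (charFun (B ∗ gaussianReal 0 v)) D w) :
    ∫ y : ℝ, conj (scr B v t y : ℂ) * (ech w).1 y ∂(B ∗ gaussianReal 0 v)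
      = Complex.I * (t * w * charFun (B ∗ gaussianReal 0 v) w + D) := by
  have hv' : (0 : ℝ) < v := by positivity
  have hm2 : MemLp id 2 (B ∗ gaussianReal 0 v) := memLp_conv h2 (memLp_id_gaussianReal 2)
  have h3 : 0 ≤ ∫ x, x ^ 2 ∂B := integral_nonneg fun x => sq_nonneg x
  have hL : (fun y => (L1 B v y : ℂ)) ∈ LG :=
    ofReal_mem_LG (continuous_L1 hv' h2).measurable (by positivity) (abs_L1_le hv' h2)
  have hI : (fun y : ℝ => (y : ℂ)) ∈ LG :=
    ofReal_mem_LG (a := fun y => y) measurable_id zero_le_one fun y => by linarith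
  have i1 := LG.integrable (LG.mul_ech hL w) hm2
  have i2 := LG.integrable (LG.mul_ech hI w) hm2
  have h4 : ∀ y : ℝ, conj (scr B v t y : ℂ) * (ech w).1 y
      = -t * ((L1 B v y : ℂ) * Complex.exp (w * y * Complex.I))
        - y * Complex.exp (w * y * Complex.I) := fun y => by
    rw [Complex.conj_ofReal]
    simp only [scr, ech]
    push_cast
    ring
  simp_rw [h4]
  rw [integral_sub (i1.const_mul _) i2, integral_const_mul, score_id hv h2,
    hD.unique (hasDerivAt_charFun hm2 w)]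
  have := Complex.I_mul_I
  linear_combination (-∫ y : ℝ, (y : ℂ) * Complex.exp (w * y * Complex.I)
    ∂(B ∗ gaussianReal 0 v)) * this

lemma riemann {F f : ℝ → ℂ} (hf : Continuous f) (hF : ∀ w, HasDerivAt F (f w) w) (hF0 : F 0 = 0)
    {q : ℕ → ℝ} {N : ℕ → ℕ} (q0 : ∀ n, 0 ≤ q n) (q1 : ∀ n, q n ≤ 1)
    (hq : Tendsto q atTop (𝓝 1)) (hN : Tendsto (fun n => q n ^ N n) atTop (𝓝 0)) (w : ℝ) :
    Tendsto (fun n => ∑ j ∈ Finset.range (N n),
      (1 - (q n : ℂ)) * (q n : ℂ) ^ j * w * f (q n ^ j * w)) atTop (𝓝 (F w)) := by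
  have hFc : Continuous F := continuous_iff_continuousAt.2 fun w => (hF w).continuousAt
  have h1 : Tendsto (fun n => F w - F (q n ^ N n * w)) atTop (𝓝 (F w)) := by
    have h2 : Tendsto (fun n => q n ^ N n * w) atTop (𝓝 0) := by simpa using hN.mul_const w
    have h3 := ((hFc.tendsto 0).comp h2).const_sub (F w)
    rwa [hF0, sub_zero] at h3
  refine h1.congr_dist ?_
  rw [Metric.tendsto_nhds]
  intro e he
  have hw1 : 0 < |w| + 1 := by positivity
  have huc := (isCompact_Icc (a := -|w|) (b := |w|)).uniformContinuousOn_of_continuous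
    hf.continuousOn
  obtain ⟨δ, hδ, hu⟩ := Metric.uniformContinuousOn_iff.1 huc (e / (|w| + 1)) (by positivity)
  have h4 : Tendsto (fun n => (1 - q n) * |w|) atTop (𝓝 0) := by
    simpa using (hq.const_sub 1).mul_const |w|
  filter_upwards [h4.eventually (gt_mem_nhds hδ)] with n hn
  have hmem : ∀ j : ℕ, q n ^ j * w ∈ Icc (-|w|) |w| := fun j => by
    rw [mem_Icc, ← abs_le, abs_mul, abs_of_nonneg (pow_nonneg (q0 n) j)]
    exact mul_le_of_le_one_left (abs_nonneg _) (pow_le_one₀ (q0 n) (q1 n))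
  have hstep : ∀ j : ℕ, ‖(F (q n ^ j * w) - F (q n ^ (j + 1) * w))
      - (1 - (q n : ℂ)) * (q n : ℂ) ^ j * w * f (q n ^ j * w)‖
      ≤ e / (|w| + 1) * ((1 - q n) * q n ^ j * |w|) := fun j => by
    set x := q n ^ j * w with hx
    have hdist : ‖x - q n ^ (j + 1) * w‖ = (1 - q n) * q n ^ j * |w| := by
      have : x - q n ^ (j + 1) * w = ((1 - q n) * q n ^ j) * w := by rw [hx]; ring
      rw [this, Real.norm_eq_abs, abs_mul,
        abs_of_nonneg (mul_nonneg (by linarith [q1 n]) (pow_nonneg (q0 n) j))]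
    have hlt : (1 - q n) * q n ^ j * |w| < δ := by
      refine lt_of_le_of_lt ?_ hn
      refine mul_le_mul_of_nonneg_right ?_ (abs_nonneg w)
      exact mul_le_of_le_one_right (by linarith [q1 n]) (pow_le_one₀ (q0 n) (q1 n))
    have hcv : Convex ℝ (Icc (-|w|) |w| ∩ Metric.ball x δ) :=
      (convex_Icc _ _).inter (convex_ball _ _)
    have h5 := hcv.norm_image_sub_le_of_norm_hasDerivWithin_le
      (f := fun t : ℝ => F t - t * f x) (f' := fun t => f t - f x) (C := e / (|w| + 1))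
      (x := q n ^ (j + 1) * w) (y := x)
      (fun t _ => by
        have := (hF t).sub ((hasDerivAt_id t).ofReal_comp.mul_const (f x))
        exact (HasDerivAt.congr_deriv this (by simp)).hasDerivWithinAt)
      (fun t ht => by
        have := hu t ht.1 x (hmem j) ht.2
        rw [dist_eq_norm] at this
        exact this.le)
      ⟨hmem _, by rw [Metric.mem_ball, dist_comm, dist_eq_norm, hdist]; exact hlt⟩
      ⟨hmem j, Metric.mem_ball_self hδ⟩
    rw [hdist] at h5
    refine le_of_eq_of_le ?_ h5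
    congr 1
    rw [hx]
    push_cast
    ring
  have htel : F w - F (q n ^ N n * w)
      = ∑ j ∈ Finset.range (N n), (F (q n ^ j * w) - F (q n ^ (j + 1) * w)) := by
    rw [Finset.sum_range_sub' (fun j => F (q n ^ j * w))]
    simp
  rw [dist_zero_right, Real.norm_of_nonneg dist_nonneg, dist_eq_norm, htel,
    ← Finset.sum_sub_distrib]
  refine lt_of_le_of_lt (norm_sum_le_of_le _ fun j _ => hstep j) ?_
  rw [← Finset.mul_sum, ← Finset.sum_mul, ← Finset.mul_sum, mul_neg_geom_sum, div_mul_eq_mul_div,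
    div_lt_iff₀ hw1]
  refine mul_lt_mul_of_pos_left ?_ he
  nlinarith [pow_nonneg (q0 n) (N n), abs_nonneg w]

/-- Primitive. -/
noncomputable def prim (g : ℝ → ℂ) (y : ℝ) : ℂ := ∫ t in (0 : ℝ)..y, g t

lemma LG.intervalIntegrable {g : ℝ → ℂ} (hg : g ∈ LG) (a b : ℝ) :
    IntervalIntegrable g volume a b := by
  obtain ⟨hm, C, hC0, hC⟩ := hg
  have h1 : IntervalIntegrable (fun y : ℝ => C * (1 + |y|)) volume a b :=
    Continuous.intervalIntegrable (by fun_prop) _ _
  exact h1.mono_fun' hm.aestronglyMeasurable (Eventually.of_forall hC)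

lemma LG.continuous_prim {g : ℝ → ℂ} (hg : g ∈ LG) : Continuous (prim g) :=
  intervalIntegral.continuous_primitive (LG.intervalIntegrable hg) 0

lemma norm_prim_le {g : ℝ → ℂ} {C : ℝ} (hC0 : 0 ≤ C) (hC : ∀ y, ‖g y‖ ≤ C * (1 + |y|)) (y : ℝ) :
    ‖prim g y‖ ≤ 2 * C * (1 + y ^ 2) := by
  have h1 : ‖prim g y‖ ≤ C * (1 + |y|) * |y - 0| := by
    refine intervalIntegral.norm_integral_le_of_norm_le_const fun t ht => (hC t).trans ?_
    have : |t| ≤ |y| := by
      rcases mem_uIoc.1 ht with h | h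
      · rw [abs_of_pos h.1]; exact h.2.trans (le_abs_self y)
      · rw [abs_of_nonpos h.2]; linarith [neg_abs_le y, h.1]
    gcongr
  refine h1.trans ?_
  rw [sub_zero, ← sq_abs y]
  nlinarith [mul_nonneg hC0 (sq_nonneg (|y| - 1)), mul_nonneg hC0 (sq_nonneg |y|)]

lemma LG.integrable_prim {g : ℝ → ℂ} (hg : g ∈ LG) {ν : Measure ℝ} [IsFiniteMeasure ν]
    (h2 : MemLp id 2 ν) : Integrable (prim g) ν := by
  obtain ⟨C, hC0, hC⟩ := hg.2
  exact (((integrable_const (1 : ℝ)).add (Pool.Agent.Lib.MP_cc278a_pr.int_sq h2)).const_mul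
    (2 * C)).mono' (LG.continuous_prim hg).aestronglyMeasurable
    (Eventually.of_forall (norm_prim_le hC0 hC))

/-- Mean of the primitive. -/
noncomputable def IP (ν : Measure ℝ) (g : LG) : ℂ := ∫ y, prim g.1 y ∂ν

lemma IP_add {ν : Measure ℝ} [IsFiniteMeasure ν] (h2 : MemLp id 2 ν) (f g : LG) :
    IP ν (f + g) = IP ν f + IP ν g := by
  unfold IP
  rw [← integral_add (LG.integrable_prim f.2 h2) (LG.integrable_prim g.2 h2)]
  congr 1
  ext y
  exact intervalIntegral.integral_add (LG.intervalIntegrable f.2 _ _)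
    (LG.intervalIntegrable g.2 _ _)

lemma IP_smul (ν : Measure ℝ) (c : ℂ) (g : LG) : IP ν (c • g) = c * IP ν g := by
  unfold IP
  rw [← integral_const_mul]
  congr 1
  ext y
  exact intervalIntegral.integral_const_mul c _

lemma IP_sub {ν : Measure ℝ} [IsFiniteMeasure ν] (h2 : MemLp id 2 ν) (f g : LG) :
    IP ν (f - g) = IP ν f - IP ν g := by
  have := IP_add h2 (f - g) g
  rw [sub_add_cancel] at this
  rw [this]
  ring

lemma IP_ech_zero (ν : Measure ℝ) (h0 : ∫ x, x ∂ν = 0) : IP ν (ech 0) = 0 := by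
  have : ∀ y, prim (ech 0).1 y = (y : ℂ) := fun y => by simp [prim, ech]
  unfold IP
  simp_rw [this]
  rw [integral_complex_ofReal, h0]
  simp

lemma IP_ech (ν : Measure ℝ) [IsProbabilityMeasure ν] {w : ℝ} (hw : w ≠ 0) :
    IP ν (ech w) = (charFun ν w - 1) / (w * Complex.I) := by
  have hc : (w * Complex.I : ℂ) ≠ 0 := mul_ne_zero (by exact_mod_cast hw) Complex.I_ne_zero
  have : ∀ y, prim (ech w).1 y = (Complex.exp (w * y * Complex.I) - 1) / (w * Complex.I) :=
    fun y => by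
      have h := integral_exp_mul_complex (a := 0) (b := y) hc
      simp only [prim, ech]
      simp only [Complex.ofReal_zero, mul_zero, Complex.exp_zero] at h
      rw [mul_right_comm (w : ℂ) y, ← h]
      congr 1
      ext t
      rw [mul_right_comm]
  unfold IP
  simp_rw [this]
  rw [integral_div, integral_sub (integrable_cexp ν w) (integrable_const _), charFun_apply_real]
  simp

end Pool.Agent.Lib.MP_cc278a_pr
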