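import Pool.Agent.Lib.MP_cc278a_pr.SD4

set_option autoImplicit false
open MeasureTheory ProbabilityTheory Real Set Filter Topology
open scoped NNReal ENNReal InnerProductSpace ComplexConjugate

namespace Pool.Agent.Lib.MP_cc278a_pr

/-- Trigonometric polynomials. -/
def TP : Submodule ℂ LG := Submodule.span ℂ (Set.range ech)

/-- The underlying function is a trigonometric polynomial. -/
def IsTP (f : ℝ → ℂ) : Prop := ∃ g ∈ TP, g.1 = f

lemma IsTP.add {f g : ℝ → ℂ} (hf : IsTP f) (hg : IsTP g) : IsTP (fun y => f y + g y) := by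
  obtain ⟨a, ha, rfl⟩ := hf
  obtain ⟨b, hb, rfl⟩ := hg
  exact ⟨a + b, TP.add_mem ha hb, rfl⟩

lemma IsTP.smul {f : ℝ → ℂ} (hf : IsTP f) (c : ℂ) : IsTP (fun y => c * f y) := by
  obtain ⟨a, ha, rfl⟩ := hf
  exact ⟨c • a, TP.smul_mem c ha, rfl⟩

lemma IsTP.char (w : ℝ) : IsTP (fun y => Complex.exp (w * y * Complex.I)) :=
  ⟨ech w, Submodule.subset_span ⟨w, rfl⟩, rfl⟩

lemma IsTP.mul_char {f : ℝ → ℂ} (hf : IsTP f) (w : ℝ) :
    IsTP (fun y => f y * Complex.exp (w * y * Complex.I)) := by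
  obtain ⟨a, ha, rfl⟩ := hf
  induction ha using Submodule.span_induction with
  | mem x h =>
    obtain ⟨w', rfl⟩ := h
    have := IsTP.char (w' + w)
    refine ⟨_, this.choose_spec.1, this.choose_spec.2.trans ?_⟩
    ext y
    simp only [ech]
    rw [← Complex.exp_add]
    congr 1
    push_cast
    ring
  | zero => exact ⟨0, TP.zero_mem, by ext y; simp⟩
  | add x z _ _ hx hz =>
    have := hx.add hz
    refine ⟨_, this.choose_spec.1, this.choose_spec.2.trans ?_⟩
    ext y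
    simp [add_mul]
  | smul c x _ hx =>
    have := hx.smul c
    refine ⟨_, this.choose_spec.1, this.choose_spec.2.trans ?_⟩
    ext y
    simp [mul_assoc]

lemma IsTP.congr {f g : ℝ → ℂ} (hf : IsTP f) (h : ∀ y, f y = g y) : IsTP g := by
  rwa [← funext h]

lemma IsTP.sin_pow (k : ℝ) (n : ℕ) : IsTP (fun y => ((Real.sin (k * y) ^ n : ℝ) : ℂ)) := by
  induction n with
  | zero => exact (IsTP.char 0).congr fun y => by simp
  | succ n ih =>
    refine (((ih.mul_char (-k)).smul (Complex.I / 2)).add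
      ((ih.mul_char k).smul (-Complex.I / 2))).congr fun y => ?_
    push_cast
    rw [pow_succ, Complex.sin]
    ring_nf

lemma IsTP.poly (k : ℝ) (p : Polynomial ℝ) :
    IsTP (fun y => ((p.eval (Real.sin (k * y)) : ℝ) : ℂ)) := by
  induction p using Polynomial.induction_on' with
  | add p q hp hq => exact (hp.add hq).congr fun y => by simp
  | monomial n a => exact ((IsTP.sin_pow k n).smul a).congr fun y => by simp

lemma abs_arcsin_sin_le (x : ℝ) : |arcsin (sin x)| ≤ |x| := by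
  by_cases h : |x| ≤ π / 2
  · rw [arcsin_sin (abs_le.1 h).1 (abs_le.1 h).2]
  · exact (abs_le.2 ⟨neg_pi_div_two_le_arcsin _, arcsin_le_pi_div_two _⟩).trans (not_le.1 h).le

lemma exists_tp {a : ℝ → ℝ} (ha : Continuous a) {C : ℝ} (hC0 : 0 ≤ C)
    (hC : ∀ y, |a y| ≤ C * (1 + |y|)) {R : ℝ} (hR : 1 ≤ R) :
    ∃ g ∈ TP, (∀ y, ‖g.1 y‖ ≤ (C + 1) * (1 + |y|)) ∧ ∀ y, |y| ≤ R → ‖a y - g.1 y‖ ≤ 1 / R := by
  have hR0 : 0 < R := by linarith
  set k := π / 2 / R with hk
  have hk0 : 0 < k := by positivity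
  obtain ⟨p, hp⟩ := exists_polynomial_near_of_continuousOn (-1) 1 (fun t => a (arcsin t / k))
    (Continuous.continuousOn (by fun_prop)) (1 / R) (by positivity)
  obtain ⟨g, hg, he⟩ := IsTP.poly k p
  refine ⟨g, hg, fun y => ?_, fun y hy => ?_⟩
  · have h1 := hp (sin (k * y)) ⟨neg_one_le_sin _, sin_le_one _⟩
    have h2 : |arcsin (sin (k * y)) / k| ≤ |y| := by
      rw [abs_div, abs_of_pos hk0, div_le_iff₀ hk0]
      refine (abs_arcsin_sin_le _).trans ?_
      rw [abs_mul, abs_of_pos hk0, mul_comm]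
    have h3 := hC (arcsin (sin (k * y)) / k)
    have h4 : 1 / R ≤ 1 := by rw [div_le_one hR0]; exact hR
    rw [he, Complex.norm_real, Real.norm_eq_abs]
    have h5 := abs_sub_abs_le_abs_sub (p.eval (sin (k * y))) (a (arcsin (sin (k * y)) / k))
    nlinarith [abs_nonneg y, mul_le_mul_of_nonneg_left h2 hC0]
  · have h1 := hp (sin (k * y)) ⟨neg_one_le_sin _, sin_le_one _⟩
    have h2 : |k * y| ≤ π / 2 := by
      rw [abs_mul, abs_of_pos hk0, hk, div_mul_eq_mul_div, div_le_iff₀ hR0]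
      exact mul_le_mul_of_nonneg_left hy (by positivity)
    rw [arcsin_sin (abs_le.1 h2).1 (abs_le.1 h2).2, mul_div_cancel_left₀ _ hk0.ne'] at h1
    rw [he, ← Complex.ofReal_sub, Complex.norm_real, Real.norm_eq_abs, abs_sub_comm]
    exact h1.le

/-- Tail functional. -/
noncomputable def tl (c y : ℝ) : ℝ := max (y ^ 2 - c) 0

lemma integrable_tl {ν : Measure ℝ} [IsFiniteMeasure ν] (h2 : MemLp id 2 ν) (c : ℝ) :
    Integrable (tl c) ν := ((int_sq h2).sub (integrable_const c)).sup (integrable_const 0)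

lemma tl_conv {ν ζ : Measure ℝ} [IsProbabilityMeasure ν] [IsProbabilityMeasure ζ]
    (hν : MemLp id 2 ν) (hζ : MemLp id 2 ζ) (h0 : ∫ x, x ∂ζ = 0) (c : ℝ) :
    ∫ y, tl c y ∂ν ≤ ∫ y, tl c y ∂(ν ∗ ζ) := by
  have h1 := integrable_tl (memLp_conv hν hζ) c
  have hm : Continuous (tl c) := by unfold tl; fun_prop
  have h2 := (integrable_conv_iff hm.aestronglyMeasurable).1 h1
  have hpos : ∀ y, 0 ≤ tl c y := fun y => le_max_right _ _
  rw [integral_conv h1]
  refine integral_mono_ae (integrable_tl hν c)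
    (by simpa [abs_of_nonneg (hpos _)] using h2.2) (h2.1.mono fun y hy => ?_)
  refine max_le ?_ (integral_nonneg fun z => hpos _)
  have h3 : Integrable (fun z => (y + z) ^ 2) ζ := by
    have : MemLp (fun z => y + z) 2 ζ := (memLp_const y).add hζ
    simpa using this.integrable_sq
  have h4 : ∫ z, ((y + z) ^ 2 - c) ∂ζ ≤ ∫ z, tl c (y + z) ∂ζ :=
    integral_mono (h3.sub (integrable_const c)) hy fun z => le_max_left _ _
  rw [integral_sub h3 (integrable_const c), integral_add_sq hζ, h0] at h4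
  have h5 : 0 ≤ ∫ x, x ^ 2 ∂ζ := integral_nonneg fun x => sq_nonneg x
  simp only [integral_const, probReal_univ, smul_eq_mul, one_mul] at h4
  linarith

lemma tendsto_tl {ν : Measure ℝ} [IsFiniteMeasure ν] (h2 : MemLp id 2 ν) :
    Tendsto (fun n : ℕ => ∫ y, tl (((n : ℝ) + 1) ^ 2 / 2) y ∂ν) atTop (𝓝 0) := by
  have := tendsto_integral_of_dominated_convergence (μ := ν)
    (F := fun (n : ℕ) y => tl (((n : ℝ) + 1) ^ 2 / 2) y) (f := fun _ => 0) (fun y => y ^ 2)
    (fun n => (integrable_tl h2 _).aestronglyMeasurable) (int_sq h2)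
    (fun n => Eventually.of_forall fun y => by
      unfold tl
      rw [Real.norm_of_nonneg (le_max_right _ _)]
      exact max_le (by nlinarith [sq_nonneg ((n : ℝ) + 1)]) (sq_nonneg y))
    (Eventually.of_forall fun y => by
      refine tendsto_const_nhds.congr' ?_
      filter_upwards [eventually_ge_atTop ⌈2 * |y|⌉₊] with n hn
      have h1 := Nat.ceil_le.1 hn
      refine (max_eq_right ?_).symm
      rw [← sq_abs y]
      nlinarith [abs_nonneg y])
  simpa using this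

lemma approx {a : ℝ → ℝ} (ha : Continuous a) {C : ℝ} (hC0 : 0 ≤ C)
    (hC : ∀ y, |a y| ≤ C * (1 + |y|)) (A : LG) (hA : A.1 = fun y => (a y : ℂ))
    {νs : Measure ℝ} [IsProbabilityMeasure νs] (hs : MemLp id 2 νs) :
    ∃ (g : ℕ → LG) (e : ℕ → ℝ), (∀ n, g n ∈ TP) ∧ Tendsto e atTop (𝓝 0) ∧
      (∀ (ν ζ : Measure ℝ) [IsProbabilityMeasure ν] [IsProbabilityMeasure ζ], νs = ν ∗ ζ →
        ∫ x, x ∂ζ = 0 → ∀ n, nrm ν (A - g n) ≤ e n) ∧
      ∀ (ν : Measure ℝ) [IsProbabilityMeasure ν], MemLp id 2 ν →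
        Tendsto (fun n => IP ν (g n)) atTop (𝓝 (IP ν A)) := by
  have h1 : ∀ n : ℕ, (1 : ℝ) ≤ n + 1 := fun n => by linarith [n.cast_nonneg (α := ℝ)]
  choose g hg hb hn using fun n : ℕ => exists_tp ha hC0 hC (h1 n)
  refine ⟨g, fun n => √((1 / ((n : ℝ) + 1)) ^ 2
    + 8 * (2 * C + 1) ^ 2 * ∫ y, tl (((n : ℝ) + 1) ^ 2 / 2) y ∂νs), hg, ?_, ?_, ?_⟩
  · have := (((tendsto_one_div_add_atTop_nhds_zero_nat (𝕜 := ℝ)).pow 2).add
      ((tendsto_tl hs).const_mul (8 * (2 * C + 1) ^ 2))).sqrt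
    simpa using this
  · intro ν ζ _ _ he h0 n
    have hν : MemLp id 2 ν := memLp_left_of_conv (he ▸ hs)
    have hζ : MemLp id 2 ζ := memLp_right_of_conv (he ▸ hs)
    refine Real.sqrt_le_sqrt ?_
    have h2 := tl_conv hν hζ h0 (((n : ℝ) + 1) ^ 2 / 2)
    rw [← he] at h2
    have h3 : ∫ y, ‖(A - g n).1 y‖ ^ 2 ∂ν ≤ ∫ y, ((1 / ((n : ℝ) + 1)) ^ 2
        + 8 * (2 * C + 1) ^ 2 * tl (((n : ℝ) + 1) ^ 2 / 2) y) ∂ν := by
      refine integral_mono (LG.int_sq (A - g n).2 hν)
        ((integrable_const _).add ((integrable_tl hν _).const_mul _)) fun y => ?_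
      have h4 : (A - g n).1 y = a y - (g n).1 y := by simp [hA]
      have h5 : 0 ≤ tl (((n : ℝ) + 1) ^ 2 / 2) y := le_max_right _ _
      simp only
      rw [h4]
      rcases le_total |y| (n + 1) with h | h
      · have := pow_le_pow_left₀ (norm_nonneg _) (hn n y h) 2
        nlinarith [mul_nonneg (sq_nonneg (2 * C + 1)) h5]
      · have h6 : ‖(a y : ℂ) - (g n).1 y‖ ≤ (2 * C + 1) * (2 * |y|) := by
          refine (norm_sub_le _ _).trans ?_
          rw [Complex.norm_real, Real.norm_eq_abs]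
          have h7 : 1 + |y| ≤ 2 * |y| := by linarith [h1 n]
          nlinarith [hC y, hb n y, mul_le_mul_of_nonneg_left h7 hC0]
        have h7 := pow_le_pow_left₀ (norm_nonneg _) h6 2
        have h8 : y ^ 2 - ((n : ℝ) + 1) ^ 2 / 2 ≤ tl (((n : ℝ) + 1) ^ 2 / 2) y := le_max_left _ _
        have h9 : ((n : ℝ) + 1) ^ 2 ≤ y ^ 2 := by
          rw [← sq_abs y]; exact pow_le_pow_left₀ (by positivity) h 2
        rw [mul_pow, mul_pow, sq_abs] at h7
        have h10 : y ^ 2 ≤ 2 * tl (((n : ℝ) + 1) ^ 2 / 2) y := by linarith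
        nlinarith [mul_le_mul_of_nonneg_left h10 (sq_nonneg (2 * C + 1)),
          sq_nonneg (1 / ((n : ℝ) + 1))]
    rw [integral_add (integrable_const _) ((integrable_tl hν _).const_mul _),
      integral_const_mul] at h3
    simp only [integral_const, probReal_univ, smul_eq_mul, one_mul] at h3
    exact h3.trans (by gcongr)
  · intro ν _ hν
    refine tendsto_integral_of_dominated_convergence (fun y => 2 * (C + 1) * (1 + y ^ 2))
      (fun n => (LG.continuous_prim (g n).2).aestronglyMeasurable)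
      (((integrable_const (1 : ℝ)).add (int_sq hν)).const_mul _)
      (fun n => Eventually.of_forall (norm_prim_le (by positivity) (hb n)))
      (Eventually.of_forall fun y => ?_)
    rw [tendsto_iff_norm_sub_tendsto_zero]
    have hlim : Tendsto (fun n : ℕ => 1 / ((n : ℝ) + 1) * |y - 0|) atTop (𝓝 0) := by
      have := (tendsto_one_div_add_atTop_nhds_zero_nat (𝕜 := ℝ)).mul_const |y - 0|
      rwa [zero_mul] at this
    refine squeeze_zero' (Eventually.of_forall fun _ => norm_nonneg _) ?_ hlim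
    filter_upwards [eventually_ge_atTop ⌈|y|⌉₊] with n hn'
    have h2 := Nat.ceil_le.1 hn'
    unfold prim
    rw [norm_sub_rev, ← intervalIntegral.integral_sub (LG.intervalIntegrable A.2 _ _)
      (LG.intervalIntegrable (g n).2 _ _)]
    refine intervalIntegral.norm_integral_le_of_norm_le_const fun t ht => ?_
    rw [hA]
    refine hn n t ?_
    have : |t| ≤ |y| := by
      rcases mem_uIoc.1 ht with h | h
      · rw [abs_of_pos h.1]; exact h.2.trans (le_abs_self y)
      · rw [abs_of_nonpos h.2]; linarith [neg_abs_le y, h.1]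
    linarith

lemma nrm_sub_le {ν : Measure ℝ} [IsFiniteMeasure ν] (h2 : MemLp id 2 ν) (f g h : LG) :
    nrm ν (f - g) ≤ nrm ν (h - f) + nrm ν (h - g) := by
  have : f - g = (h - g) - (h - f) := by abel
  have h3 := norm_sub_le (toL2 ν h2 (h - g)) (toL2 ν h2 (h - f))
  rw [← map_sub, ← this, norm_toL2, norm_toL2, norm_toL2] at h3
  simpa [add_comm] using h3

lemma nrm_le {ν : Measure ℝ} [IsProbabilityMeasure ν] (h2 : MemLp id 2 ν) {g : ℝ → ℂ}
    (hg : g ∈ LG) {C : ℝ} (hC : ∀ y, ‖g y‖ ≤ C * (1 + |y|)) :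
    nrm ν g ≤ √(2 * C ^ 2 * (1 + ∫ y, y ^ 2 ∂ν)) := by
  refine Real.sqrt_le_sqrt ?_
  have h3 : ∫ y, ‖g y‖ ^ 2 ∂ν ≤ ∫ y, 2 * C ^ 2 * (1 + y ^ 2) ∂ν := by
    refine integral_mono (LG.int_sq hg h2)
      (((integrable_const (1 : ℝ)).add (int_sq h2)).const_mul _) fun y => ?_
    have h4 := pow_le_pow_left₀ (norm_nonneg _) (hC y) 2
    simp only
    rw [← sq_abs y]
    nlinarith [mul_nonneg (sq_nonneg C) (sq_nonneg (|y| - 1))]
  rw [integral_const_mul, integral_add (integrable_const _) (int_sq h2)] at h3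
  simpa using h3

lemma gibbs_conv {B μ : Measure ℝ} [IsProbabilityMeasure B] [IsProbabilityMeasure μ]
    {ε v : ℝ≥0} (hε : ε ≠ 0) (hv : v ≠ 0) (hB : MemLp id 2 B) (hμ : MemLp id 2 μ) (c : ℝ) :
    -Real.log (kap ε) - ∫ y, L0 B ε y ∂(B ∗ gaussianReal 0 ε)
      ≤ -Real.log (kap v) - ∫ y, L0 μ v (y - c) ∂(B ∗ gaussianReal 0 ε) := by
  have hε' : (0 : ℝ) < ε := by positivity
  have hc := continuous_bm (μ := B) hε' 0
  have hL := continuous_L0 (μ := B) hε' hB
  have hm2 : MemLp id 2 (B ∗ gaussianReal 0 ε) := memLp_conv hB (memLp_id_gaussianReal 2)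
  have hLi : Integrable (L0 B ε) (B ∗ gaussianReal 0 ε) :=
    (QG_L0 hε' hB).integrable (by fun_prop) hm2
  have hq : ∀ y, 0 < kap ε * bm B ε 0 y := fun y => mul_pos (kap_pos hε') (bm_zero_pos hε' hB _)
  have h1 : (B ∗ gaussianReal 0 ε).rnDeriv volume
      =ᵐ[volume] fun y => ENNReal.ofReal (kap ε * bm B ε 0 (y - 0)) := by
    rw [conv_gauss_eq hε 0]
    exact Measure.rnDeriv_withDensity _ (by fun_prop)
  have hac : B ∗ gaussianReal 0 ε ≪ volume := by
    rw [conv_gauss_eq hε 0]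
    exact withDensity_absolutelyContinuous _ _
  have hint : Integrable (fun x : ℝ =>
      Real.negMulLog (((B ∗ gaussianReal 0 ε).rnDeriv volume x).toReal)) := by
    have h2 : Integrable (fun y => -Real.log (kap ε) - L0 B ε y) (B ∗ gaussianReal 0 ε) :=
      (integrable_const _).sub hLi
    refine ((integrable_toReal_rnDeriv_mul_iff hac).2 h2).congr (h1.mono fun y hy => ?_)
    simp only at hy ⊢
    rw [hy, sub_zero, ENNReal.toReal_ofReal (hq _).le, Real.negMulLog,
      Real.log_mul (kap_pos hε').ne' (bm_zero_pos hε' hB _).ne']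
    unfold L0
    ring
  have h3 := gibbs hv hμ c (B ∗ gaussianReal 0 ε) hm2 hac hint
  rw [entropy_conv_gauss hε hB 0] at h3
  have h4 : ∫ t, ∫ x, L0 B ε (t + x) ∂B ∂(gaussianReal 0 ε)
      = ∫ y, L0 B ε y ∂(B ∗ gaussianReal 0 ε) := by
    rw [Measure.conv_comm] at hLi ⊢
    rw [integral_conv hLi]
  rwa [h4] at h3

end Pool.Agent.Lib.MP_cc278a_pr
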