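import Pool.Agent.Lib.MP_cc278a_pr.SD5

set_option autoImplicit false
open MeasureTheory ProbabilityTheory Real Set Filter Topology
open scoped NNReal ENNReal InnerProductSpace ComplexConjugate

namespace Pool.Agent.Lib.MP_cc278a_pr

/-- The smoothed path. -/
noncomputable abbrev nu (B : ℝ → Measure ℝ) (ε : ℝ≥0) (u : ℝ) : Measure ℝ :=
  B u ∗ gaussianReal 0 ε

/-- Data of the interpolation path. -/
structure Dat (B : ℝ → Measure ℝ) (ε : ℝ≥0) (χ χ' : ℝ → ℂ) (S t : ℝ) (νs : Measure ℝ) : Prop where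
  l2 : ∀ u, MemLp id 2 (B u)
  eps : ε ≠ 0
  tpos : 0 < t
  sq : ∀ u ∈ Icc (0 : ℝ) 1, ∫ x, x ^ 2 ∂(B u) = S
  sq' : ∀ u ∈ Icc (0 : ℝ) 1, ∫ x, x ^ 2 ∂(nu B ε u) = t
  mean : ∀ u ∈ Icc (0 : ℝ) 1, ∫ x, x ∂(nu B ε u) = 0
  cf : ∀ u ∈ Icc (0 : ℝ) 1, ∀ w : ℝ,
    charFun (nu B ε u) w = Complex.exp ((1 + u) * χ w - t * w ^ 2 / 2)
  sd : ∀ u ∈ Icc (0 : ℝ) 1, SD (nu B ε u)
  der : ∀ w, HasDerivAt χ (χ' w) w
  cont : Continuous χ'
  z0 : χ 0 = 0
  z1 : χ' 0 = 0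
  sl2 : MemLp id 2 νs
  dom : ∀ u ∈ Icc (0 : ℝ) 1, ∃ ζ : Measure ℝ, IsProbabilityMeasure ζ ∧ νs = nu B ε u ∗ ζ ∧
    ∫ x, x ∂ζ = 0

variable {B : ℝ → Measure ℝ} [∀ u, IsProbabilityMeasure (B u)] {ε : ℝ≥0} {χ χ' : ℝ → ℂ}
  {S t : ℝ} {νs : Measure ℝ}

omit [∀ u, IsProbabilityMeasure (B u)] in
lemma Dat.epos (h : Dat B ε χ χ' S t νs) : (0 : ℝ) < ε := by
  have := h.eps
  positivity

lemma Dat.nl2 (h : Dat B ε χ χ' S t νs) (u : ℝ) : MemLp id 2 (nu B ε u) :=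
  memLp_conv (h.l2 u) (memLp_id_gaussianReal 2)

/-- The centred score along the path. -/
noncomputable def Dat.sa (h : Dat B ε χ χ' S t νs) (u : ℝ) : LG :=
  ⟨fun y => (scr (B u) ε t y : ℂ), scr_mem h.epos (h.l2 u) t⟩

lemma Dat.sa_ech (h : Dat B ε χ χ' S t νs) {u : ℝ} (hu : u ∈ Icc (0 : ℝ) 1) (w : ℝ) :
    ∫ y, conj ((h.sa u).1 y) * (ech w).1 y ∂(nu B ε u)
      = Complex.I * (1 + u) * χ' w * charFun (nu B ε u) w := by
  have h1 : HasDerivAt (fun w : ℝ => Complex.exp ((1 + u) * χ w - t * w ^ 2 / 2))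
      (Complex.exp ((1 + u) * χ w - t * w ^ 2 / 2) * ((1 + u) * χ' w - t * w)) w := by
    have h2 := ((h.der w).const_mul (1 + u : ℂ)).sub
      ((((hasDerivAt_id w).ofReal_comp.pow 2).const_mul (t : ℂ)).div_const 2)
    refine HasDerivAt.congr_deriv h2.cexp ?_
    simp
    ring
  rw [← funext (h.cf u hu), ← h.cf u hu] at h1
  have h3 := scr_id h.eps (h.l2 u) t w h1
  refine h3.trans ?_
  ring

lemma Dat.good (h : Dat B ε χ χ' S t νs) {g : LG} (hg : g ∈ TP) :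
    ∃ k : ℝ → ℂ, ∀ u ∈ Icc (0 : ℝ) 1,
      HasDerivWithinAt (fun u => IP (nu B ε u) g) (-k u) (Icc 0 1) u ∧
      ‖k u‖ ≤ nrm (nu B ε u) (h.sa u) * nrm (nu B ε u) g ∧
      -(nrm (nu B ε u) (h.sa u) * nrm (nu B ε u) (h.sa u - g)) ≤ (k u).re := by
  let q : ℕ → ℝ := fun n => 1 - 1 / ((n : ℝ) + 1) / 2
  have hi : ∀ n : ℕ, 0 < 1 / ((n : ℝ) + 1) ∧ 1 / ((n : ℝ) + 1) ≤ 1 := fun n =>
    ⟨by positivity, by rw [div_le_one (by positivity)]; linarith [n.cast_nonneg (α := ℝ)]⟩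
  have q0 : ∀ n, 0 < q n := fun n => by simp only [q]; linarith [hi n]
  have q1 : ∀ n, q n < 1 := fun n => by simp only [q]; linarith [hi n]
  have hq : Tendsto q atTop (𝓝 1) := by
    have := ((tendsto_one_div_add_atTop_nhds_zero_nat (𝕜 := ℝ)).div_const 2).const_sub 1
    rwa [zero_div, sub_zero] at this
  choose N hN using fun n => exists_pow_lt_of_lt_one (hi n).1 (q1 n)
  have hN' : Tendsto (fun n => q n ^ N n) atTop (𝓝 0) :=
    squeeze_zero (fun n => pow_nonneg (q0 n).le _) (fun n => (hN n).le)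
      tendsto_one_div_add_atTop_nhds_zero_nat
  have hne : ∀ u ∈ Icc (0 : ℝ) 1, ∀ w, charFun (nu B ε u) w ≠ 0 := fun u hu w => by
    rw [h.cf u hu]; exact Complex.exp_ne_zero _
  have hex : ∀ u ∈ Icc (0 : ℝ) 1, ∀ n, ∃ Λ : LG →ₗ[ℂ] ℂ,
      (∀ g, ‖Λ g‖ ≤ nrm (nu B ε u) (h.sa u) * nrm (nu B ε u) g) ∧
      -(q n ^ N n * nrm (nu B ε u) (h.sa u) ^ 2) ≤ (Λ (h.sa u)).re ∧
      ∀ w, Λ (ech w) = Complex.I * (1 + u) * charFun (nu B ε u) w *
        ∑ j ∈ Finset.range (N n), (1 - (q n : ℂ)) * (q n : ℂ) ^ j * χ' (q n ^ j * w) := by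
    intro u hu n
    obtain ⟨κ, hκ, he⟩ := h.sd u hu (q n) (q0 n) (q1 n)
    obtain ⟨Λ, h1, h2, h3⟩ := exists_functional (h.nl2 u) (q0 n).le (q1 n) he (hne u hu)
      (h.sa u) (N n)
    refine ⟨Λ, h1, h2, fun w => ?_⟩
    rw [h3, Finset.mul_sum]
    refine Finset.sum_congr rfl fun j _ => ?_
    rw [h.sa_ech hu]
    field_simp [hne u hu]
  choose! Λ h1 h2 h3 using hex
  have key : ∃ k : ℝ → ℂ, ∀ u ∈ Icc (0 : ℝ) 1,
      HasDerivWithinAt (fun u => IP (nu B ε u) g) (-k u) (Icc 0 1) u ∧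
      Tendsto (fun n => Λ u n g) atTop (𝓝 ((1 + u) * k u)) := by
    induction hg using Submodule.span_induction with
    | mem x hx =>
      obtain ⟨w, rfl⟩ := hx
      by_cases hw : w = 0
      · subst hw
        refine ⟨0, fun u hu => ⟨?_, ?_⟩⟩
        · refine (hasDerivWithinAt_const u _ (0 : ℂ)).congr
            (fun u hu => IP_ech_zero _ (h.mean u hu)) (IP_ech_zero _ (h.mean u hu)) |>.congr_deriv
            (by simp)
        · simp [h3 u hu, h.z1]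
      · have hw' : (w : ℂ) ≠ 0 := by exact_mod_cast hw
        refine ⟨fun u => Complex.I * χ w * charFun (nu B ε u) w / w, fun u hu => ⟨?_, ?_⟩⟩
        · have h4 : ∀ u ∈ Icc (0 : ℝ) 1, IP (nu B ε u) (ech w)
              = (Complex.exp ((1 + u) * χ w - t * w ^ 2 / 2) - 1) / (w * Complex.I) :=
            fun u hu => by rw [IP_ech _ hw, h.cf u hu]
          have h5 := ((((((hasDerivAt_id u).ofReal_comp.const_add 1).mul_const (χ w)).sub_const
            (t * w ^ 2 / 2 : ℂ)).cexp.sub_const 1).div_const (w * Complex.I))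
          refine (h5.hasDerivWithinAt.congr h4 (h4 u hu)).congr_deriv ?_
          simp only [id, Complex.ofReal_one, one_mul]
          rw [h.cf u hu]
          field_simp
          rw [Complex.I_sq]
          ring
        · have h4 := (riemann h.cont h.der h.z0 (fun n => (q0 n).le) (fun n => (q1 n).le) hq hN'
            w).const_mul (Complex.I * (1 + u) * charFun (nu B ε u) w / w)
          refine (h4.congr fun n => ?_).trans (le_of_eq ?_)
          · rw [h3 u hu, Finset.mul_sum, Finset.mul_sum]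
            refine Finset.sum_congr rfl fun j _ => ?_
            field_simp
          · congr 1
            ring
    | zero =>
      refine ⟨0, fun u hu => ⟨?_, by simp⟩⟩
      have : ∀ u, IP (nu B ε u) 0 = 0 := fun u => by simp [IP, prim]
      simp only [this, Pi.zero_apply, neg_zero]
      exact hasDerivWithinAt_const _ _ _
    | add x y _ _ hx hy =>
      obtain ⟨k, hk⟩ := hx
      obtain ⟨l, hl⟩ := hy
      refine ⟨fun u => k u + l u, fun u hu => ⟨?_, ?_⟩⟩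
      · simp only [IP_add (h.nl2 _), neg_add]
        exact (hk u hu).1.add (hl u hu).1
      · simp only [map_add, mul_add]
        exact (hk u hu).2.add (hl u hu).2
    | smul c x _ hx =>
      obtain ⟨k, hk⟩ := hx
      refine ⟨fun u => c * k u, fun u hu => ⟨?_, ?_⟩⟩
      · simp only [IP_smul, ← mul_neg]
        exact (hk u hu).1.const_mul c
      · simp only [map_smul, smul_eq_mul, mul_left_comm _ c]
        exact (hk u hu).2.const_mul c
  obtain ⟨k, hk⟩ := key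
  refine ⟨k, fun u hu => ⟨(hk u hu).1, ?_, ?_⟩⟩
  · have h4 := le_of_tendsto' (hk u hu).2.norm fun n => h1 u hu n g
    rw [norm_mul, ← Complex.ofReal_one, ← Complex.ofReal_add, Complex.norm_real,
      Real.norm_of_nonneg (by linarith [hu.1])] at h4
    nlinarith [norm_nonneg (k u), hu.1]
  · have h4 := (Complex.continuous_re.tendsto _).comp (hk u hu).2
    have h5 := ((hN'.mul_const (nrm (nu B ε u) (h.sa u) ^ 2)).neg).sub_const
      (nrm (nu B ε u) (h.sa u) * nrm (nu B ε u) (h.sa u - g))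
    have h6 := le_of_tendsto_of_tendsto' h5 h4 fun n => by
      have h7 := h1 u hu n (h.sa u - g)
      have h8 := h2 u hu n
      rw [map_sub] at h7
      have h9 := (Complex.re_le_norm _).trans h7
      rw [Complex.sub_re] at h9
      simp only [Function.comp]
      push_cast at h9 ⊢
      linarith
    rw [← Complex.ofReal_one, ← Complex.ofReal_add, Complex.re_ofReal_mul] at h6
    have h7 := mul_nonneg (nrm_nonneg (nu B ε u) (h.sa u)) (nrm_nonneg (nu B ε u) (h.sa u - g))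
    by_contra hc
    nlinarith [hu.1]

lemma Dat.exists_bound (h : Dat B ε χ χ' S t νs) :
    ∃ A : ℝ, 0 ≤ A ∧ ∀ θ ∈ Icc (0 : ℝ) 1, ∀ u ∈ Icc (0 : ℝ) 1, nrm (nu B ε u) (h.sa θ) ≤ A := by
  refine ⟨√(2 * (|t| * ((2 * S + 2) / ε) + 1) ^ 2 * (1 + t)), Real.sqrt_nonneg _,
    fun θ hθ u hu => ?_⟩
  have := nrm_le (h.nl2 u) (h.sa θ).2 (C := |t| * ((2 * S + 2) / ε) + 1) fun y => by
    have h1 := abs_scr_le h.epos (h.l2 θ) t y
    rw [h.sq θ hθ] at h1
    simpa [Dat.sa] using h1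
  rwa [h.sq' u hu] at this

lemma Dat.lip_tp (h : Dat B ε χ χ' S t νs) {A e : ℝ}
    (hA : ∀ u ∈ Icc (0 : ℝ) 1, nrm (nu B ε u) (h.sa u) ≤ A) {g : LG} (hg : g ∈ TP)
    (he : ∀ u ∈ Icc (0 : ℝ) 1, nrm (nu B ε u) g ≤ e) {x y : ℝ} (hx : x ∈ Icc (0 : ℝ) 1)
    (hy : y ∈ Icc (0 : ℝ) 1) : ‖IP (nu B ε y) g - IP (nu B ε x) g‖ ≤ A * e * |y - x| := by
  obtain ⟨k, hk⟩ := h.good hg
  refine (convex_Icc (0 : ℝ) 1).norm_image_sub_le_of_norm_hasDerivWithin_le
    (fun u hu => (hk u hu).1) (fun u hu => ?_) hx hy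
  rw [norm_neg]
  exact (hk u hu).2.1.trans (mul_le_mul (hA u hu) (he u hu) (nrm_nonneg _ _)
    ((nrm_nonneg _ _).trans (hA u hu)))

variable [IsProbabilityMeasure νs]

lemma Dat.approx (h : Dat B ε χ χ' S t νs) (θ : ℝ) :
    ∃ (g : ℕ → LG) (e : ℕ → ℝ), (∀ n, g n ∈ TP) ∧ Tendsto e atTop (𝓝 0) ∧
      (∀ u ∈ Icc (0 : ℝ) 1, ∀ n, nrm (nu B ε u) (h.sa θ - g n) ≤ e n) ∧
      ∀ u, Tendsto (fun n => IP (nu B ε u) (g n)) atTop (𝓝 (IP (nu B ε u) (h.sa θ))) := by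
  have h3 : 0 ≤ ∫ x, x ^ 2 ∂(B θ) := integral_nonneg fun x => sq_nonneg x
  have := h.epos
  obtain ⟨g, e, h1, h2, h4, h5⟩ := Pool.Agent.Lib.MP_cc278a_pr.approx
    (continuous_scr h.epos (h.l2 θ) t) (by positivity) (abs_scr_le h.epos (h.l2 θ) t) (h.sa θ)
    rfl h.sl2
  refine ⟨g, e, h1, h2, fun u hu n => ?_, fun u => h5 _ (h.nl2 u)⟩
  obtain ⟨ζ, hζ, h6, h7⟩ := h.dom u hu
  exact h4 _ ζ h6 h7 n

lemma Dat.lip (h : Dat B ε χ χ' S t νs) {A e : ℝ}
    (hA : ∀ u ∈ Icc (0 : ℝ) 1, nrm (nu B ε u) (h.sa u) ≤ A) (θ : ℝ) {g : LG} (hg : g ∈ TP)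
    (he : ∀ u ∈ Icc (0 : ℝ) 1, nrm (nu B ε u) (h.sa θ - g) ≤ e) {x y : ℝ}
    (hx : x ∈ Icc (0 : ℝ) 1) (hy : y ∈ Icc (0 : ℝ) 1) :
    ‖IP (nu B ε y) (h.sa θ - g) - IP (nu B ε x) (h.sa θ - g)‖ ≤ A * e * |y - x| := by
  obtain ⟨G, E, h1, h2, h3, h4⟩ := h.approx θ
  have h5 := (((h4 y).sub_const (IP (nu B ε y) g)).sub
    ((h4 x).sub_const (IP (nu B ε x) g))).norm
  have h6 := ((h2.add_const e).const_mul A).mul_const |y - x|
  rw [zero_add] at h6
  rw [IP_sub (h.nl2 _), IP_sub (h.nl2 _)]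
  refine le_of_tendsto_of_tendsto' h5 h6 fun n => ?_
  rw [← IP_sub (h.nl2 _), ← IP_sub (h.nl2 _)]
  refine h.lip_tp hA (TP.sub_mem (h1 n) hg) (fun u hu => ?_) hx hy
  exact (nrm_sub_le (h.nl2 u) _ _ (h.sa θ)).trans (add_le_add (h3 u hu n) (he u hu))

/-- Entropy along the path, up to a constant. -/
noncomputable def ent (B : ℝ → Measure ℝ) (ε : ℝ≥0) (u : ℝ) : ℝ :=
  -∫ y, L0 (B u) ε y ∂(nu B ε u)

omit [IsProbabilityMeasure νs] in
lemma Dat.IP_sa (h : Dat B ε χ χ' S t νs) (θ : ℝ) {u : ℝ} (hu : u ∈ Icc (0 : ℝ) 1) :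
    (IP (nu B ε u) (h.sa θ)).re
      = -t * (∫ y, L0 (B θ) ε y ∂(nu B ε u)) + t * L0 (B θ) ε 0 - t / 2 := by
  have h1 : ∀ y, prim (h.sa θ).1 y
      = ((-t * L0 (B θ) ε y + t * L0 (B θ) ε 0 - y ^ 2 / 2 : ℝ) : ℂ) := fun y => by
    simp only [prim, Dat.sa]
    rw [intervalIntegral.integral_ofReal]
    congr 1
    have h2 : ∀ x ∈ uIcc 0 y, HasDerivAt (fun x => -t * L0 (B θ) ε x - x ^ 2 / 2)
        (scr (B θ) ε t x) x := fun x _ => by
      have := ((hasDerivAt_L0 h.epos (h.l2 θ) x).const_mul (-t)).sub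
        ((hasDerivAt_pow 2 x).div_const 2)
      refine HasDerivAt.congr_deriv this ?_
      simp [scr]
    rw [intervalIntegral.integral_eq_sub_of_hasDerivAt h2
      ((continuous_scr h.epos (h.l2 θ) t).intervalIntegrable _ _)]
    ring
  have hLi : Integrable (L0 (B θ) ε) (nu B ε u) :=
    (QG_L0 h.epos (h.l2 θ)).integrable (continuous_L0 h.epos (h.l2 θ)).measurable (h.nl2 u)
  have h2 : Integrable (fun y => -t * L0 (B θ) ε y + t * L0 (B θ) ε 0) (nu B ε u) :=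
    (hLi.const_mul _).add (integrable_const _)
  unfold IP
  simp_rw [h1]
  rw [integral_complex_ofReal, Complex.ofReal_re, integral_sub h2 ((int_sq (h.nl2 u)).div_const _),
    integral_add (hLi.const_mul _) (integrable_const _), integral_const_mul, integral_div,
    h.sq' u hu]
  simp

omit [IsProbabilityMeasure νs] in
lemma Dat.ent_le (h : Dat B ε χ χ' S t νs) {x y : ℝ} (hx : x ∈ Icc (0 : ℝ) 1)
    (hy : y ∈ Icc (0 : ℝ) 1) :
    t * (ent B ε y - ent B ε x) ≤ (IP (nu B ε y) (h.sa x) - IP (nu B ε x) (h.sa x)).re := by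
  have h1 := gibbs_conv h.eps h.eps (h.l2 y) (h.l2 x) 0
  simp only [sub_zero] at h1
  rw [Complex.sub_re, h.IP_sa x hx, h.IP_sa x hy]
  unfold ent
  nlinarith [h.tpos]

theorem Dat.core (h : Dat B ε χ χ' S t νs) : ent B ε 1 ≤ ent B ε 0 := by
  obtain ⟨A, hA0, hA⟩ := h.exists_bound
  have ht := h.tpos
  have hl : ∀ x ∈ Icc (0 : ℝ) 1, ∀ y ∈ Icc (0 : ℝ) 1,
      ent B ε y - ent B ε x ≤ A * A / t * |y - x| := fun x hx y hy => by
    have h1 := h.lip (fun u hu => hA u hu u hu) x TP.zero_mem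
      (fun u hu => by simpa using hA x hx u hu) hx hy
    rw [sub_zero] at h1
    have h2 := (h.ent_le hx hy).trans ((Complex.re_le_norm _).trans h1)
    rw [div_mul_eq_mul_div, le_div_iff₀ ht]
    linarith
  have hc : ContinuousOn (ent B ε) (Icc 0 1) := by
    refine (LipschitzOnWith.of_dist_le' (K := A * A / t) fun x hx y hy => ?_).continuousOn
    rw [Real.dist_eq, Real.dist_eq, abs_le]
    have h1 := hl x hx y hy
    have h2 := hl y hy x hx
    rw [abs_sub_comm] at h1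
    constructor <;> linarith
  refine image_le_of_liminf_slope_right_le_deriv_boundary (B := fun _ => ent B ε 0)
    (B' := fun _ => 0) hc le_rfl continuousOn_const
    (fun x _ => hasDerivWithinAt_const _ _ _) (fun x hx r hr => ?_) ⟨zero_le_one, le_rfl⟩
  have hx' : x ∈ Icc (0 : ℝ) 1 := Ico_subset_Icc_self hx
  obtain ⟨G, E, h1, h2, h3, -⟩ := h.approx x
  have h4 : Tendsto (fun n => 2 * A * E n) atTop (𝓝 0) := by simpa using h2.const_mul (2 * A)
  obtain ⟨n, hn⟩ := (h4.eventually (gt_mem_nhds (mul_pos ht hr))).exists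
  obtain ⟨k, hk⟩ := h.good (h1 n)
  obtain ⟨hk1, -, hk3⟩ := hk x hx'
  have h5 : -(k x).re ≤ A * E n := by
    have := mul_le_mul (hA x hx' x hx') (h3 x hx' n) (nrm_nonneg _ _) hA0
    linarith
  have h6 : 𝓝[>] x ≤ 𝓝[Icc 0 1 \ {x}] x := by
    refine nhdsWithin_le_iff.2 (mem_of_superset (Ioo_mem_nhdsGT hx.2) fun z hz => ?_)
    exact ⟨⟨hx.1.trans hz.1.le, hz.2.le⟩, hz.1.ne'⟩
  have h7 := (Complex.continuous_re.tendsto _).comp
    ((hasDerivWithinAt_iff_tendsto_slope.1 hk1).mono_left h6)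
  have h8 : (-k x).re < t * r - A * E n := by
    rw [Complex.neg_re]; linarith
  refine Eventually.frequently ?_
  filter_upwards [h7.eventually (gt_mem_nhds h8), Ioo_mem_nhdsGT hx.2] with z hz1 hz2
  have hz' : z ∈ Icc (0 : ℝ) 1 := ⟨hx.1.trans hz2.1.le, hz2.2.le⟩
  have hzx : 0 < z - x := by linarith [hz2.1]
  have h9 := h.ent_le hx' hz'
  have h10 := (Complex.re_le_norm _).trans
    (h.lip (fun u hu => hA u hu u hu) x (h1 n) (fun u hu => h3 u hu n) hx' hz')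
  rw [IP_sub (h.nl2 _), IP_sub (h.nl2 _), abs_of_pos hzx] at h10
  simp only [Function.comp, slope_def_module, Complex.real_smul, Complex.re_ofReal_mul] at hz1
  rw [inv_mul_lt_iff₀ hzx] at hz1
  rw [slope_def_field, div_lt_iff₀ hzx]
  simp only [Complex.sub_re] at h9 h10 hz1
  refine lt_of_mul_lt_mul_left ?_ ht.le
  nlinarith

end Pool.Agent.Lib.MP_cc278a_pr
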