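import Pool.Agent.Lib.MP_cc278a_pr.SD6

set_option autoImplicit false
open MeasureTheory ProbabilityTheory Real Set Filter Topology
open scoped NNReal ENNReal InnerProductSpace ComplexConjugate

namespace Pool.Agent.Lib.MP_cc278a_pr

lemma IsCF.congr {f g : ℝ → ℂ} (hf : IsCF f) (h : ∀ w, f w = g w) : IsCF g := by
  rwa [← funext h]

lemma IsCF.gauss {b : ℝ} (hb : 0 ≤ b) : IsCF (fun w => Complex.exp (-(b * w ^ 2 / 2))) :=
  ⟨gaussianReal 0 b.toNNReal, inferInstance, fun w => by
    rw [charFun_gaussianReal, Real.coe_toNNReal _ hb]; simp⟩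

lemma moments_lin {P L : ℝ → ℂ} {v : ℝ} (hd : ∀ w, HasDerivAt P (L w) w) (hP0 : P 0 = 0)
    (hL0 : L 0 = 0) (hL1 : HasDerivAt L (-(v : ℂ)) 0) {m : Measure ℝ} [IsProbabilityMeasure m]
    (h2 : MemLp id 2 m) (a b : ℝ)
    (he : ∀ w : ℝ, charFun m w = Complex.exp (a * P w - b * w ^ 2 / 2)) :
    ∫ x, x ∂m = 0 ∧ ∫ x, x ^ 2 ∂m = a * v + b := by
  refine moments_of_exp h2 (F := fun w => a * P w - b * w ^ 2 / 2)
    (F' := fun w => a * L w - b * w) (fun w => ?_) (by simp [hP0]) (by simp [hL0]) ?_ he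
  · have h3 := ((hd w).const_mul (a : ℂ)).sub
      ((((hasDerivAt_id w).ofReal_comp.pow 2).const_mul (b : ℂ)).div_const 2)
    refine HasDerivAt.congr_deriv h3 ?_
    simp
    ring
  · have h3 := (hL1.const_mul (a : ℂ)).sub ((hasDerivAt_id (0 : ℝ)).ofReal_comp.const_mul (b : ℂ))
    refine HasDerivAt.congr_deriv h3 ?_
    simp
    ring

theorem centred_smooth {μ : Measure ℝ} [IsProbabilityMeasure μ] (hs : SD μ) (h2 : MemLp id 2 μ)
    (h0 : ∫ x, x ∂μ = 0) {v ε : ℝ≥0} (hv : ∫ x, x ^ 2 ∂μ = v) (hε : ε ≠ 0) :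
    -∫ y, L0 (μ ∗ μ) ε y ∂((μ ∗ μ) ∗ gaussianReal 0 ε)
      ≤ -∫ y, L0 (μ ∗ gaussianReal 0 v) ε y ∂((μ ∗ gaussianReal 0 v) ∗ gaussianReal 0 ε) := by
  obtain ⟨P, L, hL, hd, hP0, hL0, hL1, he⟩ := exists_exponent h2 h0 (hs.charFun_ne h2 h0)
  rw [hv] at hL1
  have hv0 : (0 : ℝ) ≤ v := v.2
  have hε0 : (0 : ℝ) < ε := by positivity
  have hfr : ∀ s ∈ Icc (0 : ℝ) 1, IsCF (fun w => Complex.exp (s * P w)) := fun s hs' =>
    (hs.frac hL hd hP0 he hs'.1 hs'.2 le_rfl zero_lt_one).congr fun w => by simp [hP0]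
  set νs := (μ ∗ μ) ∗ gaussianReal 0 (v + ε) with hνs
  have hs2 : MemLp id 2 νs := memLp_conv (memLp_conv h2 h2) (memLp_id_gaussianReal 2)
  have hdom : ∀ u ∈ Icc (0 : ℝ) 1, ∀ b : Measure ℝ, IsProbabilityMeasure b →
      (∀ w : ℝ, charFun b w
        = Complex.exp ((1 + u : ℝ) * P w - ((1 - u) * v : ℝ) * w ^ 2 / 2)) →
      ∃ ζ : Measure ℝ, IsProbabilityMeasure ζ ∧ νs = (b ∗ gaussianReal 0 ε) ∗ ζ ∧
        ∫ x, x ∂ζ = 0 := by
    intro u hu b hb hc
    obtain ⟨ζ, hζ, h3⟩ := (hfr (1 - u) ⟨by linarith [hu.2], by linarith [hu.1]⟩).mul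
      (IsCF.gauss (mul_nonneg hu.1 hv0))
    have h4 : νs = (b ∗ gaussianReal 0 ε) ∗ ζ := by
      refine Measure.ext_of_charFun (funext fun w => ?_)
      simp only [hνs, charFun_conv, charFun_gaussianReal, he, hc, h3, ← Complex.exp_add]
      congr 1
      push_cast
      ring
    refine ⟨ζ, hζ, h4, (moments_lin hd hP0 hL0 hL1 (memLp_right_of_conv (h4 ▸ hs2)) (1 - u)
      (u * v) fun w => ?_).1⟩
    simp only [h3, ← Complex.exp_add]
    congr 1
  have hB : ∀ u : ℝ, ∃ b : Measure ℝ, IsProbabilityMeasure b ∧ MemLp id 2 b ∧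
      (u ∈ Icc (0 : ℝ) 1 → ∀ w : ℝ, charFun b w
        = Complex.exp ((1 + u : ℝ) * P w - ((1 - u) * v : ℝ) * w ^ 2 / 2)) := by
    intro u
    by_cases hu : u ∈ Icc (0 : ℝ) 1
    · obtain ⟨b, hb, h3⟩ := ((hfr 1 ⟨zero_le_one, le_rfl⟩).mul (hfr u hu)).mul
        (IsCF.gauss (mul_nonneg (by linarith [hu.2] : 0 ≤ 1 - u) hv0))
      have h4 : ∀ w : ℝ, charFun b w
          = Complex.exp ((1 + u : ℝ) * P w - ((1 - u) * v : ℝ) * w ^ 2 / 2) := fun w => by
        simp only [h3, ← Complex.exp_add]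
        congr 1
        push_cast
        ring
      obtain ⟨ζ, hζ, h5, -⟩ := hdom u hu b hb h4
      exact ⟨b, hb, memLp_left_of_conv (memLp_left_of_conv (h5 ▸ hs2)), fun _ => h4⟩
    · exact ⟨μ, inferInstance, h2, fun h => absurd h hu⟩
  choose B hBp hB2 hBc using hB
  have hnu : ∀ u ∈ Icc (0 : ℝ) 1, ∀ w : ℝ, charFun (nu B ε u) w
      = Complex.exp ((1 + u : ℝ) * P w - ((1 - u) * v + ε : ℝ) * w ^ 2 / 2) := fun u hu w => by
    simp only [charFun_conv, charFun_gaussianReal, hBc u hu, ← Complex.exp_add]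
    congr 1
    push_cast
    ring
  have hm := fun u (hu : u ∈ Icc (0 : ℝ) 1) => moments_lin hd hP0 hL0 hL1
    (memLp_conv (hB2 u) (memLp_id_gaussianReal 2)) _ _ (hnu u hu)
  have hdat : Dat B ε (fun w => P w + v * w ^ 2 / 2) (fun w => L w + v * w) (2 * v) (2 * v + ε)
      νs :=
    { l2 := hB2
      eps := hε
      tpos := by positivity
      sq := fun u hu => by
        rw [(moments_lin hd hP0 hL0 hL1 (hB2 u) _ _ (hBc u hu)).2]; ring
      sq' := fun u hu => by rw [(hm u hu).2]; ring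
      mean := fun u hu => (hm u hu).1
      cf := fun u hu w => by
        rw [hnu u hu]
        congr 1
        push_cast
        ring
      sd := fun u hu c c0 c1 => by
        have hc2 : 0 ≤ 1 - c ^ 2 := by nlinarith
        obtain ⟨κ, hκ, h3⟩ := ((hs.frac hL hd hP0 he zero_le_one le_rfl c0.le c1).mul
          (hs.frac hL hd hP0 he hu.1 hu.2 c0.le c1)).mul
          (IsCF.gauss (mul_nonneg hc2 (add_nonneg
            (mul_nonneg (by linarith [hu.2] : 0 ≤ 1 - u) hv0) hε0.le)))
        have hp : IsProbabilityMeasure ((nu B ε u).map (fun x => c * x)) :=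
          Measure.isProbabilityMeasure_map (by fun_prop)
        refine ⟨κ, hκ, Measure.ext_of_charFun (funext fun w => ?_)⟩
        rw [charFun_conv (μ := (nu B ε u).map (fun x => c * x)), charFun_map_mul, hnu u hu,
          hnu u hu, h3]
        simp only [← Complex.exp_add]
        congr 1
        push_cast
        ring
      der := fun w => by
        have h3 := (hd w).add
          ((((hasDerivAt_id w).ofReal_comp.pow 2).const_mul ((v : ℝ) : ℂ)).div_const 2)
        refine HasDerivAt.congr_deriv h3 ?_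
        simp
        ring
      cont := by fun_prop
      z0 := by simp [hP0]
      z1 := by simp [hL0]
      sl2 := hs2
      dom := fun u hu => hdom u hu (B u) (hBp u) (hBc u hu) }
  have h5 := hdat.core
  have hB1 : B 1 = μ ∗ μ := by
    refine Measure.ext_of_charFun (funext fun w => ?_)
    simp only [hBc 1 ⟨zero_le_one, le_rfl⟩, charFun_conv, he, ← Complex.exp_add]
    congr 1
    push_cast
    ring
  have hB0 : B 0 = μ ∗ gaussianReal 0 v := by
    refine Measure.ext_of_charFun (funext fun w => ?_)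
    simp only [hBc 0 ⟨le_rfl, zero_le_one⟩, charFun_conv, charFun_gaussianReal, he,
      ← Complex.exp_add]
    congr 1
    push_cast
    ring
  unfold ent nu at h5
  rwa [hB1, hB0] at h5

lemma continuous_T_L0 {μ b : Measure ℝ} [IsProbabilityMeasure μ] [IsProbabilityMeasure b]
    (h2 : MemLp id 2 μ) (hb : MemLp id 2 b) {v : ℝ} (hv : 0 < v) : Continuous (T μ (L0 b v)) :=
  continuous_iff_continuousAt.2 fun t => (hasDerivAt_T h2 (QG_L0 hv hb) (QG_L1 hv hb)
    (hasDerivAt_L0 hv hb) (continuous_L1 hv hb).measurable t).continuousAt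

lemma integral_conv_T {μ b g : Measure ℝ} [IsProbabilityMeasure μ] [IsProbabilityMeasure b]
    [IsProbabilityMeasure g] (h2 : MemLp id 2 μ) (hb : MemLp id 2 b) (hg : MemLp id 2 g)
    {v : ℝ} (hv : 0 < v) : ∫ y, L0 b v y ∂(μ ∗ g) = ∫ t, T μ (L0 b v) t ∂g := by
  have hLi : Integrable (L0 b v) (μ ∗ g) :=
    (QG_L0 hv hb).integrable (continuous_L0 hv hb).measurable (memLp_conv h2 hg)
  rw [Measure.conv_comm] at hLi ⊢
  rw [integral_conv hLi]
  rfl

lemma entropy_le_smooth {b : Measure ℝ} [IsProbabilityMeasure b] (hb : MemLp id 2 b) (c : ℝ)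
    (hac : b.map (· + c) ≪ volume)
    (hint : Integrable (fun x : ℝ => Real.negMulLog (((b.map (· + c)).rnDeriv volume x).toReal)))
    {ε : ℝ≥0} (hε : ε ≠ 0) :
    ∫ x : ℝ, Real.negMulLog (((b.map (· + c)).rnDeriv volume x).toReal)
      ≤ -Real.log (kap ε) - ∫ y, L0 b ε y ∂(b ∗ gaussianReal 0 ε) := by
  have hε0 : (0 : ℝ) < ε := by positivity
  have hp : IsProbabilityMeasure (b.map (· + c)) := Measure.isProbabilityMeasure_map (by fun_prop)
  have hm : MemLp id 2 (b.map (· + c)) := by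
    rw [memLp_map_measure_iff (by fun_prop) (by fun_prop)]
    exact hb.add (memLp_const c)
  have hL := continuous_L0 hε0 hb
  have h1 : ∀ t, ∫ x : ℝ, Real.negMulLog (((b.map (· + c)).rnDeriv volume x).toReal)
      ≤ -Real.log (kap ε) - T b (L0 b ε) t := fun t => by
    have := gibbs hε hb (c - t) _ hm hac hint
    rw [integral_map (by fun_prop) (by fun_prop)] at this
    refine this.trans (le_of_eq ?_)
    unfold T
    congr 2
    ext x
    congr 1
    ring
  have hi : Integrable (T b (L0 b ε)) (gaussianReal 0 ε) :=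
    (QG_T hb (QG_L0 hε0 hb)).integrable (continuous_T_L0 hb hb hε0).measurable
      (memLp_id_gaussianReal 2)
  have h3 := integral_mono (μ := gaussianReal 0 ε) (integrable_const _)
    ((integrable_const _).sub hi) h1
  rw [integral_conv_T hb hb (memLp_id_gaussianReal 2) hε0]
  simp only [Pi.sub_apply] at h3
  rw [integral_sub (integrable_const _) hi] at h3
  simpa using h3

theorem centred_main {μ : Measure ℝ} [IsProbabilityMeasure μ] (hs : SD μ) (h2 : MemLp id 2 μ)
    (h0 : ∫ x, x ∂μ = 0) {v : ℝ≥0} (hv : ∫ x, x ^ 2 ∂μ = v) (hv0 : v ≠ 0) (c m : ℝ)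
    (hac : (μ ∗ μ).map (· + c) ≪ volume)
    (hint : Integrable
      (fun x : ℝ => Real.negMulLog ((((μ ∗ μ).map (· + c)).rnDeriv volume x).toReal))) :
    ∫ x : ℝ, Real.negMulLog ((((μ ∗ μ).map (· + c)).rnDeriv volume x).toReal)
      ≤ ∫ x : ℝ, Real.negMulLog (((μ ∗ gaussianReal m v).rnDeriv volume x).toReal) := by
  have hv' : (0 : ℝ) < v := by positivity
  have hF := continuous_T_L0 h2 h2 hv'
  obtain ⟨C, hC0, hC⟩ := QG_T h2 (QG_L0 hv' h2)
  have hi : ∀ n : ℕ, 0 < 1 / ((n : ℝ) + 1) ∧ 1 / ((n : ℝ) + 1) ≤ 1 := fun n =>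
    ⟨by positivity, by rw [div_le_one (by positivity)]; linarith [n.cast_nonneg (α := ℝ)]⟩
  have h1 : ∀ n : ℕ, ∫ x : ℝ, Real.negMulLog ((((μ ∗ μ).map (· + c)).rnDeriv volume x).toReal)
      ≤ -Real.log (kap v)
        - ∫ t, T μ (L0 μ v) ((1 + 1 / ((n : ℝ) + 1)) * t) ∂(gaussianReal 0 v) := fun n => by
    set a := 1 + 1 / ((n : ℝ) + 1) with ha
    have ha1 : 0 < (a ^ 2 - 1) * v := mul_pos (by nlinarith [hi n]) hv'
    have hε : ((a ^ 2 - 1) * v).toNNReal ≠ 0 := by simpa using ha1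
    have h3 := entropy_le_smooth (memLp_conv h2 h2) c hac hint hε
    have h4 := centred_smooth hs h2 h0 hv hε
    have h5 := gibbs_conv hε hv0 (memLp_conv h2 (memLp_id_gaussianReal (μ := 0) (v := v) 2)) h2 0
    simp only [sub_zero] at h5
    have h6 : (μ ∗ gaussianReal 0 v) ∗ gaussianReal 0 ((a ^ 2 - 1) * v).toNNReal
        = μ ∗ (gaussianReal 0 v).map (a * ·) := by
      rw [Measure.conv_assoc, gaussianReal_conv_gaussianReal, gaussianReal_map_const_mul]
      congr 2
      · simp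
      · ext
        simp only [NNReal.coe_add, NNReal.coe_mul, NNReal.coe_mk, Real.coe_toNNReal _ ha1.le]
        ring
    have hp : IsProbabilityMeasure ((gaussianReal 0 v).map (a * ·)) :=
      Measure.isProbabilityMeasure_map (by fun_prop)
    have h7 : ∫ y, L0 μ v y ∂((μ ∗ gaussianReal 0 v) ∗ gaussianReal 0 ((a ^ 2 - 1) * v).toNNReal)
        = ∫ t, T μ (L0 μ v) (a * t) ∂(gaussianReal 0 v) := by
      rw [h6, integral_conv_T h2 h2 (memLp_map_mul (memLp_id_gaussianReal 2) a) hv',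
        integral_map (by fun_prop) (by fun_prop)]
    linarith
  have hg2 : MemLp id 2 (gaussianReal 0 v) := memLp_id_gaussianReal 2
  have h3 := tendsto_integral_of_dominated_convergence (μ := gaussianReal 0 v)
    (F := fun (n : ℕ) t => T μ (L0 μ v) ((1 + 1 / ((n : ℝ) + 1)) * t)) (f := T μ (L0 μ v))
    (fun t => C * (1 + 4 * t ^ 2)) (fun n => by fun_prop)
    (((integrable_const (1 : ℝ)).add ((int_sq hg2).const_mul 4)).const_mul C)
    (fun n => Eventually.of_forall fun t => by
      refine (hC _).trans (mul_le_mul_of_nonneg_left ?_ hC0)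
      have h4 : (1 + 1 / ((n : ℝ) + 1)) ^ 2 ≤ 4 := by nlinarith [hi n]
      rw [mul_pow]
      nlinarith [sq_nonneg t])
    (Eventually.of_forall fun t => by
      have h4 := ((tendsto_one_div_add_atTop_nhds_zero_nat (𝕜 := ℝ)).const_add 1).mul_const t
      rw [add_zero, one_mul] at h4
      exact (hF.tendsto t).comp h4)
  rw [entropy_conv_gauss hv0 h2 m]
  exact ge_of_tendsto' (h3.const_sub (-Real.log (kap v))) h1

lemma charFun_shift (μ : Measure ℝ) (r w : ℝ) :
    charFun (μ.map (· + r)) w = charFun μ w * Complex.exp (w * r * Complex.I) := by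
  rw [charFun_map_add_const]
  simp [mul_comm]

theorem law_main {μ : Measure ℝ} [IsProbabilityMeasure μ] (hs : SD μ) (h2 : MemLp id 2 μ)
    {v : ℝ≥0} (hv : variance id μ = v) (m : ℝ) (hac : μ ∗ μ ≪ volume)
    (hint : Integrable (fun x : ℝ => Real.negMulLog (((μ ∗ μ).rnDeriv volume x).toReal))) :
    ∫ x : ℝ, Real.negMulLog (((μ ∗ μ).rnDeriv volume x).toReal)
      ≤ ∫ x : ℝ, Real.negMulLog (((μ ∗ gaussianReal m v).rnDeriv volume x).toReal) := by
  set e := ∫ x, x ∂μ with he
  set μ0 := μ.map (· + -e) with hμ0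
  have hp : IsProbabilityMeasure μ0 := Measure.isProbabilityMeasure_map (by fun_prop)
  have h3 : MemLp id 2 μ0 := by
    rw [memLp_map_measure_iff (by fun_prop) (by fun_prop)]
    exact h2.add (memLp_const (-e))
  have h4 : ∫ x, x ∂μ0 = 0 := by
    rw [integral_map (by fun_prop) (by fun_prop), integral_add (int_id h2) (integrable_const _)]
    simp [he]
  have h5 : ∫ x, x ^ 2 ∂μ0 = v := by
    rw [integral_map (by fun_prop) (by fun_prop), ← hv, variance_eq_integral (by fun_prop)]
    rfl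
  have hp2 : IsProbabilityMeasure ((μ0 ∗ μ0).map (· + 2 * e)) :=
    Measure.isProbabilityMeasure_map (by fun_prop)
  have h6 : μ ∗ μ = (μ0 ∗ μ0).map (· + 2 * e) := by
    refine Measure.ext_of_charFun (funext fun w => ?_)
    simp only [hμ0, charFun_shift, charFun_conv]
    have : Complex.exp (w * ((-e : ℝ) : ℂ) * Complex.I) * Complex.exp (w * ((-e : ℝ) : ℂ) * Complex.I)
        * Complex.exp (w * ((2 * e : ℝ) : ℂ) * Complex.I) = 1 := by
      rw [← Complex.exp_add, ← Complex.exp_add, ← Complex.exp_zero]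
      congr 1
      push_cast
      ring
    linear_combination (-(charFun μ w) ^ 2) * this
  have h7 : μ ∗ gaussianReal m v = μ0 ∗ gaussianReal (m + e) v := by
    refine Measure.ext_of_charFun (funext fun w => ?_)
    simp only [hμ0, charFun_shift, charFun_conv, charFun_gaussianReal, mul_assoc,
      ← Complex.exp_add]
    congr 2
    push_cast
    ring
  have h8 : SD μ0 := by
    intro c c0 c1
    obtain ⟨ρ, hρ, h9⟩ := hs c c0 c1
    have hp3 : IsProbabilityMeasure (μ.map (fun x => c * x)) :=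
      Measure.isProbabilityMeasure_map (by fun_prop)
    have hp4 : IsProbabilityMeasure (μ0.map (fun x => c * x)) :=
      Measure.isProbabilityMeasure_map (by fun_prop)
    have hp5 : IsProbabilityMeasure (ρ.map (· + -((1 - c) * e))) :=
      Measure.isProbabilityMeasure_map (by fun_prop)
    refine ⟨ρ.map (· + -((1 - c) * e)), hp5, Measure.ext_of_charFun (funext fun w => ?_)⟩
    have h10 : charFun μ w = charFun μ (c * w) * charFun ρ w := by
      conv_lhs => rw [h9, charFun_conv, charFun_map_mul]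
    rw [charFun_conv, charFun_map_mul, hμ0, charFun_shift, charFun_shift, charFun_shift, h10]
    have : Complex.exp (w * ((-e : ℝ) : ℂ) * Complex.I)
        = Complex.exp (((c * w : ℝ) : ℂ) * ((-e : ℝ) : ℂ) * Complex.I)
          * Complex.exp (w * ((-((1 - c) * e) : ℝ) : ℂ) * Complex.I) := by
      rw [← Complex.exp_add]
      congr 1
      push_cast
      ring
    rw [this]
    ring
  have hv0 : v ≠ 0 := by
    intro h
    rw [h] at hv
    have h9 := ae_eq_integral_of_variance_eq_zero h2 hv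
    have h10 : μ = Measure.dirac e := by
      refine Measure.ext_of_charFun (funext fun w => ?_)
      rw [charFun_apply_real, charFun_apply_real, integral_dirac,
        integral_congr_ae (g := fun _ => Complex.exp (w * e * Complex.I))
          (h9.mono fun x hx => by simp only [id] at hx ⊢; rw [hx])]
      simp
    rw [h10, Measure.dirac_conv_dirac] at hac
    have := hac (measure_singleton (e + e))
    simp at this
  rw [h6] at hac hint ⊢
  rw [h7]
  exact centred_main h8 h3 h4 h5 hv0 _ _ hac hint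

theorem selfdecomposable (Ω : Type) [MeasurableSpace Ω] (P : Measure Ω) [IsProbabilityMeasure P]
    (X₁ X₂ G : Ω → ℝ) (h1 : Measurable X₁) (h2 : Measurable X₂) (hG : Measurable G)
    (hL : MemLp X₁ 2 P) (hid : IdentDistrib X₁ X₂ P P) (hi12 : IndepFun X₁ X₂ P)
    (hi1G : IndepFun X₁ G P)
    (hg : ∃ m : ℝ, P.map G = gaussianReal m (variance X₁ P).toNNReal) (hs : SD (P.map X₁))
    (hac : P.map (X₁ + X₂) ≪ (volume : Measure ℝ))
    (hint : Integrable
      (fun x : ℝ => Real.negMulLog (((P.map (X₁ + X₂)).rnDeriv volume x).toReal))) :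
    ∫ x : ℝ, Real.negMulLog (((P.map (X₁ + X₂)).rnDeriv volume x).toReal)
      ≤ ∫ x : ℝ, Real.negMulLog (((P.map (X₁ + G)).rnDeriv volume x).toReal) := by
  obtain ⟨m, hm⟩ := hg
  have : IsProbabilityMeasure (P.map X₁) := Measure.isProbabilityMeasure_map h1.aemeasurable
  have hL' : MemLp id 2 (P.map X₁) := by
    rw [memLp_map_measure_iff (by fun_prop) h1.aemeasurable]; exact hL
  have hvar : variance id (P.map X₁) = variance X₁ P := by
    rw [variance_map (by fun_prop) h1.aemeasurable]; rfl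
  rw [hi12.map_add_eq_map_conv_map h1 h2, ← hid.map_eq] at hac hint ⊢
  rw [hi1G.map_add_eq_map_conv_map h1 hG, hm]
  exact law_main hs hL' (by rw [hvar, Real.coe_toNNReal _ (variance_nonneg _ _)]) m hac hint

end Pool.Agent.Lib.MP_cc278a_pr
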