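import Mathlib

set_option autoImplicit false
open MeasureTheory Set Filter Topology

namespace Pool.Agent.Lib.MP_cc278a_pr

lemma ae_zero_of_nonneg {w : ℝ → ℝ} (hi : Integrable w) (h0 : ∫ z, w z = 0)
    (hw : ∀ᵐ z, 0 ≤ w z) : ∀ᵐ z, w z = 0 :=
  (integral_eq_zero_iff_of_nonneg_ae hw hi).1 h0

lemma ae_zero_of_nonpos {w : ℝ → ℝ} (hi : Integrable w) (h0 : ∫ z, w z = 0)
    (hw : ∀ᵐ z, w z ≤ 0) : ∀ᵐ z, w z = 0 := by
  have h1 : ∫ z, -w z = 0 := by rw [integral_neg, h0, neg_zero]
  have := ae_zero_of_nonneg (w := fun z => -w z) hi.neg h1 (hw.mono fun z hz => by linarith)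
  exact this.mono fun z hz => by linarith

lemma ae_sq_ne (s : ℝ) : ∀ᵐ z : ℝ, z ^ 2 ≠ s := by
  have h1 : ∀ᵐ z : ℝ, z ≠ √s := by simp [ae_iff, measure_singleton]
  have h2 : ∀ᵐ z : ℝ, z ≠ -√s := by simp [ae_iff, measure_singleton]
  filter_upwards [h1, h2] with z hz1 hz2 h
  have : √s = |z| := by rw [← h, Real.sqrt_sq_eq_abs]
  rcases abs_cases z with h3 | h3
  · exact hz1 (by linarith [h3.1])
  · exact hz2 (by linarith [h3.1])

lemma one_cross {w : ℝ → ℝ} (hi : Integrable w) (hi2 : Integrable fun z => z ^ 2 * w z)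
    (h0 : ∫ z, w z = 0) (hp : ∀ z1 z2, z1 ^ 2 ≤ z2 ^ 2 → w z1 < 0 → w z2 ≤ 0) :
    ∫ z, z ^ 2 * w z ≤ 0 := by
  by_cases hne : ∃ z, w z < 0
  · set S : Set ℝ := {s | ∃ z, w z < 0 ∧ z ^ 2 = s} with hS
    have hSne : S.Nonempty := by obtain ⟨z, hz⟩ := hne; exact ⟨_, z, hz, rfl⟩
    have hSb : BddBelow S := ⟨0, by rintro _ ⟨z, -, rfl⟩; positivity⟩
    have h1 : ∫ z, z ^ 2 * w z = ∫ z, (z ^ 2 * w z - sInf S * w z) := by
      rw [integral_sub hi2 (hi.const_mul _), integral_const_mul, h0]; simp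
    rw [h1]
    refine integral_nonpos fun z => ?_
    simp only [Pi.zero_apply]
    rcases lt_trichotomy (z ^ 2) (sInf S) with h | h | h
    · have : 0 ≤ w z := by
        by_contra hc
        have := csInf_le hSb ⟨z, not_le.1 hc, rfl⟩
        linarith
      nlinarith
    · rw [h]; simp
    · obtain ⟨_, ⟨z1, hz1, rfl⟩, h2⟩ := exists_lt_of_csInf_lt hSne h
      have := hp z1 z h2.le hz1
      nlinarith
  · push Not at hne
    have := ae_zero_of_nonneg hi h0 (Eventually.of_forall hne)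
    rw [integral_congr_ae (g := fun _ => 0) (this.mono fun z hz => by simp [hz])]
    simp

lemma concave_secant {k : ℝ → ℝ} (hk : ConcaveOn ℝ (Ici 0) k) {a b s : ℝ} (ha : 0 ≤ a)
    (hab : a < b) (hs : 0 ≤ s) :
    (a ≤ s → s ≤ b → 0 ≤ k s - (k a + (k b - k a) / (b - a) * (s - a))) ∧
    (s ≤ a → k s - (k a + (k b - k a) / (b - a) * (s - a)) ≤ 0) ∧
    (b ≤ s → k s - (k a + (k b - k a) / (b - a) * (s - a)) ≤ 0) := by
  have hb : 0 ≤ b := ha.trans hab.le
  have hba : 0 < b - a := sub_pos.2 hab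
  have key : ∀ x y z : ℝ, 0 ≤ x → x ≤ y → y ≤ z → (z - y) * k x + (y - x) * k z ≤ (z - x) * k y := by
    intro x y z hx hxy hyz
    rcases (hxy.trans hyz).eq_or_lt with h | h
    · subst h
      have : y = x := le_antisymm hyz hxy
      subst this; simp
    · have hzx : 0 < z - x := sub_pos.2 h
      have h1 := hk.2 (show x ∈ Ici (0 : ℝ) from hx) (show z ∈ Ici (0 : ℝ) from hx.trans h.le)
        (show 0 ≤ (z - y) / (z - x) from div_nonneg (by linarith) hzx.le)
        (show 0 ≤ (y - x) / (z - x) from div_nonneg (by linarith) hzx.le) (by field_simp; ring)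
      simp only [smul_eq_mul] at h1
      have h2 : (z - y) / (z - x) * x + (y - x) / (z - x) * z = y := by field_simp; ring
      rw [h2] at h1
      have h3 := mul_le_mul_of_nonneg_left h1 hzx.le
      have h4 : (z - x) * ((z - y) / (z - x) * k x + (y - x) / (z - x) * k z)
          = (z - y) * k x + (y - x) * k z := by field_simp
      linarith
  have e : k s - (k a + (k b - k a) / (b - a) * (s - a))
      = ((b - a) * k s - (b - s) * k a - (s - a) * k b) / (b - a) := by field_simp; ring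
  rw [e]
  refine ⟨fun h1 h2 => div_nonneg ?_ hba.le, fun h1 => div_nonpos_of_nonpos_of_nonneg ?_ hba.le,
    fun h1 => div_nonpos_of_nonpos_of_nonneg ?_ hba.le⟩
  · have := key a s b ha h1 h2; linarith
  · have := key s a b hs h1 hab.le; linarith
  · have := key a b s ha hab.le h1; linarith

lemma two_cross {d k : ℝ → ℝ} (hi : Integrable d) (hi2 : Integrable fun t => t ^ 2 * d t)
    (hik : Integrable fun t => k (t ^ 2) * d t) (h0 : ∫ t, d t = 0) (h2 : ∫ t, t ^ 2 * d t = 0)
    (hk : ConcaveOn ℝ (Ici 0) k)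
    (hp : ∀ t1 t2 t3, t1 ^ 2 ≤ t2 ^ 2 → t2 ^ 2 ≤ t3 ^ 2 → 0 < d t1 → 0 < d t3 → 0 ≤ d t2) :
    0 ≤ ∫ t, k (t ^ 2) * d t := by
  have hz : (∀ᵐ t, d t = 0) → 0 ≤ ∫ t, k (t ^ 2) * d t := fun h => by
    rw [integral_congr_ae (g := fun _ => 0) (h.mono fun z hz => by simp [hz])]
    simp
  by_cases hne : ∃ t, 0 < d t
  swap
  · push Not at hne
    exact hz (ae_zero_of_nonpos hi h0 (Eventually.of_forall hne))
  set S : Set ℝ := {s | ∃ z, 0 < d z ∧ z ^ 2 = s} with hS
  have hSne : S.Nonempty := by obtain ⟨z, hz⟩ := hne; exact ⟨_, z, hz, rfl⟩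
  have hSb : BddBelow S := ⟨0, by rintro _ ⟨z, -, rfl⟩; positivity⟩
  have ha0 : 0 ≤ sInf S := le_csInf hSne (by rintro _ ⟨z, -, rfl⟩; positivity)
  have hlow : ∀ t, t ^ 2 < sInf S → d t ≤ 0 := fun t ht => by
    by_contra hc
    have := csInf_le hSb ⟨t, not_le.1 hc, rfl⟩
    linarith
  by_cases hSa : BddAbove S
  swap
  · apply hz
    have hint : Integrable fun t => t ^ 2 * d t - sInf S * d t := hi2.sub (hi.const_mul _)
    have h1 : ∫ t, (t ^ 2 * d t - sInf S * d t) = 0 := by
      rw [integral_sub hi2 (hi.const_mul _), integral_const_mul, h0, h2]; simp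
    have h3 := ae_zero_of_nonneg hint h1 (Eventually.of_forall fun t => by
      rcases lt_trichotomy (t ^ 2) (sInf S) with h | h | h
      · have := hlow t h; nlinarith
      · rw [h]; simp
      · obtain ⟨_, ⟨z1, hz1, rfl⟩, h4⟩ := exists_lt_of_csInf_lt hSne h
        rw [not_bddAbove_iff] at hSa
        obtain ⟨_, ⟨z3, hz3, rfl⟩, h5⟩ := hSa (t ^ 2)
        have := hp z1 t z3 h4.le h5.le hz1 hz3
        nlinarith)
    filter_upwards [h3, ae_sq_ne (sInf S)] with t ht1 ht2
    have : (t ^ 2 - sInf S) * d t = 0 := by linarith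
    rcases mul_eq_zero.1 this with h | h
    · exact absurd (sub_eq_zero.1 h) ht2
    · exact h
  have hhigh : ∀ t, sSup S < t ^ 2 → d t ≤ 0 := fun t ht => by
    by_contra hc
    have := le_csSup hSa ⟨t, not_le.1 hc, rfl⟩
    linarith
  rcases (csInf_le_csSup hSne hSb hSa).eq_or_lt with hab | hab
  · apply hz
    refine ae_zero_of_nonpos hi h0 ?_
    filter_upwards [ae_sq_ne (sInf S)] with t ht
    rcases lt_or_gt_of_ne ht with h | h
    · exact hlow t h
    · exact hhigh t (hab ▸ h)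
  set a := sInf S
  set b := sSup S
  set m := (k b - k a) / (b - a) with hm
  have hint : Integrable fun t => (k a - m * a) * d t + m * (t ^ 2 * d t) :=
    (hi.const_mul _).add (hi2.const_mul _)
  have h1 : ∫ t, k (t ^ 2) * d t
      = ∫ t, (k (t ^ 2) * d t - ((k a - m * a) * d t + m * (t ^ 2 * d t))) := by
    rw [integral_sub hik hint, integral_add (hi.const_mul _) (hi2.const_mul _),
      integral_const_mul, integral_const_mul, h0, h2]; simp
  rw [h1]
  refine integral_nonneg fun t => ?_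
  simp only [Pi.zero_apply]
  have e : k (t ^ 2) * d t - ((k a - m * a) * d t + m * (t ^ 2 * d t))
      = (k (t ^ 2) - (k a + m * (t ^ 2 - a))) * d t := by ring
  rw [e]
  obtain ⟨c1, c2, c3⟩ := concave_secant hk ha0 hab (sq_nonneg t)
  rcases lt_trichotomy (t ^ 2) a with h | h | h
  · exact mul_nonneg_of_nonpos_of_nonpos (c2 h.le) (hlow t h)
  · rw [h]; simp
  rcases lt_trichotomy (t ^ 2) b with h' | h' | h'
  · obtain ⟨_, ⟨z1, hz1, rfl⟩, h4⟩ := exists_lt_of_csInf_lt hSne h
    obtain ⟨_, ⟨z3, hz3, rfl⟩, h5⟩ := exists_lt_of_lt_csSup hSne h'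
    exact mul_nonneg (c1 h.le h'.le) (hp z1 t z3 h4.le h5.le hz1 hz3)
  · have := le_antisymm (c3 h'.ge) (c1 h.le h'.le)
    rw [hm, this]; simp
  · exact mul_nonneg_of_nonpos_of_nonpos (c3 h'.le) (hhigh t h')

lemma even_anti {a : ℝ → ℝ} (he : ∀ x, a (-x) = a x) (ha : AntitoneOn a (Ici 0)) {x y : ℝ}
    (h : x ^ 2 ≤ y ^ 2) : a y ≤ a x := by
  have h1 : ∀ x, a |x| = a x := fun x => by
    rcases abs_cases x with h | h <;> rw [h.1]
    exact he x
  rw [← h1 x, ← h1 y]
  exact ha (abs_nonneg x) (abs_nonneg y) (sq_le_sq.1 h)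

/-- Wintner: the convolution of two symmetric unimodal functions is unimodal. -/
lemma wintner {a p : ℝ → ℝ} (hae : ∀ x, a (-x) = a x) (ha : AntitoneOn a (Ici 0))
    (hpe : ∀ x, p (-x) = p x) (hp : AntitoneOn p (Ici 0))
    (hi : ∀ t, Integrable fun x => p x * a (t + x)) :
    AntitoneOn (fun t => ∫ x, p x * a (t + x)) (Ici 0) := by
  intro t1 ht1 t2 ht2 h12
  simp only [mem_Ici] at ht1 ht2
  set c := (t1 + t2) / 2 with hc
  set d := (t2 - t1) / 2 with hd
  have hc0 : 0 ≤ c := by rw [hc]; linarith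
  have hd0 : 0 ≤ d := by rw [hd]; linarith
  have hs : ∀ t e : ℝ, Integrable (fun z => p (z - e) * a (z + t)) ∧
      ∫ z, p (z - e) * a (z + t) = ∫ x, p x * a (t + e + x) := fun t e => by
    have e1 : (fun z => p (z - e) * a (z + t)) = fun z => (fun x => p x * a (t + e + x)) (z - e) := by
      ext z; simp only; congr 2; ring
    rw [e1]
    exact ⟨(hi (t + e)).comp_sub_right e, integral_sub_right_eq_self (fun x => p x * a (t + e + x)) e⟩
  have hev : ∀ t : ℝ, ∫ x, p x * a (-t + x) = ∫ x, p x * a (t + x) := fun t => by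
    rw [← integral_neg_eq_self]
    congr 1; ext x
    rw [hpe, ← hae]; congr 2; ring
  obtain ⟨i1, e1⟩ := hs (-d) c
  obtain ⟨i2, e2⟩ := hs d c
  obtain ⟨i3, e3⟩ := hs (-d) (-c)
  obtain ⟨i4, e4⟩ := hs d (-c)
  have f1 : -d + c = t1 := by rw [hc, hd]; ring
  have f2 : d + c = t2 := by rw [hc, hd]; ring
  have f3 : -d + -c = -t2 := by rw [hc, hd]; ring
  have f4 : d + -c = -t1 := by rw [hc, hd]; ring
  rw [f1] at e1; rw [f2] at e2; rw [f3, hev] at e3; rw [f4, hev] at e4
  have i12 : Integrable fun z => p (z - c) * a (z + -d) - p (z - c) * a (z + d) := i1.sub i2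
  have i34 : Integrable fun z => p (z - -c) * a (z + -d) - p (z - -c) * a (z + d) := i3.sub i4
  have h0 : 0 ≤ ∫ z, ((p (z - c) * a (z + -d) - p (z - c) * a (z + d))
      - (p (z - -c) * a (z + -d) - p (z - -c) * a (z + d))) := by
    refine integral_nonneg fun z => ?_
    simp only [Pi.zero_apply]
    have e : (p (z - c) * a (z + -d) - p (z - c) * a (z + d))
      - (p (z - -c) * a (z + -d) - p (z - -c) * a (z + d))
      = (p (z - c) - p (z - -c)) * (a (z + -d) - a (z + d)) := by ring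
    rw [e]
    rcases le_total 0 z with hz | hz
    · apply mul_nonneg
      · exact sub_nonneg.2 (even_anti hpe hp (by nlinarith))
      · exact sub_nonneg.2 (even_anti hae ha (by nlinarith))
    · apply mul_nonneg_of_nonpos_of_nonpos
      · exact sub_nonpos.2 (even_anti hpe hp (by nlinarith))
      · exact sub_nonpos.2 (even_anti hae ha (by nlinarith))
  rw [integral_sub i12 i34, integral_sub i1 i2, integral_sub i3 i4, e1, e2, e3, e4] at h0
  simp only
  linarith

/-- An even function whose second derivative decreases on the half line is a concave function of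
the square. -/
lemma concave_sqrt {f f1 f2 : ℝ → ℝ} (h1 : ∀ t, HasDerivAt f (f1 t) t)
    (h2 : ∀ t, HasDerivAt f1 (f2 t) t) (h0 : f1 0 = 0) (ha : AntitoneOn f2 (Ici 0)) :
    ConcaveOn ℝ (Ici 0) (fun s => f (√s)) := by
  have hc1 : ConcaveOn ℝ (Ici 0) f1 := by
    refine AntitoneOn.concaveOn_of_deriv (convex_Ici 0)
      (fun t _ => (h2 t).continuousAt.continuousWithinAt)
      (fun t _ => (h2 t).differentiableAt.differentiableWithinAt) ?_
    intro x hx y hy hxy
    rw [(h2 x).deriv, (h2 y).deriv]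
    exact ha (interior_subset hx) (interior_subset hy) hxy
  have hd : ∀ s : ℝ, 0 < s → HasDerivAt (fun s => f (√s)) (f1 (√s) * (1 / (2 * √s))) s :=
    fun s hs => (h1 (√s)).comp s (Real.hasDerivAt_sqrt hs.ne')
  have hcf : Continuous f := continuous_iff_continuousAt.2 fun y => (h1 y).continuousAt
  refine AntitoneOn.concaveOn_of_deriv (convex_Ici 0) (by fun_prop) ?_ ?_
  · intro s hs
    rw [interior_Ici] at hs
    exact (hd s hs).differentiableAt.differentiableWithinAt
  · intro x hx y hy hxy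
    rw [interior_Ici] at hx hy
    rw [(hd x hx).deriv, (hd y hy).deriv]
    have hx' : 0 < √x := Real.sqrt_pos.2 hx
    have hy' : 0 < √y := Real.sqrt_pos.2 hy
    have hxy' : √x ≤ √y := Real.sqrt_le_sqrt hxy
    obtain ⟨c1, -, -⟩ := concave_secant hc1 le_rfl hy' hx'.le
    have := c1 hx'.le hxy'
    rw [h0] at this
    simp only [sub_zero, zero_add] at this
    rw [mul_one_div, mul_one_div, div_le_div_iff₀ (by positivity) (by positivity)]
    have h3 : f1 √y / √y * √x ≤ f1 √x := by linarith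
    rw [div_mul_eq_mul_div, div_le_iff₀ hy'] at h3
    nlinarith

end Pool.Agent.Lib.MP_cc278a_pr
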