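import Pool.Agent.Lib.MP_cc278a_pr.Pot

set_option autoImplicit false
open MeasureTheory Set Filter Topology

namespace Pool.Agent.Lib.MP_cc278a_pr

lemma ae_ne_zero : ∀ᵐ t : ℝ, t ≠ 0 := by simp [ae_iff, measure_singleton]

lemma two_cross_gen {d A B : ℝ → ℝ} (hi : Integrable d) (hiA : Integrable fun t => A (t ^ 2) * d t)
    (hiB : Integrable fun t => B (t ^ 2) * d t) (h0 : ∫ t, d t = 0)
    (hA0 : ∫ t, A (t ^ 2) * d t = 0) (hA : StrictMonoOn A (Ici 0))
    (hB : ∀ a b, 0 ≤ a → a < b → ∃ α β : ℝ, ∀ s, 0 ≤ s →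
      (a ≤ s → s ≤ b → 0 ≤ B s - (α + β * A s)) ∧ (s ≤ a → B s - (α + β * A s) ≤ 0) ∧
      (b ≤ s → B s - (α + β * A s) ≤ 0))
    (hp : ∀ t1 t2 t3, t1 ≠ 0 → t1 ^ 2 ≤ t2 ^ 2 → t2 ^ 2 ≤ t3 ^ 2 → 0 < d t1 → 0 < d t3 →
      0 ≤ d t2) :
    0 ≤ ∫ t, B (t ^ 2) * d t := by
  have hz : (∀ᵐ t, d t = 0) → 0 ≤ ∫ t, B (t ^ 2) * d t := fun h => by
    rw [integral_congr_ae (g := fun _ => 0) (h.mono fun z hz => by simp [hz])]
    simp
  by_cases hne : ∃ t, t ≠ 0 ∧ 0 < d t
  swap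
  · push Not at hne
    exact hz (ae_zero_of_nonpos hi h0 (ae_ne_zero.mono hne))
  set S : Set ℝ := {s | ∃ z, z ≠ 0 ∧ 0 < d z ∧ z ^ 2 = s} with hS
  have hSne : S.Nonempty := by obtain ⟨z, hz, hz'⟩ := hne; exact ⟨_, z, hz, hz', rfl⟩
  have hSb : BddBelow S := ⟨0, by rintro _ ⟨z, -, -, rfl⟩; positivity⟩
  have ha0 : 0 ≤ sInf S := le_csInf hSne (by rintro _ ⟨z, -, -, rfl⟩; positivity)
  have hlow : ∀ t, t ≠ 0 → t ^ 2 < sInf S → d t ≤ 0 := fun t ht0 ht => by
    by_contra hc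
    have := csInf_le hSb ⟨t, ht0, not_le.1 hc, rfl⟩
    linarith
  by_cases hSa : BddAbove S
  swap
  · apply hz
    have hint : Integrable fun t => A (t ^ 2) * d t - A (sInf S) * d t := hiA.sub (hi.const_mul _)
    have h1 : ∫ t, (A (t ^ 2) * d t - A (sInf S) * d t) = 0 := by
      rw [integral_sub hiA (hi.const_mul _), integral_const_mul, h0, hA0]; simp
    have h3 := ae_zero_of_nonneg hint h1 (ae_ne_zero.mono fun t ht0 => by
      rcases lt_trichotomy (t ^ 2) (sInf S) with h | h | h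
      · have := hlow t ht0 h
        have := hA (sq_nonneg t) ha0 h
        nlinarith
      · rw [h]; simp
      · obtain ⟨_, ⟨z1, hz0, hz1, rfl⟩, h4⟩ := exists_lt_of_csInf_lt hSne h
        rw [not_bddAbove_iff] at hSa
        obtain ⟨_, ⟨z3, -, hz3, rfl⟩, h5⟩ := hSa (t ^ 2)
        have := hp z1 t z3 hz0 h4.le h5.le hz1 hz3
        have := hA ha0 (sq_nonneg t) h
        nlinarith)
    filter_upwards [h3, ae_sq_ne (sInf S)] with t ht1 ht2
    have : (A (t ^ 2) - A (sInf S)) * d t = 0 := by linarith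
    rcases mul_eq_zero.1 this with h | h
    · exact absurd (hA.injOn (sq_nonneg t) ha0 (sub_eq_zero.1 h)) ht2
    · exact h
  have hhigh : ∀ t, t ≠ 0 → sSup S < t ^ 2 → d t ≤ 0 := fun t ht0 ht => by
    by_contra hc
    have := le_csSup hSa ⟨t, ht0, not_le.1 hc, rfl⟩
    linarith
  rcases (csInf_le_csSup hSne hSb hSa).eq_or_lt with hab | hab
  · apply hz
    refine ae_zero_of_nonpos hi h0 ?_
    filter_upwards [ae_sq_ne (sInf S), ae_ne_zero] with t ht ht0
    rcases lt_or_gt_of_ne ht with h | h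
    · exact hlow t ht0 h
    · exact hhigh t ht0 (hab ▸ h)
  obtain ⟨α, β, hαβ⟩ := hB _ _ ha0 hab
  have hint : Integrable fun t => α * d t + β * (A (t ^ 2) * d t) :=
    (hi.const_mul _).add (hiA.const_mul _)
  have h1 : ∫ t, B (t ^ 2) * d t
      = ∫ t, (B (t ^ 2) * d t - (α * d t + β * (A (t ^ 2) * d t))) := by
    rw [integral_sub hiB hint, integral_add (hi.const_mul _) (hiA.const_mul _),
      integral_const_mul, integral_const_mul, h0, hA0]; simp
  rw [h1]
  refine integral_nonneg_of_ae (ae_ne_zero.mono fun t ht0 => ?_)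
  simp only [Pi.zero_apply]
  have e : B (t ^ 2) * d t - (α * d t + β * (A (t ^ 2) * d t))
      = (B (t ^ 2) - (α + β * A (t ^ 2))) * d t := by ring
  rw [e]
  obtain ⟨c1, c2, c3⟩ := hαβ _ (sq_nonneg t)
  rcases lt_trichotomy (t ^ 2) (sInf S) with h | h | h
  · exact mul_nonneg_of_nonpos_of_nonpos (c2 h.le) (hlow t ht0 h)
  · rw [le_antisymm (c2 h.le) (c1 h.ge (h ▸ hab.le))]; simp
  rcases lt_trichotomy (t ^ 2) (sSup S) with h' | h' | h'
  · obtain ⟨_, ⟨z1, hz0, hz1, rfl⟩, h4⟩ := exists_lt_of_csInf_lt hSne h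
    obtain ⟨_, ⟨z3, -, hz3, rfl⟩, h5⟩ := exists_lt_of_lt_csSup hSne h'
    exact mul_nonneg (c1 h.le h'.le) (hp z1 t z3 hz0 h4.le h5.le hz1 hz3)
  · rw [le_antisymm (c3 h'.ge) (c1 h.le h'.le)]; simp
  · exact mul_nonneg_of_nonpos_of_nonpos (c3 h'.le) (hhigh t ht0 h')

lemma concave_sqrt' {f f1 : ℝ → ℝ} (h1 : ∀ t, HasDerivAt f (f1 t) t)
    (ha : AntitoneOn (fun t => f1 t / t) (Ioi 0)) :
    ConcaveOn ℝ (Ici 0) (fun s => f (√s)) := by
  have hd : ∀ s : ℝ, 0 < s → HasDerivAt (fun s => f (√s)) (f1 (√s) * (1 / (2 * √s))) s :=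
    fun s hs => (h1 (√s)).comp s (Real.hasDerivAt_sqrt hs.ne')
  have hcf : Continuous f := continuous_iff_continuousAt.2 fun y => (h1 y).continuousAt
  refine AntitoneOn.concaveOn_of_deriv (convex_Ici 0) (by fun_prop) ?_ ?_
  · intro s hs
    rw [interior_Ici] at hs
    exact (hd s hs).differentiableAt.differentiableWithinAt
  · intro x hx y hy hxy
    rw [interior_Ici] at hx hy
    rw [(hd x hx).deriv, (hd y hy).deriv]
    have hx' : 0 < √x := Real.sqrt_pos.2 hx
    have hy' : 0 < √y := Real.sqrt_pos.2 hy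
    have := ha hx' hy' (Real.sqrt_le_sqrt hxy)
    simp only at this
    have e : ∀ z w : ℝ, w * (1 / (2 * z)) = w / z / 2 := fun z w => by
      rw [mul_one_div, div_div, mul_comm]
    rw [e, e]
    linarith

lemma anti_ratio {f1 f2 : ℝ → ℝ} (h2 : ∀ t, HasDerivAt f1 (f2 t) t)
    (h : ∀ t, 0 < t → t * f2 t ≤ f1 t) : AntitoneOn (fun t => f1 t / t) (Ioi 0) := by
  have hd : ∀ t : ℝ, 0 < t → HasDerivAt (fun t => f1 t / t) ((f2 t * t - f1 t * 1) / t ^ 2) t :=
    fun t ht => (h2 t).div (hasDerivAt_id t) ht.ne'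
  refine antitoneOn_of_deriv_nonpos (convex_Ioi 0)
    (fun t ht => (hd t ht).continuousAt.continuousWithinAt)
    (fun t ht => (hd t (interior_subset ht)).differentiableAt.differentiableWithinAt) fun t ht => ?_
  have ht' : 0 < t := interior_subset ht
  rw [(hd t ht').deriv]
  exact div_nonpos_of_nonpos_of_nonneg (by linarith [h t ht']) (sq_nonneg t)

/-- The hyperbolic tangent written as a quotient. -/
noncomputable def th (z : ℝ) : ℝ := Real.sinh z / Real.cosh z

lemma hasDerivAt_th (z : ℝ) : HasDerivAt th (1 / Real.cosh z ^ 2) z := by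
  have := (Real.hasDerivAt_sinh z).div (Real.hasDerivAt_cosh z) (Real.cosh_pos z).ne'
  refine this.congr_deriv ?_
  congr 1
  nlinarith [Real.cosh_sq z]

lemma th_abs_le (z : ℝ) : |th z| ≤ 1 := by
  unfold th
  rw [abs_div, abs_of_pos (Real.cosh_pos z), div_le_one (Real.cosh_pos z), abs_le]
  have h1 := Real.sinh_lt_cosh z
  have h2 := Real.sinh_lt_cosh (-z)
  rw [Real.sinh_neg, Real.cosh_neg] at h2
  constructor <;> linarith

lemma th_neg (z : ℝ) : th (-z) = -th z := by simp [th, neg_div]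

lemma th_pos {z : ℝ} (hz : 0 < z) : 0 < th z := div_pos (Real.sinh_pos_iff.2 hz) (Real.cosh_pos z)

lemma sech_anti {x y : ℝ} (hx : 0 ≤ x) (hxy : x ≤ y) :
    1 / Real.cosh y ^ 2 ≤ 1 / Real.cosh x ^ 2 := by
  apply one_div_le_one_div_of_le (pow_pos (Real.cosh_pos x) 2)
  apply pow_le_pow_left₀ (Real.cosh_pos x).le
  rw [Real.cosh_le_cosh, abs_of_nonneg hx, abs_of_nonneg (hx.trans hxy)]
  exact hxy

lemma th_mono : Monotone th :=
  monotone_of_deriv_nonneg (fun z => (hasDerivAt_th z).differentiableAt) fun z => by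
    rw [(hasDerivAt_th z).deriv]; positivity

lemma th_concave (R : ℝ) : ConcaveOn ℝ (Icc 0 R) th := by
  refine AntitoneOn.concaveOn_of_deriv (convex_Icc 0 R)
    (fun z _ => (hasDerivAt_th z).continuousAt.continuousWithinAt)
    (fun z _ => (hasDerivAt_th z).differentiableAt.differentiableWithinAt) ?_
  intro x hx y _ hxy
  rw [(hasDerivAt_th x).deriv, (hasDerivAt_th y).deriv]
  exact sech_anti (interior_subset hx).1 hxy

lemma thA_concave {η : ℝ} (hη : 0 < η) : ConcaveOn ℝ (Ici 0) (fun s => √s * th (η * √s)) := by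
  have hd : ∀ t, HasDerivAt (fun t => t * th (η * t))
      (1 * th (η * t) + t * (1 / Real.cosh (η * t) ^ 2 * η)) t := fun t => by
    have a : HasDerivAt (fun t : ℝ => η * t) η t := by simpa using (hasDerivAt_id t).const_mul η
    exact (hasDerivAt_id t).mul ((hasDerivAt_th (η * t)).comp t a)
  refine concave_sqrt' hd ?_
  intro x hx y hy hxy
  simp only [mem_Ioi] at hx hy
  have e : ∀ t : ℝ, 0 < t → (1 * th (η * t) + t * (1 / Real.cosh (η * t) ^ 2 * η)) / t
      = th (η * t) / t + 1 / Real.cosh (η * t) ^ 2 * η := fun t ht => by field_simp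
  simp only
  rw [e x hx, e y hy]
  have h1 := sech_anti (mul_pos hη hx).le (mul_le_mul_of_nonneg_left hxy hη.le)
  have h2 := concave_zero_ratio (th_concave (η * y)) (by simp [th]) (mul_pos hη hx).le
    (mul_le_mul_of_nonneg_left hxy hη.le) le_rfl
  have h3 : th (η * y) / y ≤ th (η * x) / x := by
    rw [div_le_div_iff₀ hy hx]
    have : η * (th (η * y) * x) ≤ η * (th (η * x) * y) := by linarith
    exact le_of_mul_le_mul_left this hη
  nlinarith

lemma thA_strictMono {η : ℝ} (hη : 0 < η) :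
    StrictMonoOn (fun s => √s * th (η * √s)) (Ici 0) := by
  intro x hx y hy hxy
  have h1 : √x < √y := Real.sqrt_lt_sqrt hx hxy
  have h0 := Real.sqrt_nonneg x
  have h2 : th (η * √x) ≤ th (η * √y) := th_mono (mul_le_mul_of_nonneg_left h1.le hη.le)
  have h3 : 0 < th (η * √y) := th_pos (mul_pos hη (h0.trans_lt h1))
  simp only
  nlinarith

end Pool.Agent.Lib.MP_cc278a_pr
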