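import Pool.Agent.Lib.MP_cc278a_pr.Three

set_option autoImplicit false
open MeasureTheory ProbabilityTheory Real Set Filter Topology
open scoped NNReal ENNReal

namespace Pool.Agent.Lib.MP_cc278a_pr

lemma ghs_cross' {W g : ℝ → ℝ} {c l z1 z2 : ℝ}
    (hW : ∀ x ∈ Icc (c - z2) (c + z2), HasDerivAt W (g x) x)
    (hg : ConvexOn ℝ (Icc (c - z2) (c + z2)) g) (h1 : 0 ≤ z1) (h12 : z1 ≤ z2)
    (hneg : W (c - z1) - W (c + z1) + l * z1 < 0) : W (c - z2) - W (c + z2) + l * z2 ≤ 0 := by
  have hd : ∀ z ∈ Icc 0 z2, HasDerivAt (fun z => W (c - z) - W (c + z) + l * z)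
      (-g (c - z) - g (c + z) + l) z := fun z hz => by
    have a1 : HasDerivAt (fun z => W (c - z)) (-g (c - z)) z :=
      (hW (c - z) (by constructor <;> linarith [hz.1, hz.2])).comp_const_sub c z
    have a2 : HasDerivAt (fun z => W (c + z)) (g (c + z)) z :=
      (hW (c + z) (by constructor <;> linarith [hz.1, hz.2])).comp_const_add c z
    have a3 : HasDerivAt (fun z => l * z) l z := by simpa using (hasDerivAt_id z).const_mul l
    exact (a1.sub a2).add a3
  have hconc : ConcaveOn ℝ (Icc 0 z2) (fun z => W (c - z) - W (c + z) + l * z) := by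
    refine AntitoneOn.concaveOn_of_deriv (convex_Icc 0 z2)
      (fun z hz => (hd z hz).continuousAt.continuousWithinAt)
      (fun z hz => (hd z (interior_subset hz)).differentiableAt.differentiableWithinAt) ?_
    intro x hx y hy hxy
    have hx' := interior_subset hx
    have hy' := interior_subset hy
    rw [(hd x hx').deriv, (hd y hy').deriv]
    have := convex_maj hg (a := c - y) (d := c + y) (x := c + x) (y := c - x)
      ⟨by linarith [hy'.2], by linarith [hy'.1]⟩ ⟨by linarith [hy'.1], by linarith [hy'.2]⟩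
      (by linarith [hx'.1, hy'.1]) (by linarith) (by ring)
    linarith
  have := concave_zero_ratio hconc (by simp) h1 h12 le_rfl
  rcases h1.eq_or_lt with h | h
  · subst h; simp at hneg
  · by_contra hcon
    have a := mul_pos h (not_le.1 hcon)
    have b := mul_nonpos_of_nonneg_of_nonpos (h1.trans h12) hneg.le
    linarith

theorem skew_pot {I : Set ℝ} {V : ℝ → ℝ} (hI : IsOpen I) (hVd : DifferentiableOn ℝ V I)
    (s : ℝ) (hs : (s = 1 ∧ IsUpperSet I) ∨ (s = -1 ∧ IsLowerSet I))
    (hg : ConvexOn ℝ I (fun x => -s * deriv V x))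
    [IsProbabilityMeasure (dm (pd I V))] (h2 : MemLp id 2 (dm (pd I V))) (v : ℝ≥0) (hv : v ≠ 0)
    (hvar : variance id (dm (pd I V)) = v) : ∃ c : ℝ,
    ∫ t, ∫ x, L0 (dm (pd I V)) v (t + x) ∂(dm (pd I V)) ∂(gaussianReal 0 v)
      ≤ ∫ t, ∫ x, L0 (dm (pd I V)) v ((t - c) + x) ∂(dm (pd I V)) ∂(dm (pd I V)) := by
  have hv' : (0 : ℝ) < v := by positivity
  have hs' : s = 1 ∨ s = -1 := hs.imp And.left And.left
  have hs'' : -s = 1 ∨ -s = -1 := by rcases hs' with h | h <;> simp [h]
  have hss : s * s = 1 := by rcases hs' with h | h <;> simp [h]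
  have hm := pd_measurable hI hVd.continuousOn
  have h0 := pd_nonneg I V
  have hin : ∀ x ∈ I, pd I V x = Real.exp (-V x) := fun x hx => indicator_of_mem hx _
  have hout : ∀ x ∉ I, pd I V x = 0 := fun x hx => indicator_of_notMem hx _
  have hW : ∀ x ∈ I, HasDerivAt (fun x => -s * V x) (-s * deriv V x) x := fun x hx =>
    ((hVd.differentiableAt (hI.mem_nhds hx)).hasDerivAt).const_mul (-s)
  set p := pd I V with hpdef
  have hL3 : ∀ y, -s * L3 (dm p) v y ≤ 0 := fun y => by
    refine L3_sign hm h0 hv' h2 (-s) y fun z1 z2 hz1 hz12 => ?_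
    intro c hneg
    by_cases hR : ∀ x ∈ Icc (c - z2) (c + z2), x ∈ I
    · have key : ∀ z, 0 ≤ z → z ≤ z2 →
          ∃ A B, p (c + z) * gw v (c + z - y) - p (c - z) * gw v (c - z - y)
            = Real.exp A - Real.exp B ∧
            -s * (A - B) = -s * V (c - z) - -s * V (c + z) + (-(-s * 2 * (c - y) / v)) * z := by
        intro z hz hz2
        refine ⟨-V (c + z) + -((c + z - y) ^ 2) / (2 * v),
          -V (c - z) + -((c - z - y) ^ 2) / (2 * v), ?_, ?_⟩
        · rw [hin _ (hR _ (by constructor <;> linarith)),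
            hin _ (hR _ (by constructor <;> linarith)), Real.exp_add, Real.exp_add]
          rfl
        · field_simp; ring
      obtain ⟨A1, B1, a1, b1⟩ := key z1 hz1 hz12
      obtain ⟨A2, B2, a2, b2⟩ := key z2 (hz1.trans hz12) le_rfl
      rw [a1, (exp_sign hs'' A1 B1).1, b1] at hneg
      rw [a2, ← not_lt, (exp_sign hs'' A2 B2).2, b2, not_lt]
      exact ghs_cross' (W := fun x => -s * V x) (fun x hx => hW x (hR x hx))
        (hg.subset hR (convex_Icc _ _)) hz1 hz12 hneg
    · rcases hs with ⟨rfl, hu⟩ | ⟨rfl, hu⟩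
      · have : c - z2 ∉ I := fun h => hR fun x hx => hu hx.1 h
        rw [hout _ this]
        have := mul_nonneg (h0 (c + z2)) (gw_pos v (c + z2 - y)).le
        linarith
      · have : c + z2 ∉ I := fun h => hR fun x hx => hu hx.2 h
        rw [hout _ this]
        have := mul_nonneg (h0 (c - z2)) (gw_pos v (c - z2 - y)).le
        linarith
  set μ := dm p with hμ
  have hL0 := continuous_L0 hv' h2
  have hL1 := continuous_L1 hv' h2
  have hL2 := continuous_L2 hv' h2
  have hmono : Monotone fun y => s * L2 μ v y :=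
    monotone_of_deriv_nonneg (fun y => ((hasDerivAt_L2 hv' h2 y).const_mul s).differentiableAt)
      fun y => by rw [((hasDerivAt_L2 hv' h2 y).const_mul s).deriv]; linarith [hL3 y]
  have hd0 := fun t => hasDerivAt_T h2 (QG_L0 hv' h2) (QG_L1 hv' h2) (hasDerivAt_L0 hv' h2)
    hL1.measurable t
  have hd1 := fun t => hasDerivAt_T h2 (QG_L1 hv' h2) (QG_L2 hv' h2) (hasDerivAt_L1 hv' h2)
    hL2.measurable t
  have hconv : ConvexOn ℝ univ fun t => s * T μ (L1 μ v) t := by
    refine Monotone.convexOn_univ_of_deriv (fun t => ((hd1 t).const_mul s).differentiableAt) ?_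
    intro x y hxy
    rw [((hd1 x).const_mul s).deriv, ((hd1 y).const_mul s).deriv]
    unfold T
    rw [← integral_const_mul, ← integral_const_mul]
    exact integral_mono ((((QG_L2 hv' h2).shift x).integrable (by fun_prop) h2).const_mul s)
      ((((QG_L2 hv' h2).shift y).integrable (by fun_prop) h2).const_mul s)
      fun z => hmono (by linarith)
  set m := ∫ x, id x ∂μ with hmdef
  refine ⟨m, ?_⟩
  have hTc : Continuous (T μ (L0 μ v)) :=
    continuous_iff_continuousAt.2 fun y => (hd0 y).continuousAt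
  have hQ := QG_T h2 (QG_L0 hv' h2)
  have hg2 : MemLp id 2 (gaussianReal 0 v) := memLp_id_gaussianReal 2
  have shift : ∀ f : ℝ → ℝ, Integrable (fun t => f (t - m)) μ →
      (Integrable fun t => f t * p (t + m)) ∧ ∫ t, f t * p (t + m) = ∫ t, f (t - m) ∂μ := by
    intro f hf
    have e : (fun t => f t * p (t + m)) = fun t => (fun x => p x * f (x - m)) (t + m) := by
      ext t; simp [mul_comm]
    rw [e, integral_dm hm h0]
    exact ⟨((integrable_dm hm h0).1 hf).comp_add_right m,
      integral_add_right_eq_self (fun x => p x * f (x - m)) m⟩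
  have hid : Integrable id μ := h2.integrable (by simp)
  obtain ⟨ip0, Ip0⟩ := shift (fun _ => 1) (integrable_const _)
  obtain ⟨ip1, Ip1⟩ := shift (fun t => t) (hid.sub (integrable_const m))
  obtain ⟨ip2, Ip2⟩ := shift (fun t => t ^ 2) (integrable_sub_sq h2 m)
  obtain ⟨ipT, IpT⟩ := shift (T μ (L0 μ v)) (by
    have := (hQ.shift (-m)).integrable (by fun_prop) h2
    simpa [sub_eq_neg_add] using this)
  simp only [one_mul, integral_const, probReal_univ, smul_eq_mul] at ip0 Ip0
  have Ip1' : ∫ t, (t - m) ∂μ = 0 := by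
    have := integral_sub hid (integrable_const m)
    simp only [id] at this hmdef
    rw [this, ← hmdef]; simp
  have Ip2' : ∫ t, (t - m) ^ 2 ∂μ = v := by
    rw [variance_eq_integral aemeasurable_id] at hvar
    exact hvar
  obtain ⟨ig1, ig2, Ig1, Ig2⟩ := gauss_moments' 0 hv
  have ig0 := integrable_gaussianPDFReal 0 v
  have igT : Integrable fun t => T μ (L0 μ v) t * gaussianPDFReal 0 v t := by
    simpa [mul_comm] using (integrable_gauss_iff hv).1 (hQ.integrable hTc.measurable hg2)
  have f1 : (fun t => t * (s * (p (t + m) - gaussianPDFReal 0 v t)))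
      = fun t => s * (t * p (t + m) - t * gaussianPDFReal 0 v t) := by ext t; ring
  have f2 : (fun t => t ^ 2 * (s * (p (t + m) - gaussianPDFReal 0 v t)))
      = fun t => s * (t ^ 2 * p (t + m) - t ^ 2 * gaussianPDFReal 0 v t) := by ext t; ring
  have fT : (fun t => (s * T μ (L0 μ v) t) * (s * (p (t + m) - gaussianPDFReal 0 v t)))
      = fun t => T μ (L0 μ v) t * p (t + m) - T μ (L0 μ v) t * gaussianPDFReal 0 v t := by
    ext t
    linear_combination (T μ (L0 μ v) t * (p (t + m) - gaussianPDFReal 0 v t)) * hss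
  have key := three_cross (d := fun t => s * (p (t + m) - gaussianPDFReal 0 v t))
    (k := fun t => s * T μ (L0 μ v) t) (k1 := fun t => s * T μ (L1 μ v) t)
    ((ip0.sub ig0).const_mul s) (by rw [f1]; exact (ip1.sub ig1).const_mul s)
    (by rw [f2]; exact (ip2.sub ig2).const_mul s) (by rw [fT]; exact ipT.sub igT)
    (by rw [integral_const_mul, integral_sub ip0 ig0, Ip0, integral_gaussianPDFReal_eq_one 0 hv]
        simp)
    (by rw [f1, integral_const_mul, integral_sub ip1 ig1, Ip1, Ip1', Ig1]; simp)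
    (by rw [f2, integral_const_mul, integral_sub ip2 ig2, Ip2, Ip2', Ig2]; simp)
    (fun t => (hd0 t).const_mul s) hconv
    (by
      intro t1 t2 t3 t4 h12 h23 h34 p1 p2 p3 p4
      have hR : ∀ t ∈ Icc t1 t4, t + m ∈ I := by
        rcases hs with ⟨rfl, hu⟩ | ⟨rfl, hu⟩
        · have : t1 + m ∈ I := by
            by_contra hc
            rw [hout _ hc] at p1
            linarith [gaussianPDFReal_nonneg 0 v t1]
          exact fun t ht => hu (by linarith [ht.1]) this
        · have : t4 + m ∈ I := by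
            by_contra hc
            rw [hout _ hc] at p4
            linarith [gaussianPDFReal_nonneg 0 v t4]
          exact fun t ht => hu (by linarith [ht.2]) this
      set R : ℝ → ℝ := fun t => -s * V (t + m) + s / (2 * v) * t ^ 2 - s * Real.log (kap v) with hRd
      have key : ∀ t ∈ Icc t1 t4, (s * (p (t + m) - gaussianPDFReal 0 v t) < 0 ↔ R t < 0) ∧
          (0 < s * (p (t + m) - gaussianPDFReal 0 v t) ↔ 0 < R t) := by
        intro t ht
        have a : p (t + m) - gaussianPDFReal 0 v t
            = Real.exp (-V (t + m)) - Real.exp (Real.log (kap v) + -(t ^ 2) / (2 * v)) := by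
          rw [hin _ (hR t ht), gaussianPDFReal_eq, sub_zero, Real.exp_add,
            Real.exp_log (kap_pos hv')]
          rfl
        have b : s * (-V (t + m) - (Real.log (kap v) + -(t ^ 2) / (2 * v))) = R t := by
          simp only [hRd]; field_simp; ring
        rw [a, ← b]
        exact exp_sign hs' _ _
      have q1 := (key t1 ⟨le_rfl, by linarith⟩).2.1 p1
      have q2 := (key t2 ⟨by linarith, by linarith⟩).1.1 p2
      have q3 := (key t3 ⟨by linarith, by linarith⟩).2.1 p3
      have q4 := (key t4 ⟨by linarith, le_rfl⟩).1.1 p4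
      have hRd' : ∀ t ∈ Icc t1 t4,
          HasDerivAt R (-s * deriv V (t + m) + s / (2 * v) * (2 * t)) t := fun t ht => by
        have a1 := (hW _ (hR t ht)).comp_add_const t m
        have a2 : HasDerivAt (fun x : ℝ => s / (2 * v) * x ^ 2) (s / (2 * v) * (2 * t)) t := by
          simpa using (hasDerivAt_pow 2 t).const_mul (s / (2 * v))
        exact (a1.add a2).sub_const _
      obtain ⟨x1, hx1, e1, -, -⟩ := mvt h12
        (fun t ht => hRd' t ⟨ht.1, by linarith [ht.2]⟩)
      obtain ⟨x2, hx2, -, e2, -⟩ := mvt h23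
        (fun t ht => hRd' t ⟨by linarith [ht.1], by linarith [ht.2]⟩)
      obtain ⟨x3, hx3, e3, -, -⟩ := mvt h34
        (fun t ht => hRd' t ⟨by linarith [ht.1], ht.2⟩)
      replace e1 := e1 (by linarith)
      replace e2 := e2 (by linarith)
      replace e3 := e3 (by linarith)
      have ch := convex_chord hg (s1 := x1 + m) (s2 := x2 + m) (s3 := x3 + m)
        (hR _ ⟨hx1.1.le, by linarith [hx1.2]⟩) (hR _ ⟨by linarith [hx3.1], hx3.2.le⟩)
        (by linarith [hx1.2, hx2.1]) (by linarith [hx2.2, hx3.1])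
      have c1 := mul_pos (show 0 < x3 - x2 by linarith [hx2.2, hx3.1]) (neg_pos.2 e1)
      have c2 := mul_pos (show 0 < x3 - x1 by linarith [hx1.2, hx3.1]) e2
      have c3 := mul_pos (show 0 < x2 - x1 by linarith [hx1.2, hx2.1]) (neg_pos.2 e3)
      nlinarith)
  rw [fT, integral_sub ipT igT, IpT] at key
  rw [integral_gaussianReal_eq_integral_smul hv]
  simp only [smul_eq_mul, mul_comm (gaussianPDFReal 0 v _)]
  unfold T at key
  linarith

end Pool.Agent.Lib.MP_cc278a_pr
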