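import Pool.Agent.Lib.MP_cc278a_pr.Sign2

set_option autoImplicit false
open MeasureTheory ProbabilityTheory Real Set Filter Topology
open scoped NNReal ENNReal

namespace Pool.Agent.Lib.MP_cc278a_pr

lemma convex_chord {g : ℝ → ℝ} {S : Set ℝ} (hg : ConvexOn ℝ S g) {s1 s2 s3 : ℝ} (h1 : s1 ∈ S)
    (h3 : s3 ∈ S) (h12 : s1 ≤ s2) (h23 : s2 ≤ s3) :
    (s3 - s1) * g s2 ≤ (s3 - s2) * g s1 + (s2 - s1) * g s3 := by
  rcases (h12.trans h23).eq_or_lt with h | h
  · subst h
    have : s2 = s1 := le_antisymm h23 h12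
    subst this; simp
  have hd : 0 < s3 - s1 := sub_pos.2 h
  have := hg.2 h1 h3 (show 0 ≤ (s3 - s2) / (s3 - s1) from div_nonneg (by linarith) hd.le)
    (show 0 ≤ (s2 - s1) / (s3 - s1) from div_nonneg (by linarith) hd.le) (by field_simp; ring)
  simp only [smul_eq_mul] at this
  have e : (s3 - s2) / (s3 - s1) * s1 + (s2 - s1) / (s3 - s1) * s3 = s2 := by field_simp; ring
  rw [e] at this
  have h4 := mul_le_mul_of_nonneg_left this hd.le
  have e2 : (s3 - s1) * ((s3 - s2) / (s3 - s1) * g s1 + (s2 - s1) / (s3 - s1) * g s3)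
      = (s3 - s2) * g s1 + (s2 - s1) * g s3 := by field_simp
  linarith

lemma convex_pattern {g : ℝ → ℝ} (hg : ConvexOn ℝ (Ioi 0) g) (c l : ℝ) {s1 s2 s3 : ℝ}
    (h1 : 0 < s1) (h12 : s1 ≤ s2) (h23 : s2 ≤ s3) (a1 : g s1 < c + l * s1)
    (a3 : g s3 < c + l * s3) : g s2 ≤ c + l * s2 := by
  rcases (h12.trans h23).eq_or_lt with h | h
  · subst h
    have : s2 = s1 := le_antisymm h23 h12
    subst this; exact a1.le
  have := convex_chord hg (show s1 ∈ Ioi 0 from h1) (show s3 ∈ Ioi 0 from h1.trans h) h12 h23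
  have b1 := mul_le_mul_of_nonneg_left a1.le (sub_nonneg.2 h23)
  have b3 := mul_le_mul_of_nonneg_left a3.le (sub_nonneg.2 h12)
  have : (s3 - s1) * g s2 ≤ (s3 - s1) * (c + l * s2) := by nlinarith
  exact le_of_mul_le_mul_left this (sub_pos.2 h)

/-- Density given by a function of the square. -/
noncomputable def hp (g : ℝ → ℝ) (x : ℝ) : ℝ := Real.exp (g (x ^ 2))

lemma hp_pos (g : ℝ → ℝ) (x : ℝ) : 0 < hp g x := Real.exp_pos _

lemma hp_neg (g : ℝ → ℝ) (x : ℝ) : hp g (-x) = hp g x := by simp [hp]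

lemma hp_continuousAt {g : ℝ → ℝ} (hg : ConvexOn ℝ (Ioi 0) g) {x : ℝ} (hx : x ≠ 0) :
    ContinuousAt (hp g) x := by
  have h1 : ContinuousAt g (x ^ 2) :=
    (hg.continuousOn isOpen_Ioi).continuousAt (Ioi_mem_nhds (by positivity))
  have h2 : ContinuousAt (fun x : ℝ => g (x ^ 2)) x :=
    ContinuousAt.comp (f := fun x : ℝ => x ^ 2) h1 (by fun_prop)
  exact h2.rexp

lemma hp_measurable {g : ℝ → ℝ} (hg : ConvexOn ℝ (Ioi 0) g) : Measurable (hp g) :=
  measurable_of_continuousOn_compl_singleton 0 fun _ hx =>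
    (hp_continuousAt hg hx).continuousWithinAt

lemma gauss_moments' (m : ℝ) {a : ℝ≥0} (ha : a ≠ 0) :
    (Integrable fun x => x * gaussianPDFReal m a x) ∧
    (Integrable fun x => x ^ 2 * gaussianPDFReal m a x) ∧
    ∫ x, x * gaussianPDFReal m a x = m ∧ ∫ x, x ^ 2 * gaussianPDFReal m a x = a + m ^ 2 := by
  have h2 : MemLp id 2 (gaussianReal m a) := memLp_id_gaussianReal 2
  have hiff : ∀ f : ℝ → ℝ, Integrable f (gaussianReal m a) →
      Integrable fun x => f x * gaussianPDFReal m a x := fun f hf => by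
    rw [gaussianReal_of_var_ne_zero _ ha] at hf
    have := (integrable_dm (measurable_gaussianPDFReal m a) (gaussianPDFReal_nonneg m a)).1 hf
    simpa [mul_comm] using this
  refine ⟨hiff _ (h2.integrable (by simp)), hiff _ (by simpa using h2.integrable_sq), ?_, ?_⟩
  · have := integral_id_gaussianReal (μ := m) (v := a)
    rw [integral_gaussianReal_eq_integral_smul ha] at this
    simpa [mul_comm] using this
  · have h1 := variance_id_gaussianReal (μ := m) (v := a)
    rw [variance_eq_sub h2] at h1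
    simp only [id, integral_id_gaussianReal, Pi.pow_apply] at h1
    rw [integral_gaussianReal_eq_integral_smul ha] at h1
    simp only [smul_eq_mul] at h1
    simp only [mul_comm _ (gaussianPDFReal m a _)]
    linarith

lemma star {g : ℝ → ℝ} (hg : ConvexOn ℝ (Ioi 0) g) [IsProbabilityMeasure (dm (hp g))] {v : ℝ}
    (hv : 0 < v) (h2 : MemLp id 2 (dm (hp g))) {y : ℝ} (hy : 0 < y) :
    L1 (dm (hp g)) v y ≤ y * L2 (dm (hp g)) v y := by
  have hm := hp_measurable hg
  have h0 : ∀ x, 0 ≤ hp g x := fun x => (hp_pos g x).le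
  have hb := bm_zero_pos hv h2 y
  have hvar := bm_one_sq_le hv h2 y
  set b0 := bm (dm (hp g)) v 0 y with hb0
  set r1 := bm (dm (hp g)) v 1 y / b0 with hr1
  set r2 := bm (dm (hp g)) v 2 y / b0 with hr2
  suffices H : (y + r1) * v ≤ y * (r2 - r1 ^ 2) by
    unfold L1 L2
    rw [← hb0, ← hr1, ← hr2, div_le_iff₀ hv]
    have e : y * ((r2 - r1 ^ 2) / v ^ 2 - 1 / v) * v = y * (r2 - r1 ^ 2) / v - y := by field_simp
    rw [e, le_sub_iff_add_le, le_div_iff₀ hv]
    linarith
  set m := y + r1 with hmdef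
  rcases le_or_gt m 0 with hm0 | hm0
  · nlinarith [mul_nonneg hy.le (sub_nonneg.2 hvar), mul_nonneg (neg_nonneg.2 hm0) hv.le]
  have ha' : 0 < m * v / y := by positivity
  set a : ℝ≥0 := ⟨m * v / y, ha'.le⟩ with hadef
  have hae : (a : ℝ) = m * v / y := rfl
  have ha0 : (0 : ℝ) < a := ha'
  have ha : a ≠ 0 := by intro h; rw [h] at ha0; simp at ha0
  set η := y / v with hη
  have hη0 : 0 < η := by positivity
  obtain ⟨g1, g2, G1, G2⟩ := gauss_moments' m ha
  have g0 := integrable_gaussianPDFReal m a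
  have G0 := integral_gaussianPDFReal_eq_one m ha
  set f : ℝ → ℝ := fun x => hp g x * gw v (x - y) / b0 with hf
  have mom : ∀ (k : ℝ → ℝ) (a0 a1 a2 : ℝ), (∀ x, k x = a0 + a1 * (x - y) + a2 * (x - y) ^ 2) →
      (Integrable fun x => k x * f x) ∧ ∫ x, k x * f x = a0 + a1 * r1 + a2 * r2 := by
    intro k a0 a1 a2 hk
    have e : (fun x => k x * f x) = fun x => (hp g x *
        ((a0 + a1 * (x - y) + a2 * (x - y) ^ 2 + 0 * (x - y) ^ 3) * gw v (x - y))) / b0 := by
      ext x; rw [hk x]; simp only [hf]; ring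
    rw [e]
    refine ⟨((integrable_dm hm h0).1 (integrable_poly hv y _ _ _ _)).div_const _, ?_⟩
    rw [integral_div, ← integral_dm hm h0, integral_poly hv, hr1, hr2, ← hb0]
    field_simp
    ring
  obtain ⟨f0, F0⟩ := mom (fun _ => 1) 1 0 0 (by simp)
  obtain ⟨f1, F1⟩ := mom (fun x => x) y 1 0 (by simp)
  obtain ⟨f2, F2⟩ := mom (fun x => x ^ 2) (y ^ 2) (2 * y) 1 (fun x => by ring)
  simp only [one_mul] at f0 F0
  set e : ℝ → ℝ := fun x => gaussianPDFReal m a x - f x with he
  set E : ℝ → ℝ := fun x => Real.exp (Real.log (kap a) + -(x ^ 2 + m ^ 2) / (2 * a))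
    - Real.exp (g (x ^ 2) + -(x ^ 2 + y ^ 2) / (2 * v) - Real.log b0) with hE
  have eE : ∀ x, e x = Real.exp (η * x) * E x := fun x => by
    simp only [he, hE, hf, gaussianPDFReal_eq, gw, hp]
    rw [mul_sub, ← Real.exp_add (η * x), ← Real.exp_add (η * x)]
    congr 1
    · have : η * x + (Real.log (kap a) + -(x ^ 2 + m ^ 2) / (2 * a))
          = Real.log (kap a) + -((x - m) ^ 2) / (2 * a) := by
        rw [hη, hae]; field_simp; ring
      rw [this, Real.exp_add, Real.exp_log (kap_pos ha0)]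
    · have : η * x + (g (x ^ 2) + -(x ^ 2 + y ^ 2) / (2 * v) - Real.log b0)
          = g (x ^ 2) + -((x - y) ^ 2) / (2 * v) - Real.log b0 := by
        rw [hη]; field_simp; ring
      rw [this, Real.exp_sub, Real.exp_add, Real.exp_log hb]
  have Eneg : ∀ x, E (-x) = E x := fun x => by simp [hE]
  have i0 : Integrable e := g0.sub f0
  have i1 : Integrable fun x => x * e x := by
    simp only [he, mul_sub]; exact g1.sub f1
  have i2 : Integrable fun x => x ^ 2 * e x := by
    simp only [he, mul_sub]; exact g2.sub f2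
  have I0 : ∫ x, e x = 0 := by
    simp only [he]; rw [integral_sub g0 f0, G0, F0]; simp
  have I1 : ∫ x, x * e x = 0 := by
    simp only [he, mul_sub]; rw [integral_sub g1 f1, G1, F1, hmdef]; ring
  have I2 : ∫ x, x ^ 2 * e x = a - (r2 - r1 ^ 2) := by
    simp only [he, mul_sub]; rw [integral_sub g2 f2, G2, F2, hmdef]; ring
  have hdcosh : ∀ x, e x + e (-x) = 2 * Real.cosh (η * x) * E x := fun x => by
    rw [eE, eE, Eneg, Real.cosh_eq, mul_neg]; ring
  have hA : (fun t => (√(t ^ 2) * th (η * √(t ^ 2))) * (e t + e (-t)))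
      = fun t => t * e t + -t * e (-t) := by
    ext t
    have h1 : √(t ^ 2) * th (η * √(t ^ 2)) = t * th (η * t) := by
      rw [Real.sqrt_sq_eq_abs]
      rcases abs_cases t with h | h <;> rw [h.1]
      rw [mul_neg, th_neg]; ring
    rw [h1, hdcosh, eE, eE, Eneg, mul_neg, th, Real.sinh_eq]
    have := Real.cosh_pos (η * t)
    field_simp
    ring
  have hB : (fun t => -(t ^ 2) * (e t + e (-t)))
      = fun t => -(t ^ 2 * e t + (-t) ^ 2 * e (-t)) := by ext t; ring
  have n0 : Integrable fun t => e (-t) := i0.comp_neg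
  have n1 : Integrable fun t => -t * e (-t) := i1.comp_neg
  have n2 : Integrable fun t => (-t) ^ 2 * e (-t) := i2.comp_neg
  have key := two_cross_gen (d := fun t => e t + e (-t)) (A := fun s => √s * th (η * √s))
    (B := fun s => -s) (i0.add n0) (by rw [hA]; exact i1.add n1)
    (by rw [hB]; exact (i2.add n2).neg)
    (by rw [integral_add i0 n0, integral_neg_eq_self e, I0]; simp)
    (by rw [hA, integral_add i1 n1, integral_neg_eq_self (fun t => t * e t), I1]; simp)
    (thA_strictMono hη0)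
    (by
      intro s1 s2 hs1 hs12
      have hlt := thA_strictMono hη0 hs1 (hs1.trans hs12.le) hs12
      simp only at hlt
      set A1 := √s1 * th (η * √s1)
      set A2 := √s2 * th (η * √s2)
      have hpos : 0 < (s2 - s1) / (A2 - A1) := div_pos (sub_pos.2 hs12) (sub_pos.2 hlt)
      refine ⟨-s1 + (s2 - s1) / (A2 - A1) * A1, -((s2 - s1) / (A2 - A1)), fun s hs => ?_⟩
      obtain ⟨c1, c2, c3⟩ := concave_secant (thA_concave hη0) hs1 hs12 hs
      have e1 : -s - (-s1 + (s2 - s1) / (A2 - A1) * A1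
          + -((s2 - s1) / (A2 - A1)) * (√s * th (η * √s)))
          = (s2 - s1) / (A2 - A1) * (√s * th (η * √s) - (A1 + (A2 - A1) / (s2 - s1) * (s - s1))) := by
        have := sub_pos.2 hs12
        have := sub_pos.2 hlt
        field_simp
        ring
      rw [e1]
      exact ⟨fun a b => mul_nonneg hpos.le (c1 a b),
        fun a => mul_nonpos_of_nonneg_of_nonpos hpos.le (c2 a),
        fun a => mul_nonpos_of_nonneg_of_nonpos hpos.le (c3 a)⟩)
    (by
      intro t1 t2 t3 ht1 h12 h23 p1 p3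
      simp only [hdcosh] at p1 p3 ⊢
      have q1 : 0 < E t1 :=
        (mul_pos_iff_of_pos_left (by have := Real.cosh_pos (η * t1); positivity)).1 p1
      have q3 : 0 < E t3 :=
        (mul_pos_iff_of_pos_left (by have := Real.cosh_pos (η * t3); positivity)).1 p3
      apply mul_nonneg (by have := Real.cosh_pos (η * t2); positivity)
      simp only [hE, sub_pos, sub_nonneg, Real.exp_lt_exp, Real.exp_le_exp] at q1 q3 ⊢
      have ec : ∀ s, Real.log (kap a) + -(s + m ^ 2) / (2 * a) - (-(s + y ^ 2) / (2 * v) - Real.log b0)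
          = (Real.log (kap a) - m ^ 2 / (2 * a) + y ^ 2 / (2 * v) + Real.log b0)
            + (1 / (2 * v) - 1 / (2 * a)) * s := fun s => by ring
      have := convex_pattern hg (Real.log (kap a) - m ^ 2 / (2 * a) + y ^ 2 / (2 * v) + Real.log b0)
        (1 / (2 * v) - 1 / (2 * a)) (by positivity) h12 h23 (by rw [← ec]; linarith)
        (by rw [← ec]; linarith)
      rw [← ec] at this
      linarith)
  rw [hB, integral_neg, integral_add i2 n2, integral_neg_eq_self (fun t => t ^ 2 * e t), I2,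
    hae] at key
  have : m * v / y ≤ r2 - r1 ^ 2 := by linarith
  rw [div_le_iff₀ hy] at this
  linarith

end Pool.Agent.Lib.MP_cc278a_pr
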