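import Pool.Agent.Lib.MP_cc278a_pr.Cross
import Pool.Agent.Lib.MP_cc278a_pr.Sign

set_option autoImplicit false
open MeasureTheory ProbabilityTheory Real Set Filter Topology
open scoped NNReal ENNReal

namespace Pool.Agent.Lib.MP_cc278a_pr

/-- Measure with a real density. -/
noncomputable def dm (p : ℝ → ℝ) : Measure ℝ :=
  volume.withDensity fun x => ENNReal.ofReal (p x)

section
variable {p : ℝ → ℝ}

lemma integral_dm (hm : Measurable p) (h0 : ∀ x, 0 ≤ p x) (g : ℝ → ℝ) :
    ∫ x, g x ∂(dm p) = ∫ x, p x * g x := by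
  unfold dm
  rw [integral_withDensity_eq_integral_toReal_smul (by fun_prop) (by simp)]
  simp [ENNReal.toReal_ofReal (h0 _)]

lemma integrable_dm (hm : Measurable p) (h0 : ∀ x, 0 ≤ p x) {g : ℝ → ℝ} :
    Integrable g (dm p) ↔ Integrable fun x => p x * g x := by
  unfold dm
  rw [integrable_withDensity_iff_integrable_smul' (by fun_prop) (by simp)]
  simp [ENNReal.toReal_ofReal (h0 _)]

lemma integral_dm_neg (hm : Measurable p) (h0 : ∀ x, 0 ≤ p x) (he : ∀ x, p (-x) = p x)
    (g : ℝ → ℝ) : ∫ x, g (-x) ∂(dm p) = ∫ x, g x ∂(dm p) := by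
  rw [integral_dm hm h0, integral_dm hm h0, ← integral_neg_eq_self]
  simp [he]

lemma bm_neg (hm : Measurable p) (h0 : ∀ x, 0 ≤ p x) (he : ∀ x, p (-x) = p x) (v : ℝ) (n : ℕ)
    (y : ℝ) : bm (dm p) v n (-y) = (-1) ^ n * bm (dm p) v n y := by
  unfold bm
  rw [← integral_dm_neg hm h0 he, ← integral_const_mul]
  congr 1; ext x
  have : -x - -y = -(x - y) := by ring
  rw [this, gw_neg, neg_pow]; ring

variable [IsProbabilityMeasure (dm p)] {v : ℝ}

/-- Third cumulant of the tilted law from a single crossing about its mean. -/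
lemma L3_sign (hm : Measurable p) (h0 : ∀ x, 0 ≤ p x) (hv : 0 < v) (h2 : MemLp id 2 (dm p))
    (e y : ℝ)
    (hc : ∀ z1 z2, 0 ≤ z1 → z1 ≤ z2 →
      let c := y + bm (dm p) v 1 y / bm (dm p) v 0 y
      e * (p (c + z1) * gw v (c + z1 - y) - p (c - z1) * gw v (c - z1 - y)) < 0 →
      e * (p (c + z2) * gw v (c + z2 - y) - p (c - z2) * gw v (c - z2 - y)) ≤ 0) :
    e * L3 (dm p) v y ≤ 0 := by
  have hp := bm_zero_pos hv h2 y
  set m := bm (dm p) v 1 y / bm (dm p) v 0 y with hmdef
  set c := y + m with hcdef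
  have hb1 : bm (dm p) v 1 y = m * bm (dm p) v 0 y := by rw [hmdef]; field_simp
  set F1 : ℝ → ℝ := fun x => (x - c) * (p x * gw v (x - y)) with hF1
  set F3 : ℝ → ℝ := fun x => (x - c) ^ 3 * (p x * gw v (x - y)) with hF3
  have e1 : F1 = fun x => p x * ((-m + 1 * (x - y) + 0 * (x - y) ^ 2 + 0 * (x - y) ^ 3)
      * gw v (x - y)) := by ext x; simp only [hF1, hcdef]; ring
  have e3 : F3 = fun x => p x * ((-m ^ 3 + 3 * m ^ 2 * (x - y) + (-3 * m) * (x - y) ^ 2
      + 1 * (x - y) ^ 3) * gw v (x - y)) := by ext x; simp only [hF3, hcdef]; ring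
  have i1 : Integrable F1 := by
    rw [e1]; exact (integrable_dm hm h0).1 (integrable_poly hv y _ _ _ _)
  have i3 : Integrable F3 := by
    rw [e3]; exact (integrable_dm hm h0).1 (integrable_poly hv y _ _ _ _)
  have I1 : ∫ x, F1 x = 0 := by
    rw [e1, ← integral_dm hm h0, integral_poly hv, hb1]; ring
  have I3 : ∫ x, F3 x = L3 (dm p) v y * (v ^ 3 * bm (dm p) v 0 y) := by
    rw [e3, ← integral_dm hm h0, integral_poly hv]
    unfold L3
    rw [← hmdef, hb1]; field_simp; ring
  set w : ℝ → ℝ := fun z => e * (F1 (c + z) + F1 (c - z)) with hw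
  have e4 : (fun z => z ^ 2 * w z) = fun z => e * (F3 (c + z) + F3 (c - z)) := by
    ext z; simp only [hw, hF1, hF3]; ring
  have j1 : Integrable fun z => F1 (c + z) := i1.comp_add_left c
  have j2 : Integrable fun z => F1 (c - z) := i1.comp_sub_left c
  have j3 : Integrable fun z => F3 (c + z) := i3.comp_add_left c
  have j4 : Integrable fun z => F3 (c - z) := i3.comp_sub_left c
  have key := one_cross (w := w) ((j1.add j2).const_mul e)
    (by rw [e4]; exact (j3.add j4).const_mul e)
    (by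
      simp only [hw]
      rw [integral_const_mul, integral_add j1 j2, integral_add_left_eq_self F1 c,
        integral_sub_left_eq_self F1 volume c, I1]; simp)
    (by
      have hwabs : ∀ z, w z = |z| * (e * (p (c + |z|) * gw v (c + |z| - y)
          - p (c - |z|) * gw v (c - |z| - y))) := by
        intro z
        simp only [hw, hF1]
        rcases abs_cases z with h | h <;> rw [h.1]
        · ring
        · simp only [sub_neg_eq_add, ← sub_eq_add_neg]; ring
      intro z1 z2 h12 h1
      rw [hwabs] at h1 ⊢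
      have h3 := hc |z1| |z2| (abs_nonneg _) (sq_le_sq.1 h12)
        (by by_contra hcon; exact absurd h1 (not_lt.2 (mul_nonneg (abs_nonneg _) (not_lt.1 hcon))))
      exact mul_nonpos_of_nonneg_of_nonpos (abs_nonneg _) h3)
  rw [e4, integral_const_mul, integral_add j3 j4, integral_add_left_eq_self F3 c,
    integral_sub_left_eq_self F3 volume c, I3] at key
  have hpos : 0 < v ^ 3 * bm (dm p) v 0 y := by positivity
  by_contra hcon
  have := mul_pos (not_le.1 hcon) hpos
  nlinarith

lemma tilt_mean_nonneg (hm : Measurable p) (h0 : ∀ x, 0 ≤ p x) (he : ∀ x, p (-x) = p x)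
    (hv : 0 < v) (h2 : MemLp id 2 (dm p)) {y : ℝ} (hy : 0 ≤ y) :
    0 ≤ y + bm (dm p) v 1 y / bm (dm p) v 0 y := by
  have hp := bm_zero_pos hv h2 y
  have h1 := integral_poly (μ := dm p) hv y y 1 0 0
  have i1 := integrable_poly (μ := dm p) hv y y 1 0 0
  have e1 : (fun x => (y + 1 * (x - y) + 0 * (x - y) ^ 2 + 0 * (x - y) ^ 3) * gw v (x - y))
      = fun x => x * gw v (x - y) := by ext x; ring
  rw [e1] at h1 i1
  have i2 : Integrable (fun x => -x * gw v (-x - y)) (dm p) := by
    rw [integrable_dm hm h0] at i1 ⊢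
    simpa [he] using i1.comp_neg
  have h3 := integral_dm_neg hm h0 he (fun x => x * gw v (x - y))
  have h4 : 0 ≤ ∫ x, (x * gw v (x - y) + -x * gw v (-x - y)) ∂(dm p) := by
    refine integral_nonneg fun x => ?_
    simp only [Pi.zero_apply]
    rcases le_total 0 x with hx | hx
    · have : gw v (-x - y) ≤ gw v (x - y) := by
        apply Real.exp_le_exp.2
        apply div_le_div_of_nonneg_right _ (by positivity)
        nlinarith [mul_nonneg hx hy]
      nlinarith
    · have : gw v (x - y) ≤ gw v (-x - y) := by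
        apply Real.exp_le_exp.2
        apply div_le_div_of_nonneg_right _ (by positivity)
        nlinarith [mul_nonneg (neg_nonneg.2 hx) hy]
      nlinarith
  rw [integral_add i1 i2, h3, h1] at h4
  have : y + bm (dm p) v 1 y / bm (dm p) v 0 y
      = (y * bm (dm p) v 0 y + bm (dm p) v 1 y) / bm (dm p) v 0 y := by field_simp
  rw [this]
  apply div_nonneg _ hp.le
  linarith

end

lemma gauss_moments {v : ℝ≥0} (hv : v ≠ 0) :
    ∫ t, gaussianPDFReal 0 v t * t = 0 ∧ ∫ t, gaussianPDFReal 0 v t * t ^ 2 = v := by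
  constructor
  · have := integral_id_gaussianReal (μ := 0) (v := v)
    rw [integral_gaussianReal_eq_integral_smul hv] at this
    simpa using this
  · have h1 := variance_id_gaussianReal (μ := 0) (v := v)
    rw [variance_eq_integral aemeasurable_id] at h1
    simp only [id, integral_id_gaussianReal, sub_zero] at h1
    rw [integral_gaussianReal_eq_integral_smul hv] at h1
    simpa using h1

lemma integrable_gauss_iff {v : ℝ≥0} (hv : v ≠ 0) {g : ℝ → ℝ} :
    Integrable g (gaussianReal 0 v) ↔ Integrable fun t => gaussianPDFReal 0 v t * g t := by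
  rw [gaussianReal_of_var_ne_zero _ hv]
  exact integrable_dm (measurable_gaussianPDFReal 0 v) (gaussianPDFReal_nonneg 0 v)

/-- The abstract symmetric theorem. -/
theorem sym_main {p : ℝ → ℝ} [IsProbabilityMeasure (dm p)] (hm : Measurable p)
    (h0 : ∀ x, 0 ≤ p x) (he : ∀ x, p (-x) = p x) (hu : AntitoneOn p (Ici 0))
    (h2 : MemLp id 2 (dm p)) {v : ℝ≥0} (hv : v ≠ 0) (hvar : ∫ x, x ^ 2 ∂(dm p) = v)
    (e : ℝ) (hee : e * e = 1)
    (hc : ∀ y c z1 z2, 0 ≤ c → 0 ≤ z1 → z1 ≤ z2 →
      e * (p (c + z1) * gw v (c + z1 - y) - p (c - z1) * gw v (c - z1 - y)) < 0 →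
      e * (p (c + z2) * gw v (c + z2 - y) - p (c - z2) * gw v (c - z2 - y)) ≤ 0)
    (hd : ∀ t1 t2 t3, 0 ≤ t1 → t1 ≤ t2 → t2 ≤ t3 → 0 < e * (p t1 - kap v * gw v t1) →
      0 < e * (p t3 - kap v * gw v t3) → 0 ≤ e * (p t2 - kap v * gw v t2)) :
    ∫ t, ∫ x, L0 (dm p) v (t + x) ∂(dm p) ∂(gaussianReal 0 v)
      ≤ ∫ t, ∫ x, L0 (dm p) v ((t - 0) + x) ∂(dm p) ∂(dm p) := by
  have hv' : (0 : ℝ) < v := by positivity
  have hL0 := continuous_L0 hv' h2
  have hL1 := continuous_L1 hv' h2
  have hL2 := continuous_L2 hv' h2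
  have e0 : ∀ y, L0 (dm p) v (-y) = L0 (dm p) v y := fun y => by
    simp [L0, bm_neg hm h0 he]
  have e1 : ∀ y, L1 (dm p) v (-y) = -L1 (dm p) v y := fun y => by
    simp [L1, bm_neg hm h0 he, neg_div]
  have e2 : ∀ y, L2 (dm p) v (-y) = L2 (dm p) v y := fun y => by
    simp [L2, bm_neg hm h0 he, neg_div]
  have hanti : AntitoneOn (fun y => e * L2 (dm p) v y) (Ici 0) := by
    have hder : ∀ y, HasDerivAt (fun y => e * L2 (dm p) v y) (e * L3 (dm p) v y) y :=
      fun y => (hasDerivAt_L2 hv' h2 y).const_mul e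
    refine antitoneOn_of_deriv_nonpos (convex_Ici 0) (by fun_prop)
      (fun y _ => (hder y).differentiableAt.differentiableWithinAt) fun y hy => ?_
    rw [(hder y).deriv]
    exact L3_sign hm h0 hv' h2 e y fun z1 z2 hz1 hz12 =>
      hc y _ z1 z2 (tilt_mean_nonneg hm h0 he hv' h2 (interior_subset hy)) hz1 hz12
  have hW := wintner (a := fun y => e * L2 (dm p) v y) (fun y => by simp only [e2]) hanti he hu
    (fun t => (integrable_dm hm h0).1
      ((((QG_L2 hv' h2).shift t).integrable (by fun_prop) h2).const_mul e))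
  have hT2 : AntitoneOn (fun t => e * T (dm p) (L2 (dm p) v) t) (Ici 0) := by
    have : (fun t => e * T (dm p) (L2 (dm p) v) t)
        = fun t => ∫ x, p x * (e * L2 (dm p) v (t + x)) := by
      ext t
      rw [← integral_dm hm h0, integral_const_mul]; rfl
    rw [this]; exact hW
  have hd0 := fun t => hasDerivAt_T h2 (QG_L0 hv' h2) (QG_L1 hv' h2) (hasDerivAt_L0 hv' h2)
    hL1.measurable t
  have hd1 := fun t => hasDerivAt_T h2 (QG_L1 hv' h2) (QG_L2 hv' h2) (hasDerivAt_L1 hv' h2)
    hL2.measurable t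
  have hT10 : T (dm p) (L1 (dm p) v) 0 = 0 := by
    have := integral_dm_neg hm h0 he (L1 (dm p) v)
    simp only [e1, integral_neg] at this
    simp only [T, zero_add]
    linarith
  have hTe : ∀ t, T (dm p) (L0 (dm p) v) (-t) = T (dm p) (L0 (dm p) v) t := fun t => by
    unfold T
    rw [← integral_dm_neg hm h0 he]
    congr 1; ext x
    rw [← e0]; congr 1; ring
  have hk := concave_sqrt (f := fun t => e * T (dm p) (L0 (dm p) v) t)
    (fun t => (hd0 t).const_mul e) (fun t => (hd1 t).const_mul e) (by simp [hT10]) hT2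
  have hTc : Continuous (T (dm p) (L0 (dm p) v)) :=
    continuous_iff_continuousAt.2 fun y => (hd0 y).continuousAt
  have hQ := QG_T h2 (QG_L0 hv' h2)
  have hg2 : MemLp id 2 (gaussianReal 0 v) := memLp_id_gaussianReal 2
  have ip0 : Integrable p := by simpa using (integrable_dm hm h0).1 (integrable_const (1 : ℝ))
  have ip2 : Integrable fun t => p t * t ^ 2 :=
    (integrable_dm hm h0).1 (by simpa using h2.integrable_sq)
  have ipT := (integrable_dm hm h0).1 (hQ.integrable hTc.measurable h2)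
  have ig0 := integrable_gaussianPDFReal 0 v
  have ig2 : Integrable fun t => gaussianPDFReal 0 v t * t ^ 2 :=
    (integrable_gauss_iff hv).1 (by simpa using hg2.integrable_sq)
  have igT := (integrable_gauss_iff hv).1 (hQ.integrable hTc.measurable hg2)
  have Ip0 : ∫ t, p t = 1 := by
    have := integral_dm hm h0 (fun _ => 1)
    simpa using this.symm
  have Ip2 : ∫ t, p t * t ^ 2 = v := by rw [← integral_dm hm h0, hvar]
  have habs : ∀ t, T (dm p) (L0 (dm p) v) √(t ^ 2) = T (dm p) (L0 (dm p) v) t := fun t => by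
    rw [Real.sqrt_sq_eq_abs]
    rcases abs_cases t with h | h <;> rw [h.1]
    exact hTe t
  have f2 : (fun t => t ^ 2 * (e * (p t - gaussianPDFReal 0 v t)))
      = fun t => e * (p t * t ^ 2 - gaussianPDFReal 0 v t * t ^ 2) := by ext t; ring
  have fT : (fun t => (e * T (dm p) (L0 (dm p) v) √(t ^ 2)) * (e * (p t - gaussianPDFReal 0 v t)))
      = fun t => p t * T (dm p) (L0 (dm p) v) t
        - gaussianPDFReal 0 v t * T (dm p) (L0 (dm p) v) t := by
    ext t; rw [habs]
    linear_combination (T (dm p) (L0 (dm p) v) t * (p t - gaussianPDFReal 0 v t)) * hee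
  have key := two_cross (d := fun t => e * (p t - gaussianPDFReal 0 v t))
    (k := fun s => e * T (dm p) (L0 (dm p) v) √s) ((ip0.sub ig0).const_mul e)
    (by rw [f2]; exact (ip2.sub ig2).const_mul e) (by rw [fT]; exact ipT.sub igT)
    (by rw [integral_const_mul, integral_sub ip0 ig0, Ip0, integral_gaussianPDFReal_eq_one 0 hv]
        simp)
    (by rw [f2, integral_const_mul, integral_sub ip2 ig2, Ip2, (gauss_moments hv).2]; simp)
    hk
    (by
      have habs2 : ∀ t, e * (p t - gaussianPDFReal 0 v t) = e * (p |t| - kap v * gw v |t|) := by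
        intro t
        rw [gaussianPDFReal_eq, sub_zero]
        rcases abs_cases t with h | h <;> rw [h.1]
        rw [he, gw_neg]
      intro t1 t2 t3 h12 h23
      simp only [habs2]
      exact hd _ _ _ (abs_nonneg _) (sq_le_sq.1 h12) (sq_le_sq.1 h23))
  rw [fT, integral_sub ipT igT, ← integral_dm hm h0] at key
  simp only [sub_zero]
  rw [integral_gaussianReal_eq_integral_smul hv]
  simp only [smul_eq_mul]
  unfold T at key
  linarith

end Pool.Agent.Lib.MP_cc278a_pr
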