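import Pool.Agent.Lib.MP_cc278a_pr.Star

set_option autoImplicit false
open MeasureTheory Set Filter Topology

namespace Pool.Agent.Lib.MP_cc278a_pr

lemma mvt {F F1 : ℝ → ℝ} {x y : ℝ} (hxy : x < y) (hd : ∀ t ∈ Icc x y, HasDerivAt F (F1 t) t) :
    ∃ c ∈ Ioo x y, (F y < F x → F1 c < 0) ∧ (F x < F y → 0 < F1 c) ∧ (F x = F y → F1 c = 0) := by
  obtain ⟨c, hc, e⟩ := exists_hasDerivAt_eq_slope F F1 hxy
    (fun t ht => (hd t ht).continuousAt.continuousWithinAt) (fun t ht => hd t (Ioo_subset_Icc_self ht))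
  refine ⟨c, hc, fun h => ?_, fun h => ?_, fun h => ?_⟩ <;> rw [e]
  · exact div_neg_of_neg_of_pos (by linarith) (by linarith)
  · exact div_pos (by linarith) (by linarith)
  · simp [h]

lemma cubic_sign {F F1 : ℝ → ℝ} (hd : ∀ t, HasDerivAt F (F1 t) t) (hc : ConvexOn ℝ univ F1)
    {a b c : ℝ} (hab : a < b) (hbc : b < c) (ha : F a = 0) (hb : F b = 0) (hcc : F c = 0) (t : ℝ) :
    (t < a → F t ≤ 0) ∧ (a < t → t < b → 0 ≤ F t) ∧ (b < t → t < c → F t ≤ 0) ∧
      (c < t → 0 ≤ F t) := by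
  obtain ⟨x1, hx1, -, -, e1⟩ := mvt hab (fun t _ => hd t)
  obtain ⟨x2, hx2, -, -, e2⟩ := mvt hbc (fun t _ => hd t)
  replace e1 := e1 (by rw [ha, hb])
  replace e2 := e2 (by rw [hb, hcc])
  have ch : ∀ x y z : ℝ, x < y → y < z → (z - x) * F1 y ≤ (z - y) * F1 x + (y - x) * F1 z :=
    fun x y z h1 h2 => convex_chord hc (mem_univ _) (mem_univ _) h1.le h2.le
  refine ⟨fun h => ?_, fun h h' => ?_, fun h h' => ?_, fun h => ?_⟩ <;> by_contra hcon <;>
    rw [not_le] at hcon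
  · obtain ⟨y, hy, f, -, -⟩ := mvt h (fun t _ => hd t)
    have := ch y x1 x2 (by linarith [hy.2, hx1.1]) (by linarith [hx1.2, hx2.1])
    have := mul_pos (show 0 < x2 - x1 by linarith [hx1.2, hx2.1]) (neg_pos.2 (f (by linarith)))
    rw [e1, e2] at *
    linarith
  · obtain ⟨y, hy, f, -, -⟩ := mvt h (fun t _ => hd t)
    obtain ⟨z, hz, -, f', -⟩ := mvt h' (fun t _ => hd t)
    have := ch y z x2 (by linarith [hy.2, hz.1]) (by linarith [hz.2, hx2.1])
    have := mul_pos (show 0 < x2 - z by linarith [hz.2, hx2.1]) (neg_pos.2 (f (by linarith)))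
    have := mul_pos (show 0 < x2 - y by linarith [hz.2, hx2.1, hy.2]) (f' (by linarith))
    rw [e2] at *
    linarith
  · obtain ⟨y, hy, -, f, -⟩ := mvt h (fun t _ => hd t)
    obtain ⟨z, hz, f', -, -⟩ := mvt h' (fun t _ => hd t)
    have := ch x1 y z (by linarith [hy.1, hx1.2]) (by linarith [hz.1, hy.2])
    have := mul_pos (show 0 < y - x1 by linarith [hy.1, hx1.2]) (neg_pos.2 (f' (by linarith)))
    have := mul_pos (show 0 < z - x1 by linarith [hz.1, hx1.2]) (f (by linarith))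
    rw [e1] at *
    linarith
  · obtain ⟨y, hy, f, -, -⟩ := mvt h (fun t _ => hd t)
    have := ch x1 x2 y (by linarith [hx1.2, hx2.1]) (by linarith [hy.1, hx2.2])
    have := mul_pos (show 0 < x2 - x1 by linarith [hx1.2, hx2.1]) (neg_pos.2 (f (by linarith)))
    rw [e1, e2] at *
    linarith

lemma ae_ne (s : ℝ) : ∀ᵐ t : ℝ, t ≠ s := by simp [ae_iff, measure_singleton]

lemma three_cross {d k k1 : ℝ → ℝ} (i0 : Integrable d) (i1 : Integrable fun t => t * d t)
    (i2 : Integrable fun t => t ^ 2 * d t) (ik : Integrable fun t => k t * d t)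
    (I0 : ∫ t, d t = 0) (I1 : ∫ t, t * d t = 0) (I2 : ∫ t, t ^ 2 * d t = 0)
    (hd : ∀ t, HasDerivAt k (k1 t) t) (hc : ConvexOn ℝ univ k1)
    (hp : ∀ t1 t2 t3 t4, t1 < t2 → t2 < t3 → t3 < t4 → 0 < d t1 → d t2 < 0 → 0 < d t3 →
      d t4 < 0 → False) :
    0 ≤ ∫ t, k t * d t := by
  have hq : ∀ α β γ : ℝ, (Integrable fun t => (α + β * t + γ * t ^ 2) * d t) ∧
      ∫ t, (α + β * t + γ * t ^ 2) * d t = 0 := fun α β γ => by
    have e : (fun t => (α + β * t + γ * t ^ 2) * d t)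
        = fun t => α * d t + β * (t * d t) + γ * (t ^ 2 * d t) := by ext t; ring
    have j : Integrable fun t => α * d t + β * (t * d t) := (i0.const_mul _).add (i1.const_mul _)
    rw [e]
    refine ⟨j.add (i2.const_mul _), ?_⟩
    rw [integral_add j (i2.const_mul _), integral_add (i0.const_mul _) (i1.const_mul _),
      integral_const_mul, integral_const_mul, integral_const_mul, I0, I1, I2]
    simp
  have hz : ∀ α β γ x y : ℝ, (∀ t, t ≠ x → t ≠ y → α + β * t + γ * t ^ 2 ≠ 0 ∧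
      0 ≤ (α + β * t + γ * t ^ 2) * d t) → 0 ≤ ∫ t, k t * d t := fun α β γ x y h => by
    have h1 := ae_zero_of_nonneg (hq α β γ).1 (hq α β γ).2 (by
      filter_upwards [ae_ne x, ae_ne y] with t h1 h2 using (h t h1 h2).2)
    have h2 : ∀ᵐ t, k t * d t = 0 := by
      filter_upwards [h1, ae_ne x, ae_ne y] with t h1 h2 h3
      rw [(mul_eq_zero.1 h1).resolve_left (h t h2 h3).1, mul_zero]
    rw [integral_congr_ae (g := fun _ => 0) h2]
    simp
  have lin : ∀ s : ℝ, (∀ t, t < s → d t ≤ 0) → (∀ t, s < t → 0 ≤ d t) → 0 ≤ ∫ t, k t * d t :=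
    fun s h1 h2 => hz (-s) 1 0 s s fun t ht _ => by
      rcases lt_or_gt_of_ne ht with h | h
      · exact ⟨by linarith, by nlinarith [h1 t h]⟩
      · exact ⟨by linarith, by nlinarith [h2 t h]⟩
  by_cases hP : ∃ t, 0 < d t
  swap
  · push Not at hP
    exact hz (-1) 0 0 0 0 fun t _ _ => ⟨by simp, by nlinarith [hP t]⟩
  by_cases hN : ∃ t, d t < 0
  swap
  · push Not at hN
    exact hz 1 0 0 0 0 fun t _ _ => ⟨by simp, by nlinarith [hN t]⟩
  set P : Set ℝ := {t | 0 < d t} with hPd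
  set N : Set ℝ := {t | d t < 0} with hNd
  have Pne : P.Nonempty := hP
  have Nne : N.Nonempty := hN
  by_cases hM : ∃ p n, 0 < d p ∧ d n < 0 ∧ p < n
  swap
  · push Not at hM
    obtain ⟨p, hp0⟩ := hP
    have Nb : BddAbove N := ⟨p, fun n hn => hM p n hp0 hn⟩
    refine lin (sSup N) (fun t ht => ?_) (fun t ht => ?_)
    · obtain ⟨n, hn, h⟩ := exists_lt_of_lt_csSup Nne ht
      by_contra hcon
      exact absurd (hM t n (not_le.1 hcon) hn) (not_le.2 h)
    · by_contra hcon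
      exact absurd (le_csSup Nb (show t ∈ N from not_le.1 hcon)) (not_le.2 ht)
  obtain ⟨p0, n0, hp0, hn0, hpn⟩ := hM
  set M : Set ℝ := {p | 0 < d p ∧ ∃ n, d n < 0 ∧ p < n} with hMd
  have Mne : M.Nonempty := ⟨p0, hp0, n0, hn0, hpn⟩
  have Mub : ∀ m ∈ M, m ≤ n0 := by
    rintro m ⟨hm, n, hn, hmn⟩
    by_contra hcon
    exact hp p0 n0 m n hpn (not_le.1 hcon) hmn hp0 hn0 hm hn
  have Mb : BddAbove M := ⟨n0, Mub⟩
  set b := sSup M with hb
  have hpb : p0 ≤ b := le_csSup Mb ⟨hp0, n0, hn0, hpn⟩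
  have hbn : b ≤ n0 := csSup_le Mne Mub
  have s2 : ∀ t, (∃ p, 0 < d p ∧ p < t) → t < b → 0 ≤ d t := by
    rintro t ⟨p, hp1, hp2⟩ ht
    obtain ⟨m, ⟨hm, n, hn, hmn⟩, h⟩ := exists_lt_of_lt_csSup Mne ht
    by_contra hcon
    exact hp p t m n hp2 h hmn hp1 (not_le.1 hcon) hm hn
  have s3 : ∀ t, (∃ n, d n < 0 ∧ t < n) → b < t → d t ≤ 0 := by
    rintro t ⟨n, hn1, hn2⟩ ht
    by_contra hcon
    exact absurd (le_csSup Mb ⟨not_le.1 hcon, n, hn1, hn2⟩) (not_le.2 ht)
  have uP : ¬BddBelow P → ∀ t, t < b → 0 ≤ d t := fun h t ht => by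
    obtain ⟨p, hp1, hp2⟩ := not_bddBelow_iff.1 h t
    exact s2 t ⟨p, hp1, hp2⟩ ht
  have uN : ¬BddAbove N → ∀ t, b < t → d t ≤ 0 := fun h t ht => by
    obtain ⟨n, hn1, hn2⟩ := not_bddAbove_iff.1 h t
    exact s3 t ⟨n, hn1, hn2⟩ ht
  have bP : BddBelow P → sInf P ≤ b ∧ (∀ t, t < sInf P → d t ≤ 0) ∧
      ∀ t, sInf P < t → t < b → 0 ≤ d t := fun h => by
    refine ⟨(csInf_le h hp0).trans hpb, fun t ht => ?_, fun t ht ht' => ?_⟩
    · by_contra hcon
      exact absurd (csInf_le h (show t ∈ P from not_le.1 hcon)) (not_le.2 ht)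
    · obtain ⟨p, hp1, hp2⟩ := exists_lt_of_csInf_lt Pne ht
      exact s2 t ⟨p, hp1, hp2⟩ ht'
  have bN : BddAbove N → b ≤ sSup N ∧ (∀ t, sSup N < t → 0 ≤ d t) ∧
      ∀ t, b < t → t < sSup N → d t ≤ 0 := fun h => by
    refine ⟨hbn.trans (le_csSup h hn0), fun t ht => ?_, fun t ht ht' => ?_⟩
    · by_contra hcon
      exact absurd (le_csSup h (show t ∈ N from not_le.1 hcon)) (not_le.2 ht)
    · obtain ⟨n, hn1, hn2⟩ := exists_lt_of_lt_csSup Nne ht'
      exact s3 t ⟨n, hn1, hn2⟩ ht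
  by_cases hbP : BddBelow P <;> by_cases hbN : BddAbove N
  · obtain ⟨a1, a2, a3⟩ := bP hbP
    obtain ⟨c1, c2, c3⟩ := bN hbN
    set a := sInf P
    set c := sSup N
    rcases a1.eq_or_lt with hab | hab
    · refine hz (-c) 1 0 b c fun t h1 h2 => ?_
      rcases lt_or_gt_of_ne h2 with h | h
      · refine ⟨by linarith, ?_⟩
        rcases lt_or_gt_of_ne h1 with h' | h'
        · nlinarith [a2 t (hab ▸ h')]
        · nlinarith [c3 t h' h]
      · exact ⟨by linarith, by nlinarith [c2 t h]⟩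
    rcases c1.eq_or_lt with hbc | hbc
    · refine hz (-a) 1 0 b a fun t h1 h2 => ?_
      rcases lt_or_gt_of_ne h2 with h | h
      · exact ⟨by linarith, by nlinarith [a2 t h]⟩
      · refine ⟨by linarith, ?_⟩
        rcases lt_or_gt_of_ne h1 with h' | h'
        · nlinarith [a3 t h h']
        · nlinarith [c2 t (hbc ▸ h')]
    set γ := ((k c - k b) / (c - b) - (k b - k a) / (b - a)) / (c - a) with hγ
    set β := (k b - k a) / (b - a) - γ * (a + b) with hβ
    set α := k a - β * a - γ * a ^ 2 with hα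
    have n1 : b - a ≠ 0 := by linarith
    have n2 : c - b ≠ 0 := by linarith
    have n3 : c - a ≠ 0 := by linarith
    have hs := cubic_sign (F := fun t => k t - (α + β * t + γ * t ^ 2))
      (F1 := fun t => k1 t - (β + 2 * γ * t))
      (fun t => by
        have a1 : HasDerivAt (fun t : ℝ => α + β * t + γ * t ^ 2) (β + 2 * γ * t) t := by
          have := (((hasDerivAt_id t).const_mul β).const_add α).add ((hasDerivAt_pow 2 t).const_mul γ)
          refine this.congr_deriv ?_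
          simp; ring
        exact (hd t).sub a1)
      (hc.sub (by
        refine ⟨convex_univ, fun x _ y _ u w _ _ huw => le_of_eq ?_⟩
        simp only [smul_eq_mul]
        linear_combination β * huw))
      hab hbc (by simp only [hα]; ring) (by simp only [hα, hβ]; field_simp; ring)
      (by simp only [hα, hβ, hγ]; field_simp; ring)
    have e : ∫ t, k t * d t = ∫ t, (k t * d t - (α + β * t + γ * t ^ 2) * d t) := by
      rw [integral_sub ik (hq α β γ).1, (hq α β γ).2, sub_zero]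
    rw [e]
    refine integral_nonneg_of_ae ?_
    filter_upwards [ae_ne a, ae_ne b, ae_ne c] with t h1 h2 h3
    obtain ⟨u1, u2, u3, u4⟩ := hs t
    simp only [Pi.zero_apply]
    rw [← sub_mul]
    rcases lt_or_gt_of_ne h1 with h | h
    · exact mul_nonneg_of_nonpos_of_nonpos (u1 h) (a2 t h)
    rcases lt_or_gt_of_ne h2 with h' | h'
    · exact mul_nonneg (u2 h h') (a3 t h h')
    rcases lt_or_gt_of_ne h3 with h'' | h''
    · exact mul_nonneg_of_nonpos_of_nonpos (u3 h' h'') (c3 t h' h'')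
    · exact mul_nonneg (u4 h'') (c2 t h'')
  · obtain ⟨a1, a2, a3⟩ := bP hbP
    set a := sInf P
    refine hz (-(a * b)) (a + b) (-1) a b fun t h1 h2 => ?_
    have e : -(a * b) + (a + b) * t + -1 * t ^ 2 = (t - a) * (b - t) := by ring
    rw [e]
    refine ⟨mul_ne_zero (sub_ne_zero.2 h1) (sub_ne_zero.2 h2.symm), ?_⟩
    rcases lt_or_gt_of_ne h1 with h | h
    · exact mul_nonneg_of_nonpos_of_nonpos (by nlinarith) (a2 t h)
    rcases lt_or_gt_of_ne h2 with h' | h'
    · exact mul_nonneg (by nlinarith) (a3 t h h')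
    · exact mul_nonneg_of_nonpos_of_nonpos (by nlinarith) (uN hbN t h')
  · obtain ⟨c1, c2, c3⟩ := bN hbN
    set c := sSup N
    refine hz (b * c) (-(b + c)) 1 b c fun t h1 h2 => ?_
    have e : b * c + -(b + c) * t + 1 * t ^ 2 = (t - b) * (t - c) := by ring
    rw [e]
    refine ⟨mul_ne_zero (sub_ne_zero.2 h1) (sub_ne_zero.2 h2), ?_⟩
    rcases lt_or_gt_of_ne h1 with h | h
    · exact mul_nonneg (by nlinarith) (uP hbP t h)
    rcases lt_or_gt_of_ne h2 with h' | h'
    · exact mul_nonneg_of_nonpos_of_nonpos (by nlinarith) (c3 t h h')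
    · exact mul_nonneg (by nlinarith) (c2 t h')
  · refine hz b (-1) 0 b b fun t h1 _ => ?_
    rcases lt_or_gt_of_ne h1 with h | h
    · exact ⟨by linarith, by nlinarith [uP hbP t h]⟩
    · exact ⟨by linarith, by nlinarith [uN hbN t h]⟩

end Pool.Agent.Lib.MP_cc278a_pr
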